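import Pool.Agent.Helper82.DK2.Deg

/-!
# The splitting of the cyclic covers of the complement of a doubly slice knot

`EE n = ℝ^(n+2) × S¹` is the `r`-fold cyclic cover of the complement of the unknotted sphere.
`pr : EE n → Sph (n + 3)` is the covering map, `PP` and `QQ` are the preimages of the two half
spheres.  `cov f g r` is the `r`-fold cyclic cover of the knot complement. The maps `phi`, `psi`
identify it with `PP ∩ QQ`.
-/

namespace Pool.Agent.Helper82.DK2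

open Set Topology

variable {n : ℕ}

/-- `ℝ^(n+2) × S¹`. -/
abbrev EE (n : ℕ) : Type := EuclideanSpace ℝ (Fin (n + 2)) × Circle

/-- The `r`-fold cyclic cover of the complement of the knot. -/
def cov (f : Sph n → Sph (n + 2)) (g : Sph (n + 2) → Circle) (r : ℕ) :
    Set (Sph (n + 2) × Circle) := {p | p.1 ∉ range f ∧ g p.1 = p.2 ^ r}

section
variable (Φ : Sph (n + 3) ≃ₜ Sph (n + 3))
  (H : {x : Sph (n + 3) // x ∉ stdSphere n} ≃ₜ EuclideanSpace ℝ (Fin (n + 2)) × Circle)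
  (m : ℤ) (l : Sph (n + 2) → ℝ) (r : ℕ)

/-- The covering of the complement of `Φ '' stdSphere`. -/
noncomputable def pr (e : EE n) : Sph (n + 3) := Φ (H.symm (e.1, e.2 ^ r)).1

noncomputable def PP : Set (EE n) := {e | 0 ≤ (pr Φ H r e).1 (Fin.last (n + 3))}

noncomputable def QQ : Set (EE n) := {e | (pr Φ H r e).1 (Fin.last (n + 3)) ≤ 0}

open Classical in
/-- The identification of the cyclic cover of the knot complement with `PP ∩ QQ`. -/
noncomputable def phi (x : Sph (n + 2) × Circle) : EE n :=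
  if h : Φ.symm (incl n x.1) ∉ stdSphere n then
    ((H ⟨_, h⟩).1, x.2 ^ m * Circle.exp (l x.1 / r)) else (0, 1)

/-- The left inverse of the inclusion of the equator. -/
noncomputable def dd (n : ℕ) : Sph (n + 3) → Sph (n + 2) :=
  haveI : Nonempty (Sph (n + 2)) := ⟨⟨EuclideanSpace.single 0 1, by simp⟩⟩
  Function.invFun (incl n)

noncomputable def psi (e : EE n) : Sph (n + 2) × Circle :=
  (dd n (pr Φ H r e), (e.2 * Circle.exp (-(l (dd n (pr Φ H r e))) / r)) ^ m)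

end

/-- The data of the splitting. -/
structure IsSplit (f : Sph n → Sph (n + 2)) (g : Sph (n + 2) → Circle) (r : ℕ)
    (P Q : Set (EE n)) (φ : Sph (n + 2) × Circle → EE n) (ψ : EE n → Sph (n + 2) × Circle)
    (m : ℤ) : Prop where
  closedP : IsClosed P
  closedQ : IsClosed Q
  union : P ∪ Q = univ
  sign : m = 1 ∨ m = -1
  rotP : ∀ ζ : Circle, ζ ^ r = 1 → ∀ e ∈ P, (e.1, ζ * e.2) ∈ P
  rotQ : ∀ ζ : Circle, ζ ^ r = 1 → ∀ e ∈ Q, (e.1, ζ * e.2) ∈ Q
  contφ : ContinuousOn φ (cov f g r)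
  mapsφ : MapsTo φ (cov f g r) (P ∩ Q)
  contψ : ContinuousOn ψ (P ∩ Q)
  mapsψ : MapsTo ψ (P ∩ Q) (cov f g r)
  left : ∀ x ∈ cov f g r, ψ (φ x) = x
  right : ∀ e ∈ P ∩ Q, φ (ψ e) = e
  rotφ : ∀ ζ : Circle, ζ ^ r = 1 → ∀ x ∈ cov f g r,
    φ (x.1, ζ * x.2) = ((φ x).1, ζ ^ m * (φ x).2)
  snd : ∃ l : Sph (n + 2) × Circle → ℝ, ContinuousOn l (cov f g r) ∧
    ∀ x ∈ cov f g r, (φ x).2 = x.2 ^ m * Circle.exp (l x)

/-- The local structure: every ball in the cyclic cover of the knot complement, made smaller, has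
a bicollar in `EE n` whose halves are the intersections with `P` and `Q`. -/
def IsBicollared (f : Sph n → Sph (n + 2)) (g : Sph (n + 2) → Circle) (r : ℕ)
    (P Q : Set (EE n)) (φ : Sph (n + 2) × Circle → EE n) : Prop :=
  ∀ j : (Fin (n + 2) → ℝ) → ↥(cov f g r), IsOpenEmbedding j →
    ∃ (ι : (Fin (n + 2) → ℝ) → (Fin (n + 2) → ℝ)) (Ψ : (Fin (n + 2) → ℝ) × ℝ → EE n),
      IsOpenEmbedding ι ∧ ι 0 = 0 ∧ IsOpenEmbedding Ψ ∧ (∀ a, Ψ (a, 0) = φ (j (ι a)).1) ∧
      (∀ a s, Ψ (a, s) ∈ P ↔ 0 ≤ s) ∧ ∀ a s, Ψ (a, s) ∈ Q ↔ s ≤ 0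

end Pool.Agent.Helper82.DK2
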