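import Pool.Agent.Helper36.AS.Space

/-!
# Knots, knot groups, the middle dimensional module and double sliceness

`Sph k` is the unit sphere of `ℝ^(k+1)`. The equator of `Sph (k + 1)` consists of the points whose
last coordinate is zero.
-/

namespace Pool.Agent.Helper82.DK2

open Set

/-- The `k`-sphere: the unit sphere of the euclidean space of dimension `k + 1`. -/
abbrev Sph (k : ℕ) : Type := Metric.sphere (0 : EuclideanSpace ℝ (Fin (k + 1))) 1

/-- An `n`-knot: a locally flat embedding of the `n`-sphere in the `(n + 2)`-sphere. Locally flat: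
every point of the image has a neighbourhood on which there are coordinates with values in
`ℝⁿ × ℂ` such that the image of `f` is given by the vanishing of the coordinate in `ℂ`. -/
structure IsKnot (n : ℕ) (f : Sph n → Sph (n + 2)) : Prop where
  cont : Continuous f
  inj : Function.Injective f
  flat : ∀ x, ∃ φ : OpenPartialHomeomorph (Sph (n + 2)) (EuclideanSpace ℝ (Fin n) × ℂ),
    f x ∈ φ.source ∧ ∀ z ∈ φ.source, z ∈ range f ↔ (φ z).2 = 0

/-- The complement of the knot. -/
abbrev Compl {n : ℕ} (f : Sph n → Sph (n + 2)) : Type := {z : Sph (n + 2) // z ∉ range f}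

/-- The complement of the knot is path connected and its fundamental group is infinite cyclic. -/
structure GroupIsZ {n : ℕ} (f : Sph n → Sph (n + 2)) : Prop where
  path : PathConnectedSpace (Compl f)
  group : ∀ x : Compl f, Nonempty (FundamentalGroup (Compl f) x ≃* Multiplicative ℤ)

/-- The infinite cyclic cover of the complement which is given by a map `g` to the circle: the
pull-back of the universal cover `t ↦ exp (i t)` of the circle. -/
def cyc {n : ℕ} (f : Sph n → Sph (n + 2)) (g : Sph (n + 2) → Circle) :
    Set (Sph (n + 2) × ℝ) := {p | p.1 ∉ range f ∧ g p.1 = Circle.exp p.2}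

/-- `g` is continuous on the complement of the knot, and the corresponding infinite cyclic cover is
path connected. (These maps are the generators of `H¹(X;ℤ) = ℤ`, so the infinite cyclic cover
is well defined.) -/
structure IsCycMap {n : ℕ} (f : Sph n → Sph (n + 2)) (g : Sph (n + 2) → Circle) : Prop where
  cont : ContinuousOn g (range f)ᶜ
  path : IsPathConnected (cyc f g)

/-- The standard `(k + 1)`-sphere in the `(k + 3)`-sphere: the last two coordinates are zero. -/
def stdSphere (k : ℕ) : Set (Sph (k + 3)) :=
  {x | x.1 (Fin.last (k + 3)) = 0 ∧ x.1 (Fin.last (k + 2)).castSucc = 0}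

/-- The equator of the `(k + 3)`-sphere: the last coordinate is zero. -/
def equator (k : ℕ) : Set (Sph (k + 3)) := {x | x.1 (Fin.last (k + 3)) = 0}

/-- The inclusion of the `(k + 2)`-sphere in the `(k + 3)`-sphere as the equator. -/
def incl (k : ℕ) (x : Sph (k + 2)) : Sph (k + 3) :=
  ⟨WithLp.toLp 2 (Fin.snoc (α := fun _ => ℝ) (x.1 : Fin (k + 3) → ℝ) 0), by
    have hx := x.2
    rw [mem_sphere_zero_iff_norm, EuclideanSpace.norm_eq] at hx ⊢
    rw [Fin.sum_univ_castSucc]
    simpa using hx⟩

/-- An unknotted `(n + 1)`-sphere in the `(n + 3)`-sphere: the image of the standard one under a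
homeomorphism. -/
def IsUnknotted (n : ℕ) (S : Set (Sph (n + 3))) : Prop :=
  ∃ Φ : Sph (n + 3) ≃ₜ Sph (n + 3), S = Φ '' stdSphere n

/-- `S` meets the equator transversally in `K`: the intersection is `K`, and near every point of
`K` there are coordinates with values in `ℝⁿ × ℂ × ℝ` in which `S` is given by the vanishing of the
coordinate in `ℂ` and the equator by the vanishing of the coordinate in `ℝ`. -/
def MeetsTransversally (n : ℕ) (S : Set (Sph (n + 3))) (K : Set (Sph (n + 2))) : Prop :=
  S ∩ equator n = incl n '' K ∧
  ∀ x ∈ K, ∃ ψ : OpenPartialHomeomorph (Sph (n + 3)) (EuclideanSpace ℝ (Fin n) × ℂ × ℝ),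
    incl n x ∈ ψ.source ∧
    ∀ z ∈ ψ.source, (z ∈ S ↔ (ψ z).2.1 = 0) ∧ (z ∈ equator n ↔ (ψ z).2.2 = 0)

/-- The knot is doubly slice: it is the transversal intersection of an unknotted `(n + 1)`-sphere in
the `(n + 3)`-sphere with the equator. -/
def IsDoublySlice {n : ℕ} (f : Sph n → Sph (n + 2)) : Prop :=
  ∃ S : Set (Sph (n + 3)), IsUnknotted n S ∧ MeetsTransversally n S (range f)

/-- For an `n`-knot, `n` odd, with complement `X` and infinite cyclic cover `X~`: the rational
Alexander-Spanier cohomology with compact supports of the `(n + 2)`-manifold `X~` in degree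
`(n + 3) / 2` is zero. By Poincare duality this is `H_q(X~;ℚ)`, `q = (n + 1) / 2`, so the condition
says that the middle dimensional module of the knot is zero modulo `ℤ`-torsion. (There are
maps `g` as required, and the condition holds for all of them.) -/
structure MiddleTrivial {n : ℕ} (f : Sph n → Sph (n + 2)) : Prop where
  ex : ∃ g, IsCycMap f g
  zero : ∀ g, IsCycMap f g → Subsingleton (Helper36.AS.Hc ℚ (cyc f g) ((n + 3) / 2))

/-- The goal: an algebraically doubly slice `5`-knot with group `ℤ` which is not doubly slice. -/
def Goal : Prop :=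
  ∃ f : Sph 5 → Sph 7, IsKnot 5 f ∧ GroupIsZ f ∧ MiddleTrivial f ∧ ¬ IsDoublySlice f

end Pool.Agent.Helper82.DK2
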