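import Pool.Agent.Helper77.DS.Base

/-!
# DK-P10: `N` is path connected (about 120-180 lines)

`F p t = min t (G p t)` with
`G = max (|p0| - 2) (max (|p1| - 2) (max (|p2| - 1) (max (t - 4) (min (1 - |p0|) (min (1 - |p1|) (1 - |t - 2|))))))`.
So `F p t = 0` iff (`t = 0` and `0 ≤ G`) or (`0 ≤ t` and `G = 0`). Join every point of `N` to the part at
infinity `{(x, 0) : x ∈ RP3, x 0 0 = 0}`, which is path connected: it is the image of the unit
sphere of `ℝ³` (path connected, or: the image of `ℝ³ \ {0}` under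
`p ↦ outer (0, p) / |p|²`).
(a) `t = 0`, `0 ≤ G p 0`: this says `|p0| ≥ 2` or `|p1| ≥ 2` or `|p2| ≥ 1`. The path
`s ↦ outer (1 - s, p) / |(1 - s, p)|²` for `s ∈ [0, 1]` joins `chart p` to infinity; for `s < 1` it is
`chart (p / (1 - s))`, again with `t = 0`, `0 ≤ G`.
(b) `G = 0`, `0 ≤ t`: then `|p0| ≤ 2`, `|p1| ≤ 2`, `|p2| ≤ 1`, `t ≤ 4`,
`min (1 - |p0|) (min (1 - |p1|) (1 - |t - 2|)) ≤ 0`, with at least one equality.
 If `|p0| = 2` or `|p1| = 2`: decrease `t` to `0` (all the points on the way satisfy `G = 0`), then (a).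
 If `|p2| = 1` and (`|p0| ≥ 1` or `|p1| ≥ 1` or `t ≤ 1`): decrease `t` to `0`, then (a).
 If `|p2| = 1`, `t ≥ 3`: move `p0` linearly to `1` (here `1 - |t - 2| ≤ 0`), then the previous case.
 If `t = 4`: move `p2` linearly to `1`, then the previous cases.
 If the minimum is zero (the wall of the tunnel): move `p2` linearly to `1`, then the previous cases.
(`JoinedIn`, `JoinedIn.trans`; a general lemma for affine paths: if `c : ℝ → (Fin 3 → ℝ)`,
`u : ℝ → ℝ` are continuous and `F (c s) (u s) = 0` for `s ∈ [0, 1]` then the end points are joined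
in `N`, because `chart` is continuous.)
-/

namespace Pool.Agent.Helper82.DK2

open Set Topology Pool.Agent.Helper77.DS

theorem continuous_chart : Continuous chart := by
  have hv : ∀ i : Fin 4, Continuous fun p : Fin 3 → ℝ =>
      (![1, p 0, p 1, p 2] : Fin 4 → ℝ) i := by
    intro i
    fin_cases i
    · exact continuous_const
    · exact continuous_apply 0
    · exact continuous_apply 1
    · exact continuous_apply 2
  refine continuous_pi fun i => continuous_pi fun j => ?_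
  refine ((hv i).mul (hv j)).div (by fun_prop) fun p => ?_
  positivity

/-- the projection from `ℝ⁴` -/
private noncomputable def pr4 (v : Fin 4 → ℝ) : M4 := fun i j => v i * v j / ∑ k, v k ^ 2

private theorem sum_pos {v : Fin 4 → ℝ} (hv : v ≠ 0) : 0 < ∑ k, v k ^ 2 := by
  obtain ⟨i, hi⟩ := Function.ne_iff.1 hv
  have hi' : v i ≠ 0 := hi
  exact Finset.sum_pos' (fun k _ => sq_nonneg (v k)) ⟨i, Finset.mem_univ i, by positivity⟩

private theorem contOn_pr4 : ContinuousOn pr4 {v | v ≠ 0} := by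
  refine continuousOn_pi.2 fun i => continuousOn_pi.2 fun j => ?_
  refine ContinuousOn.div (by fun_prop) (by fun_prop) fun v hv => ?_
  exact (sum_pos hv).ne'

private theorem chart_eq (p : Fin 3 → ℝ) : chart p = pr4 ![1, p 0, p 1, p 2] := by
  funext i j
  show _ / _ = _ / _
  rw [Fin.sum_univ_four]
  simp

private theorem pr4_smul {c : ℝ} (hc : c ≠ 0) (v : Fin 4 → ℝ) : pr4 (fun k => c * v k) = pr4 v := by
  funext i j
  show c * v i * (c * v j) / ∑ k, (c * v k) ^ 2 = v i * v j / ∑ k, v k ^ 2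
  have h : ∑ k, (c * v k) ^ 2 = (c * c) * ∑ k, v k ^ 2 := by
    rw [Finset.mul_sum]
    refine Finset.sum_congr rfl fun k _ => ?_
    ring
  rw [h]
  have h2 : c * v i * (c * v j) = (c * c) * (v i * v j) := by ring
  rw [h2, mul_div_mul_left _ _ (mul_ne_zero hc hc)]

private theorem pr4_mem {v : Fin 4 → ℝ} (hv : v ≠ 0) : pr4 v ∈ RP3 := by
  have h := sum_pos hv
  have hs : 0 < Real.sqrt (∑ k, v k ^ 2) := Real.sqrt_pos.2 h
  have hsq : Real.sqrt (∑ k, v k ^ 2) * Real.sqrt (∑ k, v k ^ 2) = ∑ k, v k ^ 2 :=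
    Real.mul_self_sqrt h.le
  refine ⟨fun k => v k / Real.sqrt (∑ k, v k ^ 2), ?_, ?_⟩
  · have h1 : ∀ k, (v k / Real.sqrt (∑ k, v k ^ 2)) ^ 2 = v k ^ 2 / ∑ k, v k ^ 2 := by
      intro k
      rw [div_pow, Real.sq_sqrt h.le]
    simp only [h1]
    rw [← Finset.sum_div, div_self h.ne']
  · funext i j
    show v i * v j / _ = v i / _ * (v j / _)
    rw [div_mul_div_comm, hsq]

/-- the vanishing of `F` -/
private theorem F_iff (p : Fin 3 → ℝ) (t : ℝ) : F p t = 0 ↔
    (t ≤ 0 ∨ (|p 0| ≤ 2 ∧ |p 1| ≤ 2 ∧ |p 2| ≤ 1 ∧ t ≤ 4 ∧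
      (1 ≤ |p 0| ∨ 1 ≤ |p 1| ∨ 1 ≤ |t - 2|))) ∧
    0 ≤ t ∧ (2 ≤ |p 0| ∨ 2 ≤ |p 1| ∨ 1 ≤ |p 2| ∨ 4 ≤ t ∨
      (|p 0| ≤ 1 ∧ |p 1| ≤ 1 ∧ |t - 2| ≤ 1)) := by
  rw [le_antisymm_iff]
  unfold F
  simp only [min_le_iff, le_min_iff, max_le_iff, le_max_iff, sub_nonneg, sub_nonpos]

/-- moves inside the chart -/
private theorem move (c : ℝ → Fin 3 → ℝ) (u : ℝ → ℝ) (hc : Continuous c) (hu : Continuous u)
    (h : ∀ s, 0 ≤ s → s ≤ 1 → F (c s) (u s) = 0) :
    JoinedIn N (chart (c 0), u 0) (chart (c 1), u 1) := by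
  refine JoinedIn.ofLine (f := fun s => (chart (c s), u s))
    ((continuous_chart.comp hc).prodMk hu).continuousOn rfl rfl ?_
  rintro _ ⟨s, hs, rfl⟩
  exact Or.inl ⟨c s, rfl, h s hs.1 hs.2⟩

/-- the base point -/
private noncomputable def bp : M4 × ℝ := (pr4 ![0, 1, 0, 0], 0)

private theorem ne3 {a b c : ℝ} (h : ¬ (a = 0 ∧ b = 0 ∧ c = 0)) (x : ℝ) :
    (![x, a, b, c] : Fin 4 → ℝ) ≠ 0 := by
  intro h0
  apply h
  have h1 := congrFun h0 1
  have h2 := congrFun h0 2
  have h3 := congrFun h0 3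
  exact ⟨h1, h2, h3⟩

/-- the part at infinity -/
private theorem inf_mem {p : Fin 3 → ℝ} (hp : p ≠ 0) :
    ((pr4 ![0, p 0, p 1, p 2], 0) : M4 × ℝ) ∈ N := by
  refine Or.inr ⟨pr4_mem (ne3 (fun h => hp ?_) 0), ?_, rfl⟩
  · funext i
    fin_cases i
    · exact h.1
    · exact h.2.1
    · exact h.2.2
  · show (0 : ℝ) * 0 / _ = 0
    simp

private theorem inf_joined {p p' : Fin 3 → ℝ} (hp : p ≠ 0) (hp' : p' ≠ 0) :
    JoinedIn N (pr4 ![0, p 0, p 1, p 2], 0) (pr4 ![0, p' 0, p' 1, p' 2], 0) := by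
  have hr : (1 : Cardinal) < Module.rank ℝ (Fin 3 → ℝ) := by
    rw [rank_fin_fun]
    norm_cast
  have h1 : IsPathConnected ({0}ᶜ : Set (Fin 3 → ℝ)) :=
    isPathConnected_compl_singleton_of_one_lt_rank hr 0
  have hcont : ContinuousOn (fun p : Fin 3 → ℝ => ((pr4 ![0, p 0, p 1, p 2], 0) : M4 × ℝ))
      ({0}ᶜ : Set (Fin 3 → ℝ)) := by
    refine ContinuousOn.prodMk ?_ continuousOn_const
    refine contOn_pr4.comp ?_ ?_
    · refine Continuous.continuousOn (continuous_pi fun i => ?_)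
      fin_cases i
      · exact continuous_const
      · exact continuous_apply 0
      · exact continuous_apply 1
      · exact continuous_apply 2
    · intro p hp
      refine ne3 (fun h => hp ?_) 0
      show p = 0
      funext i
      fin_cases i
      · exact h.1
      · exact h.2.1
      · exact h.2.2
  have h2 := h1.image' hcont
  refine (h2.joinedIn _ ⟨p, hp, rfl⟩ _ ⟨p', hp', rfl⟩).mono ?_
  rintro _ ⟨q, hq, rfl⟩
  exact inf_mem hq

private theorem inf_bp {A : M4} (hA : A ∈ RP3) (h0 : A 0 0 = 0) : JoinedIn N (A, 0) bp := by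
  obtain ⟨q, hq, rfl⟩ := hA
  have hq0 : q 0 = 0 := mul_self_eq_zero.1 h0
  have h1 : outer q = pr4 ![0, (![q 1, q 2, q 3] : Fin 3 → ℝ) 0, (![q 1, q 2, q 3] : Fin 3 → ℝ) 1,
      (![q 1, q 2, q 3] : Fin 3 → ℝ) 2] := by
    have h2 : (![0, (![q 1, q 2, q 3] : Fin 3 → ℝ) 0, (![q 1, q 2, q 3] : Fin 3 → ℝ) 1,
      (![q 1, q 2, q 3] : Fin 3 → ℝ) 2] : Fin 4 → ℝ) = q := by
      funext i
      fin_cases i
      · exact hq0.symm
      · rfl
      · rfl
      · rfl
    rw [h2]
    funext i j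
    show q i * q j = q i * q j / _
    rw [hq, div_one]
  rw [h1]
  refine inf_joined (p := ![q 1, q 2, q 3]) (p' := ![1, 0, 0]) ?_ ?_
  · intro h
    have e1 : q 1 = 0 := congrFun h 0
    have e2 : q 2 = 0 := congrFun h 1
    have e3 : q 3 = 0 := congrFun h 2
    rw [Fin.sum_univ_four, hq0, e1, e2, e3] at hq
    norm_num at hq
  · intro h
    have e1 : (1 : ℝ) = 0 := congrFun h 0
    exact one_ne_zero e1

/-- (a) -/
private theorem case_a {p : Fin 3 → ℝ} (hp : 2 ≤ |p 0| ∨ 2 ≤ |p 1| ∨ 1 ≤ |p 2|) :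
    JoinedIn N (chart p, 0) bp := by
  have hne : ¬ (p 0 = 0 ∧ p 1 = 0 ∧ p 2 = 0) := by
    rintro ⟨h0, h1, h2⟩
    rw [h0, h1, h2, abs_zero] at hp
    rcases hp with h | h | h <;> linarith
  have h1 : JoinedIn N (chart p, 0) (pr4 ![0, p 0, p 1, p 2], 0) := by
    refine JoinedIn.ofLine (f := fun s : ℝ => (pr4 ![1 - s, p 0, p 1, p 2], (0 : ℝ))) ?_ ?_ ?_ ?_
    · refine ContinuousOn.prodMk ?_ continuousOn_const
      refine contOn_pr4.comp ?_ ?_
      · refine Continuous.continuousOn (continuous_pi fun i => ?_)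
        fin_cases i
        · exact continuous_const.sub continuous_id
        · exact continuous_const
        · exact continuous_const
        · exact continuous_const
      · intro s _
        exact ne3 hne _
    · show ((pr4 ![1 - 0, p 0, p 1, p 2], (0 : ℝ)) : M4 × ℝ) = _
      rw [sub_zero, ← chart_eq]
    · show ((pr4 ![1 - 1, p 0, p 1, p 2], (0 : ℝ)) : M4 × ℝ) = _
      rw [sub_self]
    · rintro _ ⟨s, hs, rfl⟩
      rcases eq_or_lt_of_le hs.2 with h | h
      · show ((pr4 ![1 - s, p 0, p 1, p 2], (0 : ℝ)) : M4 × ℝ) ∈ N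
        rw [h, sub_self]
        exact inf_mem (fun h0 => hne (by rw [h0]; exact ⟨rfl, rfl, rfl⟩))
      · have hs' : 0 < 1 - s := by linarith
        have hle : 1 ≤ (1 - s)⁻¹ := (one_le_inv₀ hs').2 (by linarith [hs.1])
        refine Or.inl ⟨fun i => (1 - s)⁻¹ * p i, ?_, ?_⟩
        · show pr4 ![1 - s, p 0, p 1, p 2] = _
          rw [chart_eq, ← pr4_smul (inv_pos.2 hs').ne' ![1 - s, p 0, p 1, p 2]]
          congr 1
          funext i
          fin_cases i
          · exact inv_mul_cancel₀ hs'.ne'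
          · rfl
          · rfl
          · rfl
        · show F _ 0 = 0
          rw [F_iff]
          have habs : ∀ i, |p i| ≤ |(1 - s)⁻¹ * p i| := by
            intro i
            rw [abs_mul, abs_of_pos (inv_pos.2 hs')]
            exact le_mul_of_one_le_left (abs_nonneg _) hle
          refine ⟨Or.inl le_rfl, le_rfl, ?_⟩
          rcases hp with h | h | h
          · exact Or.inl (h.trans (habs 0))
          · exact Or.inr (Or.inl (h.trans (habs 1)))
          · exact Or.inr (Or.inr (Or.inl (h.trans (habs 2))))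
  refine h1.trans ?_
  have h2 := inf_joined (p := p) (p' := ![1, 0, 0]) (fun h0 => hne (by
    rw [h0]; exact ⟨rfl, rfl, rfl⟩)) (fun h => one_ne_zero (congrFun h 0))
  exact h2

/-- decrease `t` to zero -/
private theorem case_down {p : Fin 3 → ℝ} {t : ℝ} (ht : 0 ≤ t) (ht4 : t ≤ 4) (h0 : |p 0| ≤ 2)
    (h1 : |p 1| ≤ 2) (h2 : |p 2| ≤ 1) (hT : 1 ≤ |p 0| ∨ 1 ≤ |p 1| ∨ t ≤ 1)
    (he : 2 ≤ |p 0| ∨ 2 ≤ |p 1| ∨ 1 ≤ |p 2|) : JoinedIn N (chart p, t) bp := by
  have h3 := move (fun _ => p) (fun s => (1 - s) * t) continuous_const (by fun_prop) (by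
    intro s hs0 hs1
    rw [F_iff]
    have hst : 0 ≤ (1 - s) * t := mul_nonneg (by linarith) ht
    have hst' : (1 - s) * t ≤ t := by nlinarith
    refine ⟨Or.inr ⟨h0, h1, h2, hst'.trans ht4, ?_⟩, hst, ?_⟩
    · rcases hT with h | h | h
      · exact Or.inl h
      · exact Or.inr (Or.inl h)
      · refine Or.inr (Or.inr ?_)
        rw [abs_of_nonpos (by linarith)]
        linarith
    · rcases he with h | h | h
      · exact Or.inl h
      · exact Or.inr (Or.inl h)
      · exact Or.inr (Or.inr (Or.inl h)))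
  simp only [sub_zero, one_mul, sub_self, zero_mul] at h3
  exact h3.trans (case_a he)

private theorem abs_line {a b s m : ℝ} (ha : |a| ≤ m) (hb : |b| ≤ m) (hs0 : 0 ≤ s) (hs1 : s ≤ 1) :
    |(1 - s) * a + s * b| ≤ m := by
  have h1 : |(1 - s) * a| ≤ (1 - s) * m := by
    rw [abs_mul, abs_of_nonneg (by linarith : (0 : ℝ) ≤ 1 - s)]
    exact mul_le_mul_of_nonneg_left ha (by linarith)
  have h2 : |s * b| ≤ s * m := by
    rw [abs_mul, abs_of_nonneg hs0]
    exact mul_le_mul_of_nonneg_left hb hs0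
  calc |(1 - s) * a + s * b| ≤ |(1 - s) * a| + |s * b| := abs_add_le _ _
    _ ≤ (1 - s) * m + s * m := add_le_add h1 h2
    _ = m := by ring

private theorem cont_vec {a b c : ℝ → ℝ} (ha : Continuous a) (hb : Continuous b)
    (hc : Continuous c) : Continuous fun s => (![a s, b s, c s] : Fin 3 → ℝ) := by
  refine continuous_pi fun i => ?_
  fin_cases i
  · exact ha
  · exact hb
  · exact hc

private theorem vec_eta (p : Fin 3 → ℝ) : ![p 0, p 1, p 2] = p := by
  funext i
  fin_cases i <;> rfl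

/-- the points with `|p 2| = 1` -/
private theorem case_top {p : Fin 3 → ℝ} {t : ℝ} (ht : 0 ≤ t) (ht4 : t ≤ 4) (h0 : |p 0| ≤ 2)
    (h1 : |p 1| ≤ 2) (h2 : |p 2| = 1) (hT : 1 ≤ |p 0| ∨ 1 ≤ |p 1| ∨ 1 ≤ |t - 2|) :
    JoinedIn N (chart p, t) bp := by
  by_cases hc : 1 ≤ |p 0| ∨ 1 ≤ |p 1| ∨ t ≤ 1
  · exact case_down ht ht4 h0 h1 h2.le hc (Or.inr (Or.inr h2.ge))
  · have ht3 : 3 ≤ t := by
      rcases hT with h | h | h
      · exact absurd (Or.inl h) hc
      · exact absurd (Or.inr (Or.inl h)) hc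
      · have h4 : ¬ t ≤ 1 := fun h5 => hc (Or.inr (Or.inr h5))
        rcases le_abs.1 h with h5 | h5
        · linarith
        · exfalso
          linarith
    have h3 := move (fun s => ![(1 - s) * p 0 + s * 1, p 1, p 2]) (fun _ => t)
      (cont_vec (by fun_prop) continuous_const continuous_const) continuous_const (by
      intro s hs0 hs1
      rw [F_iff]
      refine ⟨Or.inr ⟨?_, h1, h2.le, ht4, Or.inr (Or.inr ?_)⟩, ht, Or.inr (Or.inr (Or.inl h2.ge))⟩
      · exact abs_line h0 (by norm_num) hs0 hs1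
      · rw [abs_of_nonneg (by linarith)]
        linarith)
    simp only [sub_zero, one_mul, sub_self, zero_mul, add_zero, zero_add] at h3
    rw [vec_eta] at h3
    refine h3.trans (case_down ht ht4 ?_ h1 h2.le (Or.inl ?_) (Or.inr (Or.inr h2.ge)))
    · show |(1 : ℝ)| ≤ 2
      norm_num
    · show 1 ≤ |(1 : ℝ)|
      norm_num

/-- move `p 2` to `1` -/
private theorem case_side {p : Fin 3 → ℝ} {t : ℝ} (ht : 0 ≤ t) (ht4 : t ≤ 4) (h0 : |p 0| ≤ 2)
    (h1 : |p 1| ≤ 2) (h2 : |p 2| ≤ 1) (hT : 1 ≤ |p 0| ∨ 1 ≤ |p 1| ∨ 1 ≤ |t - 2|)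
    (he : 4 ≤ t ∨ (|p 0| ≤ 1 ∧ |p 1| ≤ 1 ∧ |t - 2| ≤ 1)) : JoinedIn N (chart p, t) bp := by
  have h3 := move (fun s => ![p 0, p 1, (1 - s) * p 2 + s * 1]) (fun _ => t)
    (cont_vec continuous_const continuous_const (by fun_prop)) continuous_const (by
    intro s hs0 hs1
    rw [F_iff]
    refine ⟨Or.inr ⟨h0, h1, ?_, ht4, hT⟩, ht, Or.inr (Or.inr (Or.inr he))⟩
    exact abs_line h2 (by norm_num) hs0 hs1)
  simp only [sub_zero, one_mul, sub_self, zero_mul, add_zero, zero_add] at h3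
  rw [vec_eta] at h3
  exact h3.trans (case_top (p := ![p 0, p 1, 1]) ht ht4 h0 h1 (by
    show |(1 : ℝ)| = 1
    norm_num) hT)

theorem isPathConnected_N : IsPathConnected N := by
  have key : ∀ x ∈ N, JoinedIn N x bp := by
    rintro ⟨A, t⟩ (⟨p, hA, hF⟩ | ⟨hA, h0, ht⟩)
    · have hA' : A = chart p := hA
      rw [hA']
      have hF' : F p t = 0 := hF
      rw [F_iff] at hF'
      obtain ⟨h1, h2, h3⟩ := hF'
      rcases h1 with h1 | ⟨h4, h5, h6, h7, h8⟩
      · have ht0 : t = 0 := le_antisymm h1 h2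
        rw [ht0]
        refine case_a ?_
        rcases h3 with h | h | h | h | h
        · exact Or.inl h
        · exact Or.inr (Or.inl h)
        · exact Or.inr (Or.inr h)
        · exfalso
          linarith
        · exfalso
          have h9 := h.2.2
          rw [ht0] at h9
          norm_num at h9
      · rcases h3 with h | h | h | h | h
        · exact case_down h2 h7 h4 h5 h6 (Or.inl (by linarith)) (Or.inl h)
        · exact case_down h2 h7 h4 h5 h6 (Or.inr (Or.inl (by linarith))) (Or.inr (Or.inl h))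
        · exact case_top h2 h7 h4 h5 (le_antisymm h6 h) h8
        · exact case_side h2 h7 h4 h5 h6 h8 (Or.inl h)
        · exact case_side h2 h7 h4 h5 h6 h8 (Or.inr h)
    · have ht' : t = 0 := ht
      rw [ht']
      exact inf_bp hA h0
  have hbp : bp ∈ N := by
    have h := inf_mem (p := ![1, 0, 0]) (fun h => one_ne_zero (congrFun h 0))
    exact h
  exact ⟨bp, hbp, fun {x} hx => (key x hx).symm⟩

theorem isPathConnected_M : IsPathConnected M := by
  have h1 : M = N ×ˢ (univ : Set Circle) := by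
    ext m
    exact ⟨fun h => ⟨h, mem_univ _⟩, fun h => h.1⟩
  rw [h1]
  exact isPathConnected_N.prod isPathConnected_univ

end Pool.Agent.Helper82.DK2
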