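import Mathlib

/-!
# DK-P1: the fundamental group of a union of two open sets is generated by the two subgroups
(about 80-120 lines)

Proof. Call a path `δ : x₀ → x` admissible if (`x ∈ U` implies that `δ` lies in `U`) and (`x ∈ V`
implies that `δ` lies in `V`). Every `x` has an admissible path: for `x ∈ U ∩ V` take a path in
`U ∩ V`, for `x ∈ U \ V` a path in `U`, for `x ∈ V \ U` a path in `V`.
Let `γ` be a loop at `x₀`. By `exists_monotone_Icc_subset_open_cover_unitInterval` (or its variants)
there is a monotone sequence `t : ℕ → unitInterval` with `t 0 = 0`, `t k = 1` for large `k`, and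
such that `γ` maps each `Icc (t k) (t (k + 1))` into `U` or into `V`. Claim: for all `k` and all
admissible `δ : x₀ → γ (t k)` the class of `(γ.subpath 0 (t k)) · δ⁻¹` (with the first path cast to
start at `x₀ = γ 0`) is in `S`. Induction: for `k = 0` the class is that of `δ⁻¹`, a loop in `U`.
Step: let `δ'` be admissible for `γ (t k)`; with `Path.Homotopy.subpathTransSubpath` the class for
`t (k + 1)`, `δ` is the product of the class for `t k`, `δ'` and of the class of the loop
`δ' · γ.subpath (t k) (t (k + 1)) · δ⁻¹`, which lies in `U` (or `V`) if the subpath does, because then both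
its end points are in `U`. For large `k` take `δ` constant. The multiplication of the fundamental
group is `p * q = q.trans p` (`FundamentalGroup.mul_def`).
-/

namespace Pool.Agent.Helper82.DK2

open Set Topology

variable {X : Type*} [TopologicalSpace X]

/-- The class of a loop. -/
def lc {x : X} (γ : Path x x) : FundamentalGroup X x := Path.Homotopic.Quotient.mk γ

theorem lc_trans {x : X} (γ δ : Path x x) : lc (γ.trans δ) = lc δ * lc γ := rfl

theorem lc_symm {x : X} (γ : Path x x) : lc γ.symm = (lc γ)⁻¹ := rfl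

theorem lc_eq_iff {x : X} (γ δ : Path x x) : lc γ = lc δ ↔ γ.Homotopic δ :=
  Path.Homotopic.Quotient.eq

theorem lc_surj {x : X} (c : FundamentalGroup X x) : ∃ γ : Path x x, lc γ = c :=
  Path.Homotopic.Quotient.mk_surjective c


theorem generate {U V : Set X} (hU : IsOpen U) (hV : IsOpen V) (hUV : U ∪ V = univ)
    (hUc : IsPathConnected U) (hVc : IsPathConnected V) (hI : IsPathConnected (U ∩ V))
    {x₀ : X} (hx : x₀ ∈ U ∩ V) (S : Subgroup (FundamentalGroup X x₀))
    (h1 : ∀ γ : Path x₀ x₀, (∀ t, γ t ∈ U) → lc γ ∈ S)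
    (h2 : ∀ γ : Path x₀ x₀, (∀ t, γ t ∈ V) → lc γ ∈ S) : S = ⊤ := by
  -- admissible paths
  have hadm : ∀ x, ∃ δ : Path x₀ x, (x ∈ U → ∀ t, δ t ∈ U) ∧ (x ∈ V → ∀ t, δ t ∈ V) := by
    intro x
    by_cases hxU : x ∈ U
    · by_cases hxV : x ∈ V
      · obtain ⟨δ, hδ⟩ := hI.joinedIn x₀ hx x ⟨hxU, hxV⟩
        exact ⟨δ, fun _ t => (hδ t).1, fun _ t => (hδ t).2⟩
      · obtain ⟨δ, hδ⟩ := hUc.joinedIn x₀ hx.1 x hxU
        exact ⟨δ, fun _ t => hδ t, fun h => absurd h hxV⟩
    · have hxV : x ∈ V := by
        have : x ∈ U ∪ V := hUV ▸ mem_univ x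
        exact this.resolve_left hxU
      obtain ⟨δ, hδ⟩ := hVc.joinedIn x₀ hx.2 x hxV
      exact ⟨δ, fun h => absurd h hxU, fun _ t => hδ t⟩
  rw [Subgroup.eq_top_iff']
  intro c
  obtain ⟨γ, rfl⟩ := lc_surj c
  obtain ⟨t, ht0, htm, ⟨n, hn⟩, htc⟩ := exists_monotone_Icc_subset_open_cover_unitInterval
    (c := fun b : Bool => if b then γ ⁻¹' U else γ ⁻¹' V)
    (fun b => by cases b <;> simp [hU.preimage γ.continuous, hV.preimage γ.continuous])
    (fun s _ => by
      have : γ s ∈ U ∪ V := hUV ▸ mem_univ _
      rw [mem_iUnion]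
      rcases this with h | h
      · exact ⟨true, h⟩
      · exact ⟨false, h⟩)
  have key : ∀ k, ∀ δ : Path x₀ (γ (t k)), (γ (t k) ∈ U → ∀ s, δ s ∈ U) →
      (γ (t k) ∈ V → ∀ s, δ s ∈ V) →
      lc (((γ.subpath 0 (t k)).cast γ.source.symm rfl).trans δ.symm) ∈ S := by
    intro k
    induction k with
    | zero =>
      intro δ hδ _
      have h0 : γ (t 0) = x₀ := by rw [ht0]; exact γ.source
      have hx0 : γ (t 0) ∈ U := by rw [h0]; exact hx.1
      refine h1 _ fun s => ?_
      rw [Path.trans_apply]
      split_ifs with hs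
      · rw [Path.cast_coe]
        have h3 := (range_subset_iff.1 (le_of_eq (γ.range_subpath_of_le 0 (t 0) bot_le)))
          ⟨2 * s, (unitInterval.mul_pos_mem_iff zero_lt_two).2 ⟨s.2.1, hs⟩⟩
        obtain ⟨r, hr, hr'⟩ := h3
        rw [← hr']
        have : r = 0 := le_antisymm (ht0 ▸ hr.2) hr.1
        rw [this, γ.source]; exact hx.1
      · exact hδ hx0 _
    | succ k ih =>
      intro δ hδU hδV
      obtain ⟨δ', hδ'U, hδ'V⟩ := hadm (γ (t k))
      have ih' := ih δ' hδ'U hδ'V
      have hkk : t k ≤ t (k + 1) := htm (Nat.le_succ k)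
      have hq : Path.Homotopic.Quotient.mk ((γ.subpath 0 (t (k + 1))).cast γ.source.symm rfl) =
          (Path.Homotopic.Quotient.mk ((γ.subpath 0 (t k)).cast γ.source.symm rfl)).trans
            (Path.Homotopic.Quotient.mk (γ.subpath (t k) (t (k + 1)))) := by
        have h3 : Path.Homotopic.Quotient.mk ((γ.subpath 0 (t k)).trans (γ.subpath (t k) (t (k + 1)))) =
            Path.Homotopic.Quotient.mk (γ.subpath 0 (t (k + 1))) :=
          Path.Homotopic.Quotient.eq.2 ⟨Path.Homotopy.subpathTransSubpath γ _ _ _⟩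
        rw [Path.Homotopic.Quotient.mk_cast, ← h3, Path.Homotopic.Quotient.mk_trans, Path.Homotopic.Quotient.mk_cast]
        generalize Path.Homotopic.Quotient.mk (γ.subpath 0 (t k)) = a
        generalize Path.Homotopic.Quotient.mk (γ.subpath (t k) (t (k + 1))) = b
        revert a
        generalize γ.source.symm = hs
        revert hs
        generalize γ 0 = y
        rintro rfl a
        simp
      have heq : lc (((γ.subpath 0 (t (k + 1))).cast γ.source.symm rfl).trans δ.symm) =
          lc ((δ'.trans (γ.subpath (t k) (t (k + 1)))).trans δ.symm) *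
          lc (((γ.subpath 0 (t k)).cast γ.source.symm rfl).trans δ'.symm) := by
        rw [← lc_trans]
        unfold lc
        simp only [Path.Homotopic.Quotient.mk_trans, Path.Homotopic.Quotient.mk_symm]
        rw [hq]
        simp only [Path.Homotopic.Quotient.trans_assoc]
        congr 1
        rw [← Path.Homotopic.Quotient.trans_assoc (Path.Homotopic.Quotient.mk δ').symm, Path.Homotopic.Quotient.symm_trans,
          Path.Homotopic.Quotient.refl_trans]
      rw [heq]
      refine S.mul_mem ?_ ih'
      have hpiece : ∀ W : Set X, (∀ r ∈ Icc (t k) (t (k + 1)), γ r ∈ W) →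
          ∀ s, γ.subpath (t k) (t (k + 1)) s ∈ W := by
        intro W hW s
        obtain ⟨r, hr, hr'⟩ := (range_subset_iff.1
          (le_of_eq (γ.range_subpath_of_le (t k) (t (k + 1)) hkk))) s
        rw [← hr']; exact hW r hr
      have htr : ∀ W : Set X, (∀ s, δ' s ∈ W) → (∀ s, γ.subpath (t k) (t (k + 1)) s ∈ W) →
          (∀ s, δ s ∈ W) → ∀ s, ((δ'.trans (γ.subpath (t k) (t (k + 1)))).trans δ.symm) s ∈ W := by
        intro W ha hb hc s
        rw [Path.trans_apply]
        split_ifs with hs
        · rw [Path.trans_apply]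
          split_ifs with hs'
          · exact ha _
          · exact hb _
        · exact hc _
      obtain ⟨b, hb⟩ := htc k
      cases b with
      | true =>
        have hW : ∀ r ∈ Icc (t k) (t (k + 1)), γ r ∈ U := fun r hr => by simpa using hb hr
        exact h1 _ (htr U (hδ'U (hW _ ⟨le_rfl, hkk⟩)) (hpiece U hW) (hδU (hW _ ⟨hkk, le_rfl⟩)))
      | false =>
        have hW : ∀ r ∈ Icc (t k) (t (k + 1)), γ r ∈ V := fun r hr => by simpa using hb hr
        exact h2 _ (htr V (hδ'V (hW _ ⟨le_rfl, hkk⟩)) (hpiece V hW) (hδV (hW _ ⟨hkk, le_rfl⟩)))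
  have htn : t n = 1 := hn n le_rfl
  have hend : γ (t n) = x₀ := by rw [htn]; exact γ.target
  have h5 := key n ((Path.refl x₀).cast rfl hend) (fun h s => by
    rw [Path.cast_coe]; exact hx.1) (fun h s => by rw [Path.cast_coe]; exact hx.2)
  have h6 : lc (((γ.subpath 0 (t n)).cast γ.source.symm rfl).trans
      ((Path.refl x₀).cast rfl hend).symm) = lc γ := by
    rw [lc_eq_iff]
    have h7 : ∀ (r : unitInterval) (hr : r = 1) (hr' : γ r = x₀),
        (((γ.subpath 0 r).cast γ.source.symm rfl).trans
          ((Path.refl x₀).cast rfl hr').symm).Homotopic γ := by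
      rintro r rfl hr'
      have h8 : ((γ.subpath 0 1).cast γ.source.symm rfl).trans
          ((Path.refl x₀).cast rfl hr').symm = γ.trans (Path.refl x₀) := by
        ext s
        rw [Path.trans_apply, Path.trans_apply]
        split_ifs with hs
        · rw [Path.cast_coe, Path.subpath_zero_one, Path.cast_coe]
        · rfl
      rw [h8]
      exact ⟨Path.Homotopy.transRefl γ⟩
    exact h7 _ htn hend
  rw [← h6]; exact h5

end Pool.Agent.Helper82.DK2
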