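import Pool.Agent.Helper82.DK2.Circ
import Pool.Agent.Helper82.DK2.Generate

/-!
# DK-P2: the change of the angle along a path (about 100-150 lines)

Everything follows from path and homotopy lifting for the covering `Circle.exp`
(`Circle.isCoveringMap_exp`): `IsCoveringMap.exists_path_lifts`, uniqueness by
`IsCoveringMap.eq_of_comp_eq` or `const_of_comp` (the difference of two lifts has
`exp (l - l') = 1`, so it is constant), `liftPath_apply_one_eq_of_homotopicRel` for homotopic
paths (start both lifts at the same point).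
* `trans`: translate the lift of the second path by `l 1 - l' 0` (`exp` of it is `1`) and
  concatenate (`Path.trans` of the two lifts as paths in `ℝ`).
* `zpow`, `mul`: multiples and sums of the lifts.
* `of_exp`: `h = exp ∘ l` along the path.
-/

namespace Pool.Agent.Helper82.DK2

open Set Topology

variable {X Y : Type*} [TopologicalSpace X] [TopologicalSpace Y]

/-- The angle of `g` changes by `r` along the path `γ`. -/
def HasAngle (g : X → Circle) {x y : X} (γ : Path x y) (r : ℝ) : Prop :=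
  ∃ l : C(unitInterval, ℝ), (∀ t, g (γ t) = Circle.exp (l t)) ∧ l 1 - l 0 = r

namespace HasAngle

variable {g g' : X → Circle} {x y z : X}

private theorem lift_of_continuous (c : C(unitInterval, Circle)) (t₀ : ℝ)
    (h0 : c 0 = Circle.exp t₀) : ∃ l : C(unitInterval, ℝ), (∀ t, c t = Circle.exp (l t)) ∧
      l 0 = t₀ := by
  obtain ⟨l, hl, hl0⟩ := Circle.isCoveringMap_exp.exists_path_lifts c t₀ h0
  exact ⟨l, fun t => (congrFun hl t).symm, hl0⟩

theorem exists_of_continuousOn {A : Set X} (hg : ContinuousOn g A) (γ : Path x y)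
    (hγ : ∀ t, γ t ∈ A) : ∃ r, HasAngle g γ r := by
  obtain ⟨t₀, ht₀⟩ := Circle.exp_surjective (g (γ 0))
  obtain ⟨l, hl, -⟩ := lift_of_continuous ⟨fun t => g (γ t),
    hg.comp_continuous γ.continuous hγ⟩ t₀ ht₀.symm
  exact ⟨_, l, hl, rfl⟩

theorem exists_of_continuous (hg : Continuous g) (γ : Path x y) : ∃ r, HasAngle g γ r :=
  exists_of_continuousOn (A := univ) hg.continuousOn γ fun _ => mem_univ _

private theorem diff_const {l l' : C(unitInterval, ℝ)}
    (h : ∀ t, Circle.exp (l t) = Circle.exp (l' t)) (s t : unitInterval) :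
    l s - l' s = l t - l' t := by
  refine Circle.isCoveringMap_exp.const_of_comp (l.continuous.sub l'.continuous)
    (fun a b => ?_) s t
  simp only [Pi.sub_apply]
  rw [Circle.exp_sub, Circle.exp_sub, h a, h b, div_self', div_self']

theorem unique {γ : Path x y} {r r' : ℝ} (h : HasAngle g γ r) (h' : HasAngle g γ r') : r = r' := by
  obtain ⟨l, hl, rfl⟩ := h
  obtain ⟨l', hl', rfl⟩ := h'
  have := diff_const (fun t => (hl t).symm.trans (hl' t)) 1 0
  linarith

theorem refl (g : X → Circle) (x : X) : HasAngle g (Path.refl x) 0 := by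
  obtain ⟨t₀, ht₀⟩ := Circle.exp_surjective (g x)
  exact ⟨ContinuousMap.const _ t₀, fun t => ht₀.symm, by simp⟩

theorem trans {γ : Path x y} {δ : Path y z} {r s : ℝ} (h : HasAngle g γ r)
    (h' : HasAngle g δ s) : HasAngle g (γ.trans δ) (r + s) := by
  obtain ⟨l, hl, rfl⟩ := h
  obtain ⟨l', hl', rfl⟩ := h'
  have h0 : Circle.exp (l' 0) = Circle.exp (l 1) := by
    rw [← hl', ← hl, γ.target, δ.source]
  set p : Path (l 0) (l 1) := ⟨l, rfl, rfl⟩ with hp
  set q : Path (l 1) (l 1 + (l' 1 - l' 0)) :=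
    ⟨⟨fun t => l' t - l' 0 + l 1, by fun_prop⟩, by simp, by simp; ring⟩ with hq
  refine ⟨(p.trans q).toContinuousMap, fun t => ?_, ?_⟩
  · change g ((γ.trans δ) t) = Circle.exp ((p.trans q) t)
    rw [Path.trans_apply, Path.trans_apply]
    split_ifs with ht
    · exact hl _
    · rw [hl']
      change _ = Circle.exp (l' _ - l' 0 + l 1)
      rw [Circle.exp_add, Circle.exp_sub, h0, div_mul_cancel]
  · change (p.trans q) 1 - (p.trans q) 0 = _
    rw [Path.target, Path.source]
    ring

theorem symm {γ : Path x y} {r : ℝ} (h : HasAngle g γ r) : HasAngle g γ.symm (-r) := by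
  obtain ⟨l, hl, rfl⟩ := h
  refine ⟨l.comp ⟨unitInterval.symm, unitInterval.continuous_symm⟩, fun t => hl _, ?_⟩
  simp

theorem loop {γ : Path x x} {r : ℝ} (h : HasAngle g γ r) : ∃ k : ℤ, r = k * (2 * Real.pi) := by
  obtain ⟨l, hl, rfl⟩ := h
  have h0 : Circle.exp (l 1) = Circle.exp (l 0) := by
    rw [← hl, ← hl, γ.target, γ.source]
  obtain ⟨k, hk⟩ := Circle.exp_eq_exp.1 h0
  exact ⟨k, by linarith⟩

theorem homotopic (hg : Continuous g) {γ δ : Path x y} (hγδ : γ.Homotopic δ) {r : ℝ}
    (h : HasAngle g γ r) : HasAngle g δ r := by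
  obtain ⟨l, hl, rfl⟩ := h
  obtain ⟨l', hl', hl0⟩ := lift_of_continuous ⟨fun t => g (δ t), hg.comp δ.continuous⟩ (l 0)
    (by simp only [ContinuousMap.coe_mk]; rw [← hl, γ.source, δ.source])
  refine ⟨l', hl', ?_⟩
  rw [hl0]
  congr 1
  have h1 : (⟨fun t => g (γ t), hg.comp γ.continuous⟩ : C(unitInterval, Circle)).HomotopicRel
      ⟨fun t => g (δ t), hg.comp δ.continuous⟩ {0, 1} :=
    (ContinuousMap.HomotopicRel.comp_continuousMap hγδ ⟨g, hg⟩)
  have e1 : (⟨fun t => g (γ t), hg.comp γ.continuous⟩ : C(unitInterval, Circle)) 0 =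
      Circle.exp (l 0) := hl 0
  have e2 : (⟨fun t => g (δ t), hg.comp δ.continuous⟩ : C(unitInterval, Circle)) 0 =
      Circle.exp (l 0) := by rw [← hl0]; exact hl' 0
  have h2 := Circle.isCoveringMap_exp.liftPath_apply_one_eq_of_homotopicRel h1 (l 0) e1 e2
  have h3 := (Circle.isCoveringMap_exp.eq_liftPath_iff' (Γ := l) e1).2
    ⟨funext fun t => (hl t).symm, rfl⟩
  have h4 := (Circle.isCoveringMap_exp.eq_liftPath_iff' (Γ := l') e2).2
    ⟨funext fun t => (hl' t).symm, hl0⟩
  rw [← h3, ← h4] at h2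
  exact h2.symm

theorem mul {γ : Path x y} {r s : ℝ} (h : HasAngle g γ r) (h' : HasAngle g' γ s) :
    HasAngle (fun x => g x * g' x) γ (r + s) := by
  obtain ⟨l, hl, rfl⟩ := h
  obtain ⟨l', hl', rfl⟩ := h'
  refine ⟨l + l', fun t => ?_, by simp; ring⟩
  simp only [ContinuousMap.add_apply]
  rw [Circle.exp_add, hl, hl']

theorem zpow {γ : Path x y} {r : ℝ} (h : HasAngle g γ r) (m : ℤ) :
    HasAngle (fun x => g x ^ m) γ (m * r) := by
  obtain ⟨l, hl, rfl⟩ := h
  refine ⟨⟨fun t => m * l t, by fun_prop⟩, fun t => ?_, by simp; ring⟩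
  simp only [ContinuousMap.coe_mk]
  rw [Circle.exp_intCast_mul, hl]

theorem of_exp {l : X → ℝ} (γ : Path x y) (hl : Continuous fun t => l (γ t))
    (hg : ∀ t, g (γ t) = Circle.exp (l (γ t))) : HasAngle g γ (l y - l x) :=
  ⟨⟨fun t => l (γ t), hl⟩, hg, by simp⟩

theorem congr {γ : Path x y} {r : ℝ} (h : HasAngle g γ r) (hg : ∀ t, g' (γ t) = g (γ t)) :
    HasAngle g' γ r := by
  obtain ⟨l, hl, hr⟩ := h
  exact ⟨l, fun t => (hg t).trans (hl t), hr⟩

theorem map_iff {g : Y → Circle} {f : X → Y} (hf : Continuous f) (γ : Path x y) (r : ℝ) :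
    HasAngle g (γ.map hf) r ↔ HasAngle (fun x => g (f x)) γ r := Iff.rfl

end HasAngle

/-- The angle of a loop is a homomorphism. -/
theorem exists_angleHom {g : X → Circle} (hg : Continuous g) (x : X) :
    ∃ a : FundamentalGroup X x →* Multiplicative ℝ,
      ∀ γ : Path x x, HasAngle g γ (Multiplicative.toAdd (a (lc γ))) := by
  classical
  choose ang hang using fun γ : Path x x => HasAngle.exists_of_continuous hg γ
  have h1 : ∀ γ δ : Path x x, γ.Homotopic δ → ang γ = ang δ := fun γ δ h =>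
    (HasAngle.homotopic hg h (hang γ)).unique (hang δ)
  choose rep hrep using fun c : FundamentalGroup X x => lc_surj c
  have h2 : ∀ γ : Path x x, ang (rep (lc γ)) = ang γ := fun γ => h1 _ _ ((lc_eq_iff _ _).1 (hrep _))
  refine ⟨MonoidHom.mk' (fun c => Multiplicative.ofAdd (ang (rep c))) fun c d => ?_, fun γ => ?_⟩
  · have h3 : c * d = lc ((rep d).trans (rep c)) := by rw [lc_trans, hrep, hrep]
    have h4 : ang (rep (c * d)) = ang (rep c) + ang (rep d) := by
      rw [h3, h2, add_comm]
      exact (hang _).unique ((hang _).trans (hang _))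
    rw [h4]; rfl
  · change HasAngle g γ (ang (rep (lc γ)))
    rw [h2]; exact hang γ

end Pool.Agent.Helper82.DK2
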