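import Pool.Agent.Helper77.DS.Base
import Pool.Agent.Helper82.DK2.Ang

/-!
# DK-P11: the loop in `M` on which `tau` has degree one (about 80-120 lines)

In the chart take `p = (0, 0, p2)` and the rectangle `p2 ∈ [-1, 1]`, `t ∈ [3, 4]`: on its boundary
`F p t = 0` (with `p0 = p1 = 0`: `G = max (|p2| - 1) (max (t - 4) (3 - t))` for `t ∈ [3, 4]`, where
`3 - t = 1 - |t - 2|`). The loop consists of four segments, starting at `p2 = -1`, `t = 3`:
`p2` from `-1` to `1` at `t = 3`: `tauN = exp (π (1 + p2))` (`x 0 3 / x 0 0 = p2`, `x 0 1 = x 0 2 = 0`,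
`0 < x 0 0`, `1 ≤ 3 ≤ 3`), the angle changes by `2π`; then `t` from `3` to `4` at `p2 = 1`, then `p2` from
`1` to `-1` at `t = 4`, then `t` from `4` to `3` at `p2 = -1`: there `tauN = 1` (for `t > 3` by
definition, for `t = 3`, `p2 = ±1` because `exp (π (1 ± 1)) = 1`), the angle does not change.
The second coordinate in the circle is constant equal to `1`, so `tau = tauN`. Use
`HasAngle.trans`, `HasAngle.of_exp`, `HasAngle.congr`, or define the loop with one parameter and
give the lift explicitly.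
-/

namespace Pool.Agent.Helper82.DK2

open Set Topology Pool.Agent.Helper77.DS

private theorem nl_F {a t : ℝ} (ha : |a| ≤ 1) (h3 : 3 ≤ t) (h4 : t ≤ 4)
    (h : |a| = 1 ∨ t = 3 ∨ t = 4) : F ![0, 0, a] t = 0 := by
  unfold F
  have e0 : (![0, 0, a] : Fin 3 → ℝ) 0 = 0 := rfl
  have e1 : (![0, 0, a] : Fin 3 → ℝ) 1 = 0 := rfl
  have e2 : (![0, 0, a] : Fin 3 → ℝ) 2 = a := rfl
  rw [e0, e1, e2, abs_zero]
  have e3 : |t - 2| = t - 2 := abs_of_nonneg (by linarith)
  rw [e3]
  have e4 : min (1 - 0 : ℝ) (min (1 - 0) (1 - (t - 2))) = 3 - t := by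
    rw [min_eq_right (by linarith : 1 - (t - 2) ≤ (1 - 0 : ℝ)),
      min_eq_right (by linarith : 1 - (t - 2) ≤ (1 - 0 : ℝ))]
    ring
  rw [e4]
  have e5 : max (t - 4) (3 - t) ≤ 0 := max_le (by linarith) (by linarith)
  have e6 : max (|a| - 1) (max (t - 4) (3 - t)) = 0 := by
    apply le_antisymm
    · exact max_le (by linarith) e5
    · rcases h with h | h | h
      · exact le_max_of_le_left (by linarith)
      · exact le_max_of_le_right (le_max_of_le_right (by linarith))
      · exact le_max_of_le_right (le_max_of_le_left (by linarith))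
  rw [e6, max_eq_right (by norm_num : (0 - 2 : ℝ) ≤ 0), max_eq_right (by norm_num : (0 - 2 : ℝ) ≤ 0)]
  exact min_eq_right (by linarith)

private theorem nl_tau (a t : ℝ) (ht : 1 ≤ t) :
    tauN (chart ![0, 0, a], t) = if t ≤ 3 then Circle.exp (Real.pi * (1 + a)) else 1 := by
  unfold tauN
  have c0 : chart ![0, 0, a] 0 0 = 1 / (1 + a ^ 2) := by
    simp [chart]
  have c1 : chart ![0, 0, a] 0 1 = 0 := by
    simp [chart]
  have c2 : chart ![0, 0, a] 0 2 = 0 := by
    simp [chart]
  have c3 : chart ![0, 0, a] 0 3 = a / (1 + a ^ 2) := by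
    simp [chart]
  have hp : 0 < 1 / (1 + a ^ 2) := by positivity
  simp only [c0, c1, c2, c3, abs_zero]
  have hq : a / (1 + a ^ 2) / (1 / (1 + a ^ 2)) = a := by
    have : (1 + a ^ 2) ≠ 0 := by positivity
    field_simp
  rw [hq]
  by_cases h : t ≤ 3
  · rw [if_pos ⟨hp, hp.le, hp.le, ht, h⟩, if_pos h]
  · rw [if_neg (fun h' => h h'.2.2.2.2), if_neg h]

/-- the coordinate `p2` of the loop -/
private noncomputable def nlP (u : ℝ) : ℝ := max (-1) (min 1 (min (-1 + 2 * u) (5 - 2 * u)))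

/-- the coordinate `t` of the loop -/
private noncomputable def nlT (u : ℝ) : ℝ := max 3 (min 4 (min (2 + u) (7 - u)))

private theorem nlP_cont : Continuous nlP := by
  unfold nlP
  fun_prop

private theorem nlT_cont : Continuous nlT := by
  unfold nlT
  fun_prop

private theorem nlP_abs (u : ℝ) : |nlP u| ≤ 1 := by
  rw [abs_le]
  unfold nlP
  exact ⟨le_max_left _ _, max_le (by norm_num) (min_le_left _ _)⟩

private theorem nlT_ge (u : ℝ) : 3 ≤ nlT u := le_max_left _ _

private theorem nlT_le (u : ℝ) : nlT u ≤ 4 := max_le (by norm_num) (min_le_left _ _)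

private theorem nl_A {u : ℝ} (h0 : 0 ≤ u) (h1 : u ≤ 1) : nlP u = -1 + 2 * u ∧ nlT u = 3 := by
  unfold nlP nlT
  constructor
  · rw [min_eq_left (by linarith : -1 + 2 * u ≤ 5 - 2 * u), min_eq_right (by linarith),
      max_eq_right (by linarith)]
  · rw [min_eq_left (by linarith : 2 + u ≤ 7 - u), min_eq_right (by linarith),
      max_eq_left (by linarith)]

private theorem nl_B {u : ℝ} (h0 : 1 ≤ u) (h1 : u ≤ 2) : nlP u = 1 ∧ nlT u = 2 + u := by
  unfold nlP nlT
  constructor
  · rw [min_eq_left (le_min (by linarith) (by linarith)), max_eq_right (by norm_num)]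
  · rw [min_eq_left (by linarith : 2 + u ≤ 7 - u), min_eq_right (by linarith),
      max_eq_right (by linarith)]

private theorem nl_C {u : ℝ} (h0 : 2 ≤ u) (h1 : u ≤ 3) : nlT u = 4 := by
  unfold nlT
  rw [min_eq_left (le_min (by linarith) (by linarith)), max_eq_right (by norm_num)]

private theorem nl_D {u : ℝ} (h0 : 3 ≤ u) (h1 : u ≤ 4) : nlP u = -1 ∧ nlT u = 7 - u := by
  unfold nlP nlT
  constructor
  · rw [min_eq_right (by linarith : 5 - 2 * u ≤ -1 + 2 * u), min_eq_right (by linarith),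
      max_eq_left (by linarith)]
  · rw [min_eq_right (by linarith : 7 - u ≤ 2 + u), min_eq_right (by linarith),
      max_eq_right (by linarith)]

private theorem nl_zero {u : ℝ} (h0 : 0 ≤ u) (h4 : u ≤ 4) : F ![0, 0, nlP u] (nlT u) = 0 := by
  apply nl_F (nlP_abs u) (nlT_ge u) (nlT_le u)
  rcases le_total u 1 with h1 | h1
  · exact Or.inr (Or.inl (nl_A h0 h1).2)
  rcases le_total u 2 with h2 | h2
  · left
    rw [(nl_B h1 h2).1, abs_one]
  rcases le_total u 3 with h3 | h3
  · exact Or.inr (Or.inr (nl_C h2 h3))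
  · left
    rw [(nl_D h3 h4).1, abs_neg, abs_one]

private theorem nl_lift {u : ℝ} (h0 : 0 ≤ u) (h4 : u ≤ 4) :
    tauN (chart ![0, 0, nlP u], nlT u) = Circle.exp (Real.pi * min 2 (2 * u)) := by
  rw [nl_tau _ _ (by linarith [nlT_ge u])]
  have e1 : Circle.exp (Real.pi * 2) = 1 := by
    rw [mul_comm]
    exact Circle.exp_two_pi
  rcases le_total u 1 with h1 | h1
  · rw [(nl_A h0 h1).2, if_pos le_rfl, (nl_A h0 h1).1, min_eq_right (by linarith)]
    congr 1
    ring
  rw [min_eq_left (by linarith : (2 : ℝ) ≤ 2 * u), e1]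
  split_ifs with h
  · -- `t = 3`
    rcases le_total u 2 with h2 | h2
    · rw [(nl_B h1 h2).1]
      norm_num
      exact e1
    rcases le_total u 3 with h3 | h3
    · rw [nl_C h2 h3] at h
      norm_num at h
    · rw [(nl_D h3 h4).1]
      simp
  · rfl

private noncomputable def nlc (u : ℝ) : (M4 × ℝ) × Circle := ((chart ![0, 0, nlP u], nlT u), 1)

private theorem nlc_mem {u : ℝ} (h0 : 0 ≤ u) (h4 : u ≤ 4) : nlc u ∈ M :=
  Or.inl ⟨![0, 0, nlP u], rfl, nl_zero h0 h4⟩

private theorem nlc_cont : Continuous nlc := by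
  unfold nlc
  refine Continuous.prodMk (Continuous.prodMk ?_ nlT_cont) continuous_const
  have h1 : ∀ i : Fin 4, Continuous fun u : ℝ => (![1, 0, 0, nlP u] : Fin 4 → ℝ) i := by
    intro i
    fin_cases i
    · exact continuous_const
    · exact continuous_const
    · exact continuous_const
    · exact nlP_cont
  have h2 : (fun u : ℝ => chart ![0, 0, nlP u]) = fun u i j =>
      (![1, 0, 0, nlP u] : Fin 4 → ℝ) i * (![1, 0, 0, nlP u] : Fin 4 → ℝ) j /
        (1 + 0 ^ 2 + 0 ^ 2 + nlP u ^ 2) := rfl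
  rw [h2]
  refine continuous_pi fun i => continuous_pi fun j => ?_
  refine Continuous.div ((h1 i).mul (h1 j)) ?_ ?_
  · have := nlP_cont
    fun_prop
  · intro u
    positivity

theorem exists_alpha : ∃ (m₀ : ↥M) (α : Path m₀ m₀),
    HasAngle (fun m : ↥M => tau m.1) α (2 * Real.pi) := by
  have hu : ∀ s : unitInterval, 0 ≤ 4 * (s : ℝ) ∧ 4 * (s : ℝ) ≤ 4 := fun s =>
    ⟨by have := s.2.1; positivity, by have := s.2.2; linarith⟩
  have e0 : nlc (4 * ((0 : unitInterval) : ℝ)) = ((chart ![0, 0, -1], 3), 1) := by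
    rw [Set.Icc.coe_zero, mul_zero]
    unfold nlc
    rw [(nl_A le_rfl zero_le_one).1, (nl_A le_rfl zero_le_one).2]
    norm_num
  have e1 : nlc (4 * ((1 : unitInterval) : ℝ)) = ((chart ![0, 0, -1], 3), 1) := by
    rw [Set.Icc.coe_one, mul_one]
    unfold nlc
    rw [(nl_D (by norm_num) le_rfl).1, (nl_D (by norm_num) le_rfl).2]
    norm_num
  have hm : ((chart ![0, 0, -1], 3), 1) ∈ M := by
    rw [← e0]
    exact nlc_mem (hu 0).1 (hu 0).2
  let m₀ : ↥M := ⟨((chart ![0, 0, -1], 3), 1), hm⟩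
  let α : Path m₀ m₀ :=
    { toFun := fun s => ⟨nlc (4 * (s : ℝ)), nlc_mem (hu s).1 (hu s).2⟩
      continuous_toFun := by
        apply Continuous.subtype_mk
        exact nlc_cont.comp (by fun_prop)
      source' := Subtype.ext e0
      target' := Subtype.ext e1 }
  refine ⟨m₀, α, ⟨fun s => Real.pi * min 2 (2 * (4 * (s : ℝ))), by fun_prop⟩, ?_, ?_⟩
  · intro s
    show tau (nlc (4 * (s : ℝ))) = Circle.exp (Real.pi * min 2 (2 * (4 * (s : ℝ))))
    rw [← nl_lift (hu s).1 (hu s).2]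
    unfold tau nlc
    simp
  · show Real.pi * min 2 (2 * (4 * ((1 : unitInterval) : ℝ))) -
      Real.pi * min 2 (2 * (4 * ((0 : unitInterval) : ℝ))) = 2 * Real.pi
    rw [Set.Icc.coe_one, Set.Icc.coe_zero]
    norm_num
    ring

end Pool.Agent.Helper82.DK2
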