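import Pool.Agent.Helper82.DK2.Circ
import Pool.Agent.Helper82.DK2.Defs

/-!
# The infinite cyclic cover of a knot complement: independence of the map to the circle
-/

namespace Pool.Agent.Helper82.DK2

open Set Topology

instance (k : ℕ) : Fact (Module.finrank ℝ (EuclideanSpace ℝ (Fin (k + 1))) = k + 1) := ⟨by simp⟩

instance sph_locPath (k : ℕ) : LocallyPathConnectedSpace (Sph k) :=
  ChartedSpace.locallyPathConnectedSpace (EuclideanSpace ℝ (Fin k)) (Sph k)

variable {n : ℕ} {f : Sph n → Sph (n + 2)} {g : Sph (n + 2) → Circle}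

theorem IsKnot.isCompact_range (hf : IsKnot n f) : IsCompact (range f) := _root_.isCompact_range hf.cont

theorem IsKnot.isOpen_compl (hf : IsKnot n f) : IsOpen (range f)ᶜ :=
  hf.isCompact_range.isClosed.isOpen_compl

theorem IsKnot.compl_locPath (hf : IsKnot n f) : LocallyPathConnectedSpace (Compl f) :=
  hf.isOpen_compl.locallyPathConnectedSpace

/-- The restriction of `g` to the complement. -/
def res (f : Sph n → Sph (n + 2)) (g : Sph (n + 2) → Circle) : Compl f → Circle := fun x => g x.1

theorem continuous_res (hg : ContinuousOn g (range f)ᶜ) : Continuous (res f g) :=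
  continuousOn_iff_continuous_domRestrict.1 hg

/-- The infinite cyclic cover as a subset and as a pull-back. -/
def cycHomeo (f : Sph n → Sph (n + 2)) (g : Sph (n + 2) → Circle) : cyc f g ≃ₜ PB (res f g) where
  toFun e := ⟨(⟨e.1.1, e.2.1⟩, e.1.2), e.2.2⟩
  invFun e := ⟨(e.1.1.1, e.1.2), e.1.1.2, e.2⟩
  left_inv _ := rfl
  right_inv _ := rfl
  continuous_toFun := by fun_prop
  continuous_invFun := by fun_prop

theorem pb_simplyConnected (h : IsSimplyConnected (cyc f g)) :
    SimplyConnectedSpace (PB (res f g)) :=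
  (cycHomeo f g).symm.toHomotopyEquiv.simplyConnectedSpace (hY := h)

theorem res_gen (hf : IsKnot n f) (hg : ContinuousOn g (range f)ᶜ)
    (h : IsSimplyConnected (cyc f g)) : Gen (res f g) :=
  have := hf.compl_locPath
  have := pb_simplyConnected h
  gen_of_simplyConnected (continuous_res hg)

/-- If the infinite cyclic cover is simply connected then the knot group is infinite cyclic. -/
theorem groupIsZ_of_simplyConnected (hg : ContinuousOn g (range f)ᶜ)
    (h : IsSimplyConnected (cyc f g)) : GroupIsZ f := by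
  have := pb_simplyConnected h
  refine ⟨?_, fun x => pi1_of_simplyConnected (continuous_res hg) x⟩
  exact (PB.surjective_proj (res f g)).pathConnectedSpace (PB.continuous_proj _)

theorem isCycMap_of_simplyConnected (hg : ContinuousOn g (range f)ᶜ)
    (h : IsSimplyConnected (cyc f g)) : IsCycMap f g := ⟨hg, h.isPathConnected⟩

section transport
open Helper36.AS

variable {R : Type*} [CommRing R]

/-- Homeomorphic sets have isomorphic cohomology with compact supports: we need only the
vanishing. -/
theorem subsingleton_Hc_of_inverse {X Y : Type*} [TopologicalSpace X] [TopologicalSpace Y]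
    {A : Set X} {B : Set Y} {φ : X → Y} {ψ : Y → X} (hφ : ContinuousOn φ A) (hφm : MapsTo φ A B)
    (hψ : ContinuousOn ψ B) (hψm : MapsTo ψ B A) (h : ∀ x ∈ A, ψ (φ x) = x)
    (h' : ∀ y ∈ B, φ (ψ y) = y) (n : ℕ) [Subsingleton (Hc R A n)] : Subsingleton (Hc R B n) := by
  have hφs : SMap (IsCompact (X := X)) (IsCompact (X := Y)) A B φ := by
    refine ⟨hφ, hφm, fun K hKB hK => ?_⟩
    have : A ∩ φ ⁻¹' K = ψ '' K := by
      ext x
      constructor
      · rintro ⟨hx, hx'⟩; exact ⟨φ x, hx', h x hx⟩
      · rintro ⟨y, hy, rfl⟩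
        exact ⟨hψm (hKB hy), by rw [mem_preimage, h' y (hKB hy)]; exact hy⟩
    rw [this]; exact hK.image_of_continuousOn (hψ.mono hKB)
  have hψs : SMap (IsCompact (X := Y)) (IsCompact (X := X)) B A ψ := by
    refine ⟨hψ, hψm, fun K hKA hK => ?_⟩
    have : B ∩ ψ ⁻¹' K = φ '' K := by
      ext y
      constructor
      · rintro ⟨hy, hy'⟩; exact ⟨ψ y, hy', h' y hy⟩
      · rintro ⟨x, hx, rfl⟩
        exact ⟨hφm (hKA hx), by rw [mem_preimage, h x (hKA hx)]; exact hx⟩
    rw [this]; exact hK.image_of_continuousOn (hφ.mono hKA)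
  refine ⟨fun a b => ?_⟩
  have key : ∀ c : Hc R B n, hψs.map R n (hφs.map R n c) = c := fun c => by
    rw [← SMap.map_comp hφs hψs]
    rw [SMap.map_congr (hφs.comp hψs) (SMap.refl _ B) (fun y hy => h' y hy) n c, SMap.map_refl]
  rw [← key a, ← key b, Subsingleton.elim (hφs.map R n a) (hφs.map R n b)]

end transport

/-- If one infinite cyclic cover is simply connected and has vanishing middle dimensional
cohomology, then this is so for all of them. -/
theorem middleTrivial_of_simplyConnected (hf : IsKnot n f) (hg : ContinuousOn g (range f)ᶜ)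
    (h : IsSimplyConnected (cyc f g))
    (h0 : Subsingleton (Helper36.AS.Hc ℚ (cyc f g) ((n + 3) / 2))) : MiddleTrivial f := by
  refine ⟨⟨g, isCycMap_of_simplyConnected hg h⟩, fun g' hg' => ?_⟩
  have hgen := res_gen hf hg h
  obtain ⟨m, l, hl, hm⟩ := hgen.gen (res f g') (continuous_res hg'.cont)
  have : PathConnectedSpace (cyc f g') := isPathConnected_iff_pathConnectedSpace.1 hg'.path
  have : PathConnectedSpace (PB (res f g')) :=
    (cycHomeo f g').surjective.pathConnectedSpace (cycHomeo f g').continuous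
  have hne : Nonempty (Compl f) := ⟨(Classical.arbitrary (PB (res f g'))).1.1⟩
  have hm1 := exponent_of_connected (continuous_res hg) m l hl hm
  classical
  set L : Sph (n + 2) → ℝ := fun x => if hx : x ∉ range f then l ⟨x, hx⟩ else 0 with hL
  have hLc : ContinuousOn L (range f)ᶜ := by
    rw [continuousOn_iff_continuous_domRestrict]
    refine hl.congr fun x => ?_
    have hx : (x : Sph (n + 2)) ∉ range f := x.2
    simp only [hL, domRestrict_apply]
    rw [dif_pos hx]
  have hLg : ∀ x, x ∉ range f → g' x = g x ^ m * Circle.exp (L x) := fun x hx => by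
    have := hm ⟨x, hx⟩
    simp only [res] at this
    rw [this, hL]; simp only [dif_pos hx]
  -- `m * m = 1`
  have hmm : (m : ℝ) * m = 1 := by rcases hm1 with h | h <;> rw [h] <;> norm_num
  have hmz : ∀ z : Circle, (z ^ m) ^ m = z := fun z => by
    rw [← zpow_mul]; rcases hm1 with h | h <;> rw [h] <;> simp
  have hc1 : ∀ g'' : Sph (n + 2) → Circle, MapsTo Prod.fst (cyc f g'') (range f)ᶜ :=
    fun _ e he => he.1
  refine subsingleton_Hc_of_inverse (A := cyc f g) (B := cyc f g')
    (φ := fun e => (e.1, m * e.2 + L e.1)) (ψ := fun e => (e.1, m * (e.2 - L e.1)))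
    ?_ ?_ ?_ ?_ ?_ ?_ _
  · exact continuousOn_fst.prodMk ((continuousOn_const.mul continuousOn_snd).add
      (hLc.comp continuousOn_fst (hc1 g)))
  · rintro ⟨x, t⟩ ⟨hx, hxt⟩
    refine ⟨hx, ?_⟩
    simp only at hx hxt ⊢
    rw [hLg x hx, Circle.exp_add, Circle.exp_intCast_mul, hxt]
  · exact continuousOn_fst.prodMk (continuousOn_const.mul (continuousOn_snd.sub
      (hLc.comp continuousOn_fst (hc1 g'))))
  · rintro ⟨x, t⟩ ⟨hx, hxt⟩
    refine ⟨hx, ?_⟩
    simp only at hx hxt ⊢
    rw [Circle.exp_intCast_mul, Circle.exp_sub, ← hxt, hLg x hx, mul_div_cancel_right, hmz]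
  · rintro ⟨x, t⟩ _
    simp only [Prod.mk.injEq, true_and]
    rw [add_sub_cancel_right, ← mul_assoc, hmm, one_mul]
  · rintro ⟨x, t⟩ _
    simp only [Prod.mk.injEq, true_and]
    rw [← mul_assoc, hmm, one_mul, sub_add_cancel]

end Pool.Agent.Helper82.DK2
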