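import Pool.Agent.Helper82.DK2.ZtCov
import Pool.Agent.Helper31.DS.G5
import Pool.Agent.Helper31.DS.G6

/-!
# DK-P8: the homeomorphism of the complement of the long trefoil, refined (about 100-150 lines)

`exists_Psi`. This is `exists_Zhomeo` of `Helper31/DS/G5.lean` with more information. Copy the proof
there: the homeomorphism is the composition of
`p ↦ (μ z1 (3p), μ z2 (3p)) ∈ Wt`, `μ = 1 / |12 h p| > 0` (proof of `exists_H1`), and
`(a, b) ↦ (R2 a, - R3 b)` with `R2 z ^ 2 = G2 z`, `R3 z ^ 3 = G3 z` (`exists_R2`, `exists_R3`). So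
`x² = G2 (μ z1) = μ G2 (z1)`, `y³ = - G3 (μ z2) = - μ G3 (z2)` (`G2_smul`, `G3_smul`), `c = μ`.

`mem_A1`, `mem_A2`. `p = (0, 2 e^{iφ})`, `h p = 2 e^{iφ}` (`h_eq`). With `3 p = (0, 6 e^{iφ})`:
`z1 = 35 + 12 e^{iφ}`, `z2 = -35 + 12 e^{iφ}`, real parts `> 0`, `< 0`, so `G2 z1 = z1`, `G3 z2 = z2`
and `x² = c (35 + 12 e^{iφ})`, `y³ = c (35 - 12 e^{iφ})`, `x² - y³ = 24 c e^{iφ}`. So
`(x² - y³)/x² = 24 e^{iφ} / (35 + 12 e^{iφ})` is a positive multiple of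
`e^{iφ} (35 + 12 e^{-iφ}) = 35 e^{iφ} + 12`, with real part `35 cos φ + 12 > 0` if `cos φ ≥ 0`, and
`(y³ - x²)/y³ = - 24 e^{iφ} / (35 - 12 e^{iφ})` is a positive multiple of
`- e^{iφ} (35 - 12 e^{-iφ}) = 12 - 35 e^{iφ}`, with real part `> 0` if `cos φ ≤ 0`.
-/

namespace Pool.Agent.Helper82.DK2

open Set Topology Complex Pool.Agent.Helper31.DS

open G5

private theorem exists_H2' : ∃ H : ↥Wt ≃ₜ ↥Zt,
    ∀ q, (H q : ℂ × ℂ).1 ^ 2 = G2 (q : ℂ × ℂ).1 ∧ (H q : ℂ × ℂ).2 ^ 3 = -G3 (q : ℂ × ℂ).2 := by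
  obtain ⟨R2, hR2⟩ := exists_R2
  obtain ⟨R3, hR3⟩ := exists_R3
  set H : ℂ × ℂ ≃ₜ ℂ × ℂ := R2.prodCongr (R3.trans (Homeomorph.neg ℂ)) with hH
  have hval : ∀ q : ℂ × ℂ, (H q).1 ^ 2 = G2 q.1 ∧ (H q).2 ^ 3 = -G3 q.2 := by
    intro q
    have h1 : (H q).1 = R2 q.1 := rfl
    have h2 : (H q).2 = - R3 q.2 := rfl
    rw [h1, h2, hR2, ← hR3]
    exact ⟨rfl, by ring⟩
  have hset : ∀ q : ℂ × ℂ, q ∈ Wt ↔ H q ∈ Zt := by
    intro q
    unfold Wt Zt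
    rw [Set.mem_ofPred_eq, Set.mem_ofPred_eq, (hval q).1, (hval q).2, sub_neg_eq_add]
  exact ⟨H.subtype hset, fun q => hval q⟩

private theorem exists_H1' : ∃ H : {p : ℝ × ℂ // h p ≠ 0} ≃ₜ ↥Wt,
    (∀ p, G2 (H p : ℂ × ℂ).1 + G3 (H p : ℂ × ℂ).2 = h p.1 / (‖h p.1‖ : ℂ)) ∧
    ∀ p, ∃ c : ℝ, 0 < c ∧ (H p : ℂ × ℂ).1 = c * z1 (sc p.1) ∧
      (H p : ℂ × ℂ).2 = c * z2 (sc p.1) := by
  -- the constant
  set μ : ℝ × ℂ → ℝ := fun p => ‖12 * h p‖⁻¹ with hμ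
  have hμpos : ∀ p, h p ≠ 0 → 0 < μ p := by
    intro p hp
    rw [hμ]
    simp only
    rw [inv_pos, norm_pos_iff]
    exact mul_ne_zero (by norm_num) hp
  have hf : ∀ p, h p ≠ 0 → G2 (μ p * z1 (sc p)) + G3 (μ p * z2 (sc p)) =
      h p / (‖h p‖ : ℂ) := by
    intro p hp
    have h1 := (hμpos p hp).le
    rw [G2_smul _ h1, G3_smul _ h1, ← mul_add, h_sc, hμ]
    simp only
    have h2 : (‖h p‖ : ℂ) ≠ 0 := by exact_mod_cast norm_ne_zero_iff.2 hp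
    rw [norm_mul]
    push_cast
    have h3 : ‖(12 : ℂ)‖ = 12 := by simp
    rw [h3]
    push_cast
    field_simp
  have hfn : ∀ p, h p ≠ 0 → ((μ p * z1 (sc p), μ p * z2 (sc p)) : ℂ × ℂ) ∈ Wt := by
    intro p hp
    show ‖G2 (μ p * z1 (sc p)) + G3 (μ p * z2 (sc p))‖ = 1
    rw [hf p hp, norm_div, Complex.norm_real, norm_norm]
    exact div_self (norm_ne_zero_iff.2 hp)
  set ig : ℂ × ℂ → ℝ × ℂ := fun q => ((sg q).1 / 3, (sg q).2 / 3) with hig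
  have hsc : ∀ q, sc (ig q) = sg q := by
    intro q
    rw [hig]
    unfold sc
    ext1
    · show 3 * ((sg q).1 / 3) = (sg q).1
      ring
    · show 3 * ((sg q).2 / 3) = (sg q).2
      ring
  have hzs : ∀ q ∈ Wt, ∃ c : ℝ, 0 < c ∧ z1 (sc (ig q)) = c * q.1 ∧ z2 (sc (ig q)) = c * q.2 ∧
      12 * h (ig q) = c * (G2 q.1 + G3 q.2) := by
    intro q hq
    obtain ⟨c, hc, h1, h2⟩ := z_sg q (Wt_dom hq)
    refine ⟨c, hc, by rw [hsc, h1], by rw [hsc, h2], ?_⟩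
    rw [← h_sc, hsc, h1, h2, G2_smul _ hc.le, G3_smul _ hc.le]
    ring
  have hne : ∀ q ∈ Wt, h (ig q) ≠ 0 := by
    intro q hq h0
    obtain ⟨c, hc, -, -, h3⟩ := hzs q hq
    rw [h0, mul_zero] at h3
    have h4 : G2 q.1 + G3 q.2 ≠ 0 := by
      intro h5
      have h6 : ‖G2 q.1 + G3 q.2‖ = 1 := hq
      rw [h5, norm_zero] at h6
      exact zero_ne_one h6
    have h5 : (c : ℂ) ≠ 0 := by exact_mod_cast hc.ne'
    exact mul_ne_zero h5 h4 h3.symm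
  have hch : Continuous h := by
    unfold h
    have c1 : Continuous fun p : ℝ × ℂ => z1 (3 * p.1, 3 * p.2) :=
      continuous_z1.comp (by fun_prop)
    have c2 : Continuous fun p : ℝ × ℂ => z2 (3 * p.1, 3 * p.2) :=
      continuous_z2.comp (by fun_prop)
    exact ((continuous_G2.comp c1).add (continuous_G3.comp c2)).div_const 12
  have hcsc : Continuous sc := by
    unfold sc
    fun_prop
  refine ⟨{ toFun := fun p => ⟨(μ p.1 * z1 (sc p.1), μ p.1 * z2 (sc p.1)), hfn p.1 p.2⟩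
            invFun := fun q => ⟨ig q.1, hne q.1 q.2⟩
            left_inv := ?_
            right_inv := ?_
            continuous_toFun := ?_
            continuous_invFun := ?_ }, fun p => hf p.1 p.2,
            fun p => ⟨μ p.1, hμpos p.1 p.2, rfl, rfl⟩⟩
  · intro p
    apply Subtype.ext
    show ig (μ p.1 * z1 (sc p.1), μ p.1 * z2 (sc p.1)) = p.1
    have h1 := (sg_z (μ p.1) (hμpos p.1 p.2) (sc p.1)).2
    rw [hig]
    simp only
    rw [h1]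
    unfold sc
    ext1
    · show 3 * p.1.1 / 3 = p.1.1
      ring
    · show 3 * p.1.2 / 3 = p.1.2
      ring
  · intro q
    apply Subtype.ext
    show (μ (ig q.1) * z1 (sc (ig q.1)), μ (ig q.1) * z2 (sc (ig q.1))) = q.1
    obtain ⟨c, hc, h1, h2, h3⟩ := hzs q.1 q.2
    have h4 : μ (ig q.1) = c⁻¹ := by
      rw [hμ]
      simp only
      have h5 : ‖G2 q.1.1 + G3 q.1.2‖ = 1 := q.2
      rw [h3, norm_mul, h5, mul_one, Complex.norm_real, Real.norm_of_nonneg hc.le]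
    have h5 : (c : ℂ) ≠ 0 := by exact_mod_cast hc.ne'
    rw [h1, h2, h4]
    push_cast
    ext1
    · show (c : ℂ)⁻¹ * (c * q.1.1) = q.1.1
      rw [← mul_assoc, inv_mul_cancel₀ h5, one_mul]
    · show (c : ℂ)⁻¹ * (c * q.1.2) = q.1.2
      rw [← mul_assoc, inv_mul_cancel₀ h5, one_mul]
  · refine Continuous.subtype_mk ?_ _
    have c0 : Continuous fun p : {p : ℝ × ℂ // h p ≠ 0} => μ p.1 := by
      rw [hμ]
      refine Continuous.inv₀ ?_ ?_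
      · exact (continuous_const.mul (hch.comp continuous_subtype_val)).norm
      · intro p
        rw [norm_ne_zero_iff]
        exact mul_ne_zero (by norm_num) p.2
    have c1 : Continuous fun p : {p : ℝ × ℂ // h p ≠ 0} => ((μ p.1 : ℝ) : ℂ) :=
      Complex.continuous_ofReal.comp c0
    exact (c1.mul (continuous_z1.comp (hcsc.comp continuous_subtype_val))).prodMk
      (c1.mul (continuous_z2.comp (hcsc.comp continuous_subtype_val)))
  · refine Continuous.subtype_mk ?_ _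
    have c0 : Continuous fun q : ↥Wt => sg q.1 :=
      continuousOn_sg.comp_continuous continuous_subtype_val (fun q => Wt_dom q.2)
    exact (c0.fst.div_const 3).prodMk (c0.snd.div_const 3)

theorem exists_Psi : ∃ Ψ : {p : ℝ × ℂ // h p ≠ 0} ≃ₜ ↥Zt,
    (∀ p, ((Ψ p : ℂ × ℂ).1 ^ 2 - (Ψ p : ℂ × ℂ).2 ^ 3) = h p.1 / (‖h p.1‖ : ℂ)) ∧
    ∀ p, ∃ c : ℝ, 0 < c ∧ (Ψ p : ℂ × ℂ).1 ^ 2 = c * G2 (z1 (3 * p.1.1, 3 * p.1.2)) ∧
      (Ψ p : ℂ × ℂ).2 ^ 3 = -(c * G3 (z2 (3 * p.1.1, 3 * p.1.2))) := by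
  obtain ⟨H1, hH1, hH1'⟩ := exists_H1'
  obtain ⟨H2, hH2⟩ := exists_H2'
  refine ⟨H1.trans H2, fun p => ?_, fun p => ?_⟩
  · have h1 := hH2 (H1 p)
    rw [← hH1 p]
    show (H2 (H1 p) : ℂ × ℂ).1 ^ 2 - (H2 (H1 p) : ℂ × ℂ).2 ^ 3 = _
    rw [h1.1, h1.2, sub_neg_eq_add]
  · obtain ⟨c, hc, h1, h2⟩ := hH1' p
    have h3 := hH2 (H1 p)
    refine ⟨c, hc, ?_, ?_⟩
    · show (H2 (H1 p) : ℂ × ℂ).1 ^ 2 = _
      rw [h3.1, h1, G2_smul c hc.le]
      rfl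
    · show (H2 (H1 p) : ℂ × ℂ).2 ^ 3 = _
      rw [h3.2, h2, G3_smul c hc.le]
      rfl

theorem h_circle (φ : ℝ) : h (0, 2 * exp (φ * I)) = 2 * exp (φ * I) := by
  refine h_eq (0, 2 * exp (φ * I)) ?_
  show 1 ≤ (0 : ℝ) ^ 2 + ‖2 * exp (φ * I)‖ ^ 2
  rw [norm_mul, Complex.norm_exp_ofReal_mul_I, Complex.norm_ofNat]
  norm_num

/-- The point on the meridian. -/
noncomputable def pm (φ : ℝ) : {p : ℝ × ℂ // h p ≠ 0} :=
  ⟨(0, 2 * exp (φ * I)), by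
    rw [h_circle]; exact mul_ne_zero two_ne_zero (Complex.exp_ne_zero _)⟩

private theorem z1_pm (φ : ℝ) : z1 (3 * (pm φ).1.1, 3 * (pm φ).1.2) = 35 + 12 * exp (φ * I) := by
  have h1 : (pm φ).1.1 = 0 := rfl
  have h2 : (pm φ).1.2 = 2 * exp (φ * I) := rfl
  have h3 : ‖(3 : ℂ) * (2 * exp (φ * I))‖ = 6 := by
    rw [norm_mul, norm_mul, Complex.norm_exp_ofReal_mul_I, Complex.norm_ofNat,
      Complex.norm_ofNat]
    norm_num
  unfold z1
  simp only [h1, h2, h3]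
  push_cast
  ring

private theorem z2_pm (φ : ℝ) : z2 (3 * (pm φ).1.1, 3 * (pm φ).1.2) = -35 + 12 * exp (φ * I) := by
  have h1 : (pm φ).1.1 = 0 := rfl
  have h2 : (pm φ).1.2 = 2 * exp (φ * I) := rfl
  have h3 : ‖(3 : ℂ) * (2 * exp (φ * I))‖ = 6 := by
    rw [norm_mul, norm_mul, Complex.norm_exp_ofReal_mul_I, Complex.norm_ofNat,
      Complex.norm_ofNat]
    norm_num
  unfold z2
  simp only [h1, h2, h3]
  push_cast
  ring

private theorem re_mul_nat (k : ℕ) [k.AtLeastTwo] (z : ℂ) :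
    ((OfNat.ofNat k : ℂ) * z).re = (OfNat.ofNat k : ℝ) * z.re := by
  rw [Complex.mul_re, Complex.re_ofNat, Complex.im_ofNat, zero_mul, sub_zero]

private theorem im_mul_nat (k : ℕ) [k.AtLeastTwo] (z : ℂ) :
    ((OfNat.ofNat k : ℂ) * z).im = (OfNat.ofNat k : ℝ) * z.im := by
  rw [Complex.mul_im, Complex.re_ofNat, Complex.im_ofNat, zero_mul, add_zero]

private theorem re_z1 (φ : ℝ) : (35 + 12 * exp (φ * I)).re = 35 + 12 * Real.cos φ := by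
  have h : (12 * exp (φ * I)).re = 12 * Real.cos φ := by
    rw [re_mul_nat, Complex.exp_ofReal_mul_I_re]
  rw [Complex.add_re, h, Complex.re_ofNat]

private theorem im_z1 (φ : ℝ) : (35 + 12 * exp (φ * I)).im = 12 * Real.sin φ := by
  have h : (12 * exp (φ * I)).im = 12 * Real.sin φ := by
    rw [im_mul_nat, Complex.exp_ofReal_mul_I_im]
  rw [Complex.add_im, h, Complex.im_ofNat, zero_add]

private theorem re_z2 (φ : ℝ) : (35 - 12 * exp (φ * I)).re = 35 - 12 * Real.cos φ := by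
  have h : (12 * exp (φ * I)).re = 12 * Real.cos φ := by
    rw [re_mul_nat, Complex.exp_ofReal_mul_I_re]
  rw [Complex.sub_re, h, Complex.re_ofNat]

private theorem im_z2 (φ : ℝ) : (35 - 12 * exp (φ * I)).im = -(12 * Real.sin φ) := by
  have h : (12 * exp (φ * I)).im = 12 * Real.sin φ := by
    rw [im_mul_nat, Complex.exp_ofReal_mul_I_im]
  rw [Complex.sub_im, h, Complex.im_ofNat, zero_sub]

private theorem G2_pm (φ : ℝ) : G2 (z1 (3 * (pm φ).1.1, 3 * (pm φ).1.2)) =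
    35 + 12 * exp (φ * I) := by
  rw [z1_pm]
  unfold G2
  rw [if_pos]
  rw [re_z1]
  have := Real.neg_one_le_cos φ
  linarith

private theorem G3_pm (φ : ℝ) : G3 (z2 (3 * (pm φ).1.1, 3 * (pm φ).1.2)) =
    -35 + 12 * exp (φ * I) := by
  rw [z2_pm]
  unfold G3
  rw [if_pos]
  have h : (-35 + 12 * exp (φ * I)) = -(35 - 12 * exp (φ * I)) := by ring
  rw [h, Complex.neg_re, re_z2]
  have := Real.cos_le_one φ
  linarith

private theorem n1_ne (φ : ℝ) : (35 + 12 * exp (φ * I)) ≠ 0 := by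
  intro h
  have h1 := re_z1 φ
  rw [h, Complex.zero_re] at h1
  have := Real.neg_one_le_cos φ
  linarith

private theorem n2_ne (φ : ℝ) : (35 - 12 * exp (φ * I)) ≠ 0 := by
  intro h
  have h1 := re_z2 φ
  rw [h, Complex.zero_re] at h1
  have := Real.cos_le_one φ
  linarith

theorem mem_A1 (q : ↥Zt) (φ c : ℝ) (hc : 0 < c)
    (h1 : (q : ℂ × ℂ).1 ^ 2 = c * G2 (z1 (3 * (pm φ).1.1, 3 * (pm φ).1.2)))
    (h2 : (q : ℂ × ℂ).2 ^ 3 = -(c * G3 (z2 (3 * (pm φ).1.1, 3 * (pm φ).1.2))))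
    (hφ : 0 ≤ Real.cos φ) : q ∈ A1 := by
  rw [G2_pm] at h1
  rw [G3_pm] at h2
  have hc' : (c : ℂ) ≠ 0 := by exact_mod_cast hc.ne'
  have hx2 : (q : ℂ × ℂ).1 ^ 2 ≠ 0 := by
    rw [h1]
    exact mul_ne_zero hc' (n1_ne φ)
  refine ⟨fun h => hx2 (by rw [h]; ring), ?_⟩
  have e : ((q : ℂ × ℂ).1 ^ 2 - (q : ℂ × ℂ).2 ^ 3) / (q : ℂ × ℂ).1 ^ 2 =
      24 * exp (φ * I) / (35 + 12 * exp (φ * I)) := by
    rw [h1, h2]
    have := n1_ne φ
    field_simp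
    ring
  rw [e, Complex.mem_slitPlane_iff]
  left
  have hre : (24 * exp (φ * I)).re = 24 * Real.cos φ := by
    rw [re_mul_nat, Complex.exp_ofReal_mul_I_re]
  have him : (24 * exp (φ * I)).im = 24 * Real.sin φ := by
    rw [im_mul_nat, Complex.exp_ofReal_mul_I_im]
  rw [Complex.div_re, hre, him, re_z1, im_z1, ← add_div]
  apply div_pos
  · have := Real.sin_sq_add_cos_sq φ
    nlinarith
  · exact Complex.normSq_pos.2 (n1_ne φ)

theorem mem_A2 (q : ↥Zt) (φ c : ℝ) (hc : 0 < c)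
    (h1 : (q : ℂ × ℂ).1 ^ 2 = c * G2 (z1 (3 * (pm φ).1.1, 3 * (pm φ).1.2)))
    (h2 : (q : ℂ × ℂ).2 ^ 3 = -(c * G3 (z2 (3 * (pm φ).1.1, 3 * (pm φ).1.2))))
    (hφ : Real.cos φ ≤ 0) : q ∈ A2 := by
  rw [G2_pm] at h1
  rw [G3_pm] at h2
  have hc' : (c : ℂ) ≠ 0 := by exact_mod_cast hc.ne'
  have h2' : (q : ℂ × ℂ).2 ^ 3 = c * (35 - 12 * exp (φ * I)) := by
    rw [h2]
    ring
  have hx2 : (q : ℂ × ℂ).2 ^ 3 ≠ 0 := by
    rw [h2']
    exact mul_ne_zero hc' (n2_ne φ)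
  refine ⟨fun h => hx2 (by rw [h]; ring), ?_⟩
  have e : ((q : ℂ × ℂ).2 ^ 3 - (q : ℂ × ℂ).1 ^ 2) / (q : ℂ × ℂ).2 ^ 3 =
      -(24 * exp (φ * I)) / (35 - 12 * exp (φ * I)) := by
    rw [h1, h2']
    have := n2_ne φ
    field_simp
    ring
  rw [e, Complex.mem_slitPlane_iff]
  left
  have hre : (24 * exp (φ * I)).re = 24 * Real.cos φ := by
    rw [re_mul_nat, Complex.exp_ofReal_mul_I_re]
  have him : (24 * exp (φ * I)).im = 24 * Real.sin φ := by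
    rw [im_mul_nat, Complex.exp_ofReal_mul_I_im]
  rw [Complex.div_re, Complex.neg_re, Complex.neg_im, hre, him, re_z2, im_z2, ← add_div]
  apply div_pos
  · have := Real.sin_sq_add_cos_sq φ
    nlinarith
  · exact Complex.normSq_pos.2 (n2_ne φ)

end Pool.Agent.Helper82.DK2
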