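import Pool.Agent.Helper82.DK2.Defs

/-!
# DK-O1: the complement of the standard sphere (about 100-150 lines)

`cpart z = z / |z|` for `z ≠ 0`. `cc x = x_{k+2} + i x_{k+3}` are the last two coordinates of
`x ∈ Sph (k + 3)`, `cy x` the first `k + 2` coordinates.

Proofs.
* `coe_cpart`: `Complex.norm_mul_exp_arg_mul_I`. `continuousOn_cpart`: `Circle` has the subspace
  topology (`continuousOn` into a subtype: use `Topology.IsInducing.subtypeVal.continuousOn_iff` or
  `ContinuousOn.subtype_mk`-like lemmas), and `z / |z|` is continuous for `z ≠ 0`. `cpart_mul`, `cpart_pos`: arguments, or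
  apply `Subtype.ext` and `coe_cpart`.
* `norm_cy_cc`: `EuclideanSpace.norm_sq_eq`, `Fin.sum_univ_castSucc` twice.
* `mk_std`: given `y` and `c` with `|y|² + |c|² = 1` the point with these coordinates,
  `Fin.snoc (Fin.snoc y c.re) c.im`.
* `stdHomeo`: `x ↦ (y / |c|, c / |c|)` with inverse `(q, v) ↦ (q, v) / √(1 + |q|²)`. Both maps are
  continuous, and they are inverse to each other: `|y|² + |c|² = 1` gives `1 + |y|²/|c|² = 1/|c|²`.
-/

namespace Pool.Agent.Helper82.DK2

open Set Topology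

/-- The point `z / |z|` of the circle. -/
noncomputable def cpart (z : ℂ) : Circle := Circle.exp z.arg

theorem coe_cpart {z : ℂ} (hz : z ≠ 0) : (cpart z : ℂ) = z / ‖z‖ := by
  have h1 : (‖z‖ : ℂ) ≠ 0 := by
    simpa using hz
  rw [eq_div_iff h1, cpart, Circle.coe_exp, mul_comm]
  exact Complex.norm_mul_exp_arg_mul_I z

theorem continuousOn_cpart : ContinuousOn cpart {z | z ≠ 0} := by
  have hi : IsInducing (fun z : Circle => (z : ℂ)) := ⟨rfl⟩
  rw [hi.continuousOn_iff]
  have h1 : ContinuousOn (fun z : ℂ => z / (‖z‖ : ℂ)) {z | z ≠ 0} := by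
    apply ContinuousOn.div continuousOn_id
    · exact (Complex.continuous_ofReal.comp continuous_norm).continuousOn
    · intro z hz
      simpa using hz
  exact h1.congr fun z hz => coe_cpart hz

theorem cpart_coe (v : Circle) : cpart (v : ℂ) = v := Circle.exp_arg v

theorem cpart_mul {z w : ℂ} (hz : z ≠ 0) (hw : w ≠ 0) : cpart (z * w) = cpart z * cpart w := by
  apply Circle.ext
  rw [Circle.coe_mul, coe_cpart hz, coe_cpart hw, coe_cpart (mul_ne_zero hz hw), norm_mul,
    Complex.ofReal_mul, div_mul_div_comm]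

theorem cpart_pos {r : ℝ} (hr : 0 < r) (z : ℂ) : cpart (r * z) = cpart z := by
  unfold cpart
  rw [Complex.arg_real_mul z hr]

/-- The last two coordinates. -/
def cc (k : ℕ) (x : Sph (k + 3)) : ℂ :=
  ⟨x.1 (Fin.last (k + 2)).castSucc, x.1 (Fin.last (k + 3))⟩

/-- The first `k + 2` coordinates. -/
def cy (k : ℕ) (x : Sph (k + 3)) : EuclideanSpace ℝ (Fin (k + 2)) :=
  WithLp.toLp 2 fun i => x.1 i.castSucc.castSucc

theorem mem_stdSphere {k : ℕ} (x : Sph (k + 3)) : x ∈ stdSphere k ↔ cc k x = 0 := by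
  rw [Complex.ext_iff]
  exact and_comm

private theorem continuous_coord (k : ℕ) (i : Fin (k + 3 + 1)) :
    Continuous (fun x : Sph (k + 3) => x.1 i) := by
  have h1 : Continuous (fun x : EuclideanSpace ℝ (Fin (k + 3 + 1)) => x i) := by fun_prop
  exact h1.comp continuous_subtype_val

theorem continuous_cc (k : ℕ) : Continuous (cc k) := by
  have h : cc k = fun x => ((x.1 (Fin.last (k + 2)).castSucc : ℝ) : ℂ) +
      ((x.1 (Fin.last (k + 3)) : ℝ) : ℂ) * Complex.I := by
    funext x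
    exact Complex.mk_eq_add_mul_I _ _
  rw [h]
  exact (Complex.continuous_ofReal.comp (continuous_coord k _)).add
    ((Complex.continuous_ofReal.comp (continuous_coord k _)).mul continuous_const)

theorem continuous_cy (k : ℕ) : Continuous (cy k) := by
  unfold cy
  exact (PiLp.continuous_toLp 2 _).comp (continuous_pi fun i => continuous_coord k _)

private theorem cc_norm_sq {k : ℕ} (x : Sph (k + 3)) :
    ‖cc k x‖ ^ 2 = (x.1 (Fin.last (k + 2)).castSucc) ^ 2 + (x.1 (Fin.last (k + 3))) ^ 2 := by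
  rw [← Complex.normSq_eq_norm_sq, Complex.normSq_apply]
  simp only [cc]
  ring

theorem norm_cy_cc {k : ℕ} (x : Sph (k + 3)) : ‖cy k x‖ ^ 2 + ‖cc k x‖ ^ 2 = 1 := by
  have hx : ‖x.1‖ ^ 2 = 1 := by
    have := x.2
    rw [mem_sphere_zero_iff_norm] at this
    rw [this, one_pow]
  rw [EuclideanSpace.real_norm_sq_eq, Fin.sum_univ_castSucc, Fin.sum_univ_castSucc] at hx
  refine Eq.trans ?_ hx
  rw [cc_norm_sq, EuclideanSpace.real_norm_sq_eq]
  simp only [cy]
  ring

/-- the point with coordinates `(y, c)` -/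
private def gpt (k : ℕ) (p : EuclideanSpace ℝ (Fin (k + 2)) × ℂ) :
    EuclideanSpace ℝ (Fin (k + 3 + 1)) :=
  WithLp.toLp 2 (Fin.snoc (α := fun _ => ℝ)
    (Fin.snoc (α := fun _ => ℝ) (p.1 : Fin (k + 2) → ℝ) p.2.re : Fin (k + 3) → ℝ) p.2.im)

private theorem gpt_cast (k : ℕ) (p : EuclideanSpace ℝ (Fin (k + 2)) × ℂ) (i : Fin (k + 2)) :
    gpt k p i.castSucc.castSucc = p.1 i := by
  simp [gpt]

private theorem gpt_re (k : ℕ) (p : EuclideanSpace ℝ (Fin (k + 2)) × ℂ) :
    gpt k p (Fin.last (k + 2)).castSucc = p.2.re := by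
  simp [gpt]

private theorem gpt_im (k : ℕ) (p : EuclideanSpace ℝ (Fin (k + 2)) × ℂ) :
    gpt k p (Fin.last (k + 3)) = p.2.im := by
  simp [gpt]

private theorem gpt_norm (k : ℕ) (p : EuclideanSpace ℝ (Fin (k + 2)) × ℂ) :
    ‖gpt k p‖ = Real.sqrt (‖p.1‖ ^ 2 + ‖p.2‖ ^ 2) := by
  have h : ‖gpt k p‖ ^ 2 = ‖p.1‖ ^ 2 + ‖p.2‖ ^ 2 := by
    rw [EuclideanSpace.real_norm_sq_eq, Fin.sum_univ_castSucc, Fin.sum_univ_castSucc, gpt_re,
      gpt_im, EuclideanSpace.real_norm_sq_eq, ← Complex.normSq_eq_norm_sq, Complex.normSq_apply]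
    simp only [gpt_cast]
    ring
  rw [← h, Real.sqrt_sq (norm_nonneg _)]

private theorem continuous_gpt (k : ℕ) : Continuous (gpt k) := by
  apply (PiLp.continuous_toLp 2 _).comp
  apply continuous_pi
  intro i
  refine Fin.lastCases ?_ (fun i => ?_) i
  · simp only [Fin.snoc_last]
    exact Complex.continuous_im.comp continuous_snd
  · refine Fin.lastCases ?_ (fun i => ?_) i
    · simp only [Fin.snoc_castSucc, Fin.snoc_last]
      exact Complex.continuous_re.comp continuous_snd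
    · simp only [Fin.snoc_castSucc]
      fun_prop

private theorem gpt_norm_pos (k : ℕ) {p : EuclideanSpace ℝ (Fin (k + 2)) × ℂ} (hp : p ≠ 0) :
    0 < ‖gpt k p‖ := by
  rw [gpt_norm]
  apply Real.sqrt_pos.2
  by_contra hcon
  push Not at hcon
  have h1 := sq_nonneg ‖p.1‖
  have h2 := sq_nonneg ‖p.2‖
  have h3 : ‖p.1‖ ^ 2 = 0 := by linarith
  have h4 : ‖p.2‖ ^ 2 = 0 := by linarith
  apply hp
  apply Prod.ext
  · exact norm_eq_zero.1 (pow_eq_zero_iff two_ne_zero |>.1 h3)
  · exact norm_eq_zero.1 (pow_eq_zero_iff two_ne_zero |>.1 h4)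

private theorem gpt_mem (k : ℕ) {p : EuclideanSpace ℝ (Fin (k + 2)) × ℂ} (hp : p ≠ 0) :
    ‖gpt k p‖⁻¹ • gpt k p ∈ Metric.sphere (0 : EuclideanSpace ℝ (Fin (k + 3 + 1))) 1 := by
  have h := gpt_norm_pos k hp
  rw [mem_sphere_zero_iff_norm, norm_smul, norm_inv, norm_norm, inv_mul_cancel₀ h.ne']

/-- The point with the coordinates `(y, c) / N`. -/
theorem exists_mk_std (k : ℕ) : ∃ F : EuclideanSpace ℝ (Fin (k + 2)) × ℂ → Sph (k + 3),
    ContinuousOn F {p | p ≠ 0} ∧ ∀ y c, (y, c) ≠ 0 →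
      cy k (F (y, c)) = (Real.sqrt (‖y‖ ^ 2 + ‖c‖ ^ 2))⁻¹ • y ∧
      cc k (F (y, c)) = ((Real.sqrt (‖y‖ ^ 2 + ‖c‖ ^ 2))⁻¹ : ℝ) * c := by
  classical
  have h01 : ((0, 1) : EuclideanSpace ℝ (Fin (k + 2)) × ℂ) ≠ 0 := by
    intro h
    have := congrArg Prod.snd h
    simp at this
  let F : EuclideanSpace ℝ (Fin (k + 2)) × ℂ → Sph (k + 3) := fun p =>
    if hp : p ≠ 0 then ⟨‖gpt k p‖⁻¹ • gpt k p, gpt_mem k hp⟩ else
      ⟨‖gpt k (0, 1)‖⁻¹ • gpt k (0, 1), gpt_mem k h01⟩
  have hF : ∀ p (hp : p ≠ 0), F p = ⟨‖gpt k p‖⁻¹ • gpt k p, gpt_mem k hp⟩ := fun p hp =>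
    dif_pos hp
  refine ⟨F, ?_, ?_⟩
  · rw [IsInducing.subtypeVal.continuousOn_iff]
    have h1 : ContinuousOn (fun p => ‖gpt k p‖⁻¹ • gpt k p) {p | p ≠ 0} := by
      have h0 : ContinuousOn (fun p => ‖gpt k p‖⁻¹) {p | p ≠ 0} :=
        (continuous_gpt k).norm.continuousOn.inv₀ fun p hp => (gpt_norm_pos k hp).ne'
      exact h0.smul (continuous_gpt k).continuousOn
    refine h1.congr fun p hp => ?_
    rw [Function.comp_apply, hF p hp]
  · intro y c hp
    rw [hF (y, c) hp, ← gpt_norm k (y, c)]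
    constructor
    · ext i
      simp only [cy]
      rw [PiLp.smul_apply, PiLp.smul_apply, gpt_cast]
    · apply Complex.ext
      · simp only [cc]
        rw [PiLp.smul_apply, gpt_re, Complex.re_ofReal_mul, smul_eq_mul]
      · simp only [cc]
        rw [PiLp.smul_apply, gpt_im, Complex.im_ofReal_mul, smul_eq_mul]

theorem ext_std {k : ℕ} {x x' : Sph (k + 3)} (h : cy k x = cy k x') (h' : cc k x = cc k x') :
    x = x' := by
  apply Subtype.ext
  ext i
  refine Fin.lastCases ?_ (fun i => ?_) i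
  · exact congrArg Complex.im h'
  · refine Fin.lastCases ?_ (fun i => ?_) i
    · exact congrArg Complex.re h'
    · exact congrArg (fun v : EuclideanSpace ℝ (Fin (k + 2)) => v i) h

/-- The complement of the standard sphere is `ℝ^(k+2) × S¹`. -/
theorem exists_stdHomeo (k : ℕ) : ∃ H : {x : Sph (k + 3) // x ∉ stdSphere k} ≃ₜ
    EuclideanSpace ℝ (Fin (k + 2)) × Circle, ∀ x, (H x).2 = cpart (cc k x.1) := by
  obtain ⟨F, hFc, hF⟩ := exists_mk_std k
  have hne : ∀ p : EuclideanSpace ℝ (Fin (k + 2)) × Circle, (p.1, (p.2 : ℂ)) ≠ 0 := by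
    intro p h
    have := congrArg Prod.snd h
    exact p.2.coe_ne_zero this
  have hs : ∀ q : EuclideanSpace ℝ (Fin (k + 2)), 0 < (Real.sqrt (‖q‖ ^ 2 + 1))⁻¹ := by
    intro q
    have : 0 < ‖q‖ ^ 2 + 1 := by positivity
    exact inv_pos.2 (Real.sqrt_pos.2 this)
  have hy : ∀ p : EuclideanSpace ℝ (Fin (k + 2)) × Circle, cy k (F (p.1, (p.2 : ℂ))) =
      (Real.sqrt (‖p.1‖ ^ 2 + 1))⁻¹ • p.1 := by
    intro p
    have h := (hF p.1 p.2 (hne p)).1
    rw [Circle.norm_coe, one_pow] at h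
    exact h
  have hc : ∀ p : EuclideanSpace ℝ (Fin (k + 2)) × Circle, cc k (F (p.1, (p.2 : ℂ))) =
      ((Real.sqrt (‖p.1‖ ^ 2 + 1))⁻¹ : ℝ) * (p.2 : ℂ) := by
    intro p
    have h := (hF p.1 p.2 (hne p)).2
    rw [Circle.norm_coe, one_pow] at h
    exact h
  have hcne : ∀ p : EuclideanSpace ℝ (Fin (k + 2)) × Circle, F (p.1, (p.2 : ℂ)) ∉ stdSphere k := by
    intro p
    rw [mem_stdSphere, hc]
    apply mul_ne_zero _ p.2.coe_ne_zero
    rw [Complex.ofReal_ne_zero]
    exact (hs p.1).ne'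
  have hxne : ∀ x : {x : Sph (k + 3) // x ∉ stdSphere k}, cc k x.1 ≠ 0 := by
    intro x
    rw [Ne, ← mem_stdSphere]
    exact x.2
  let H : {x : Sph (k + 3) // x ∉ stdSphere k} ≃ₜ EuclideanSpace ℝ (Fin (k + 2)) × Circle :=
    { toFun := fun x => (‖cc k x.1‖⁻¹ • cy k x.1, cpart (cc k x.1))
      invFun := fun p => ⟨F (p.1, (p.2 : ℂ)), hcne p⟩
      left_inv := by
        intro x
        have hx := hxne x
        have hpos : 0 < ‖cc k x.1‖ := norm_pos_iff.2 hx
        have h1 : Real.sqrt (‖‖cc k x.1‖⁻¹ • cy k x.1‖ ^ 2 + 1) = ‖cc k x.1‖⁻¹ := by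
          have h2 := norm_cy_cc x.1
          have h3 : ‖‖cc k x.1‖⁻¹ • cy k x.1‖ ^ 2 + 1 = (‖cc k x.1‖⁻¹) ^ 2 := by
            rw [norm_smul, norm_inv, norm_norm]
            field_simp
            exact h2
          rw [h3, Real.sqrt_sq (inv_nonneg.2 hpos.le)]
        apply Subtype.ext
        apply ext_std
        · have h4 := hy (‖cc k x.1‖⁻¹ • cy k x.1, cpart (cc k x.1))
          rw [h1, inv_inv, smul_smul, mul_inv_cancel₀ hpos.ne', one_smul] at h4
          exact h4
        · have h4 := hc (‖cc k x.1‖⁻¹ • cy k x.1, cpart (cc k x.1))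
          rw [h1, inv_inv] at h4
          refine h4.trans ?_
          change ((‖cc k x.1‖ : ℝ) : ℂ) * (cpart (cc k x.1) : ℂ) = cc k x.1
          rw [coe_cpart hx]
          have h5 : (‖cc k x.1‖ : ℂ) ≠ 0 := by
            rw [Complex.ofReal_ne_zero]
            exact hpos.ne'
          field_simp
      right_inv := by
        intro p
        have h1 := hs p.1
        have h2 : ‖cc k (F (p.1, (p.2 : ℂ)))‖ = (Real.sqrt (‖p.1‖ ^ 2 + 1))⁻¹ := by
          rw [hc, norm_mul, Circle.norm_coe, mul_one, Complex.norm_real, Real.norm_eq_abs,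
            abs_of_pos h1]
        apply Prod.ext
        · change ‖cc k (F (p.1, (p.2 : ℂ)))‖⁻¹ • cy k (F (p.1, (p.2 : ℂ))) = p.1
          rw [h2, hy, smul_smul, inv_mul_cancel₀ h1.ne', one_smul]
        · change cpart (cc k (F (p.1, (p.2 : ℂ)))) = p.2
          rw [hc, cpart_pos h1, cpart_coe]
      continuous_toFun := by
        have hcc : Continuous (fun x : {x : Sph (k + 3) // x ∉ stdSphere k} => cc k x.1) :=
          (continuous_cc k).comp continuous_subtype_val
        apply Continuous.prodMk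
        · exact (hcc.norm.inv₀ fun x => (norm_pos_iff.2 (hxne x)).ne').smul
            ((continuous_cy k).comp continuous_subtype_val)
        · exact continuousOn_cpart.comp_continuous hcc hxne
      continuous_invFun := by
        apply Continuous.subtype_mk
        have h1 : Continuous (fun p : EuclideanSpace ℝ (Fin (k + 2)) × Circle =>
            (p.1, (p.2 : ℂ))) := by fun_prop
        exact hFc.comp_continuous h1 hne }
  exact ⟨H, fun x => rfl⟩

/-- The complement of the standard sphere is dense. -/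
theorem dense_compl_stdSphere (k : ℕ) : Dense (stdSphere k)ᶜ := by
  intro x
  by_cases hx : x ∈ stdSphere k
  · obtain ⟨F, hFc, hF⟩ := exists_mk_std k
    have hc0 := (mem_stdSphere x).1 hx
    have h1 := norm_cy_cc x
    have hyne : cy k x ≠ 0 := by
      intro h
      rw [h, hc0] at h1
      simp at h1
    have hne : ∀ c : ℂ, (cy k x, c) ≠ 0 := fun c h => hyne (congrArg Prod.fst h)
    have hFx : F (cy k x, 0) = x := by
      have h2 := hF (cy k x) (cc k x) (hne _)
      rw [h1, Real.sqrt_one, inv_one, one_smul] at h2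
      rw [hc0] at h2
      apply ext_std h2.1
      rw [h2.2, hc0, mul_zero]
    have hcont : Continuous (fun c : ℂ => F (cy k x, c)) :=
      hFc.comp_continuous (continuous_const.prodMk continuous_id) hne
    have ht : Filter.Tendsto (fun c : ℂ => F (cy k x, c)) (𝓝[≠] 0) (𝓝 x) := by
      have h3 := hcont.tendsto 0
      rw [hFx] at h3
      exact h3.mono_left nhdsWithin_le_nhds
    apply mem_closure_of_tendsto ht
    filter_upwards [self_mem_nhdsWithin] with c hc
    rw [mem_compl_iff, mem_stdSphere, (hF (cy k x) c (hne c)).2]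
    apply mul_ne_zero _ hc
    rw [Complex.ofReal_ne_zero]
    apply inv_ne_zero
    apply (Real.sqrt_pos.2 _).ne'
    have h4 : 0 < ‖cy k x‖ := norm_pos_iff.2 hyne
    positivity
  · exact subset_closure hx

end Pool.Agent.Helper82.DK2
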