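import Pool.Agent.Helper82.DK2.Classify
import Pool.Agent.Helper82.DK2.CPart
import Pool.Agent.Helper31.DS.S2

/-!
# DK-P9: the outer part of the complement of the spun knot (about 150-220 lines)

`VV e` consists of the points of `Sph 7` with `prC z ≠ 0` which are not `J (e (m, s), w)` with
`s² + |w|² ≤ 1`. There `F z = prC z` (`F_eq_prC`).

`isOpen_VV`: the complement is `{prC z = 0}` together with the compact set
`{J (e (m, s), w) : s² + |w|² ≤ 1}` (image of `M × {(s, w) : s² + |w|² ≤ 1}`).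

`sc_VV`: let `St = {y ∈ ℝ⁶ : |y| < 1 and for all m, s, w: y = c e(m, s), c = (1 + |w|²)^(-1/2), implies 1 < s² + |w|²}`
(by `prY_J` this says that `y = prY (J (e (m, s), w))`). The set
`pbOn (VV e) (cpart ∘ prC)` is homeomorphic to `St × ℝ` by `(z, t) ↦ (prY z, t)` with inverse
`(y, t) ↦ (jn y (√(1 - |y|²) e^{it}), t)`: `z` is determined by `prY z` and `prC z = |prC z| e^{it}`,
`|prC z|² = 1 - |prY z|²`; and whether `z = J (e (m, s), w)` with `s² + |w|² ≤ 1` depends only on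
`prY z`: `J (y', w)` has `prY = (1 + |w|²)^(-1/2) y'`, `|y'| = 1`, `|w|² = (1 - |prY|²)/|prY|²`.
`St` is star convex with centre `0`: if `s y`, `0 < s ≤ 1`, is `(1 + |w'|²)^(-1/2) e(m, σ)` then
`y = (1 + |w|²)^(-1/2) e(m, σ)` with `|w| ≤ |w'|`. So `St × ℝ` is star convex and nonempty, hence
contractible (`StarConvex.contractibleSpace`) and simply connected.

`isPathConnected_UV`: the set is the image of `M × {(s, w) : w ≠ 0, 1 < s² + |w|²}` under
the continuous map `(m, s, w) ↦ J (e (m, s), w)`, and `{(s, w) : w ≠ 0, 1 < s² + |w|²}` is path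
connected: multiply `w` by a factor growing to `2 / |w|` or more, then move `s` to `0`, then move in
`{|w| ≥ 2}`, or: it is the image of the convex set `{(s, r, t) : r > 0, ...}`, e.g. join every point to
`(0, 2)` in steps.
-/

namespace Pool.Agent.Helper82.DK2

open Set Topology Complex Pool.Agent.Helper31.DS

variable {M : Type*} [TopologicalSpace M]

/-- The outer part. -/
def VV (e : M × ℝ → Sph 5) : Set (Sph 7) :=
  {z | prC z.1 ≠ 0 ∧ ∀ m s w, z = J (e (m, s), w) → 1 < s ^ 2 + ‖w‖ ^ 2}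

theorem isOpen_VV [CompactSpace M] {e : M × ℝ → Sph 5} (he : IsOpenEmbedding e) :
    IsOpen (VV e) := by
  set Φ : (M × ℝ) × ℂ → Sph 7 := fun p => J (e p.1, p.2) with hΦ
  have hΦc : Continuous Φ :=
    isOpenEmbedding_J.continuous.comp ((he.continuous.comp continuous_fst).prodMk continuous_snd)
  set K : Set ((M × ℝ) × ℂ) := {p | p.1.2 ^ 2 + ‖p.2‖ ^ 2 ≤ 1} with hK
  have hKcl : IsClosed K := isClosed_le (by fun_prop) continuous_const
  have hKc : IsCompact K := by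
    refine IsCompact.of_isClosed_subset
      ((isCompact_univ.prod (isCompact_Icc (a := (-1 : ℝ)) (b := 1))).prod
        (isCompact_closedBall (0 : ℂ) 1)) hKcl ?_
    rintro ⟨⟨m, s⟩, w⟩ hp
    change s ^ 2 + ‖w‖ ^ 2 ≤ 1 at hp
    refine ⟨⟨mem_univ _, ?_⟩, ?_⟩
    · have h2 : s ^ 2 ≤ 1 := by nlinarith [sq_nonneg ‖w‖]
      exact abs_le.1 ((sq_le_one_iff_abs_le_one s).1 h2)
    · rw [mem_closedBall_zero_iff]
      have h2 : ‖w‖ ^ 2 ≤ 1 := by nlinarith [sq_nonneg s]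
      have h3 := (sq_le_one_iff_abs_le_one ‖w‖).1 h2
      rwa [abs_norm] at h3
  have hC : IsClosed (Φ '' K) := (hKc.image hΦc).isClosed
  have hEq : VV e = {z : Sph 7 | prC z.1 ≠ 0} ∩ (Φ '' K)ᶜ := by
    ext z
    constructor
    · rintro ⟨h1, h2⟩
      refine ⟨h1, ?_⟩
      rintro ⟨⟨⟨m, s⟩, w⟩, hp, rfl⟩
      change s ^ 2 + ‖w‖ ^ 2 ≤ 1 at hp
      have := h2 m s w rfl
      linarith
    · rintro ⟨h1, h2⟩
      refine ⟨h1, fun m s w hz => ?_⟩
      by_contra hlt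
      push Not at hlt
      exact h2 ⟨((m, s), w), hlt, hz.symm⟩
  rw [hEq]
  exact (isOpen_ne_fun (continuous_prC.comp continuous_subtype_val) continuous_const).inter
    hC.isOpen_compl

theorem F_VV {e : M × ℝ → Sph 5} (he : IsOpenEmbedding e) (τ : M → Circle) {z : Sph 7}
    (hz : z ∈ VV e) : F e τ z = prC z.1 :=
  F_eq_prC he z fun m s w h => (hz.2 m s w h).le

/-- the condition of `VV` in terms of the first six coordinates -/
private def PY (e : M × ℝ → Sph 5) (y : EuclideanSpace ℝ (Fin 6)) : Prop :=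
  ∀ (m : M) (s : ℝ) (w : ℂ), y = (Real.sqrt (1 + ‖w‖ ^ 2))⁻¹ • (e (m, s)).1 →
    1 < s ^ 2 + ‖w‖ ^ 2

private theorem sqp (w : ℂ) : 0 < Real.sqrt (1 + ‖w‖ ^ 2) := Real.sqrt_pos.2 (by positivity)

private theorem norm_pt (x : Sph 5) : ‖(x : EuclideanSpace ℝ (Fin 6))‖ = 1 :=
  mem_sphere_zero_iff_norm.1 x.2

private theorem PY_iff (e : M × ℝ → Sph 5) (z : Sph 7) :
    PY e (prY z.1) ↔ ∀ m s w, z = J (e (m, s), w) → 1 < s ^ 2 + ‖w‖ ^ 2 := by
  constructor
  · intro h m s w hz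
    refine h m s w ?_
    rw [hz, prY_J]
  · intro h m s w hy
    have hc := sqp w
    have hn : ‖prY z.1‖ = (Real.sqrt (1 + ‖w‖ ^ 2))⁻¹ := by
      rw [hy, norm_smul, norm_pt, mul_one, Real.norm_of_nonneg (inv_nonneg.2 hc.le)]
    have hsum := norm_prY_sq z
    have hw2 : ‖prC z.1‖ ^ 2 = ((Real.sqrt (1 + ‖w‖ ^ 2))⁻¹ * ‖w‖) ^ 2 := by
      have h1 : (Real.sqrt (1 + ‖w‖ ^ 2)) ^ 2 = 1 + ‖w‖ ^ 2 := Real.sq_sqrt (by positivity)
      have h2 : ‖prC z.1‖ ^ 2 = 1 - ((Real.sqrt (1 + ‖w‖ ^ 2))⁻¹) ^ 2 := by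
        rw [← hn]
        linarith
      rw [h2, mul_pow, inv_pow, h1]
      have h3 : (1 + ‖w‖ ^ 2) ≠ 0 := by positivity
      field_simp
      ring
    have hwn : ‖prC z.1‖ = (Real.sqrt (1 + ‖w‖ ^ 2))⁻¹ * ‖w‖ :=
      (sq_eq_sq₀ (norm_nonneg _) (by positivity)).1 hw2
    set w' : ℂ := ((Real.sqrt (1 + ‖w‖ ^ 2) : ℝ) : ℂ) * prC z.1 with hw'
    have hw'n : ‖w'‖ = ‖w‖ := by
      rw [hw', norm_mul, Complex.norm_real, Real.norm_of_nonneg hc.le, hwn, ← mul_assoc,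
        mul_inv_cancel₀ hc.ne', one_mul]
    have hz : z = J (e (m, s), w') := by
      apply Subtype.ext
      rw [← jn_pr z.1]
      change jn (prY z.1) (prC z.1) = (Real.sqrt (1 + ‖w'‖ ^ 2))⁻¹ • jn (e (m, s)).1 w'
      rw [jn_smul, hw'n, ← hy, hw', ← mul_assoc, ← Complex.ofReal_mul, inv_mul_cancel₀ hc.ne',
        Complex.ofReal_one, one_mul]
    have := h m s w' hz
    rwa [hw'n] at this

/-- the star convex set -/
private def St (e : M × ℝ → Sph 5) : Set (EuclideanSpace ℝ (Fin 6)) := {y | ‖y‖ < 1 ∧ PY e y}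

private theorem zero_mem_St (e : M × ℝ → Sph 5) : (0 : EuclideanSpace ℝ (Fin 6)) ∈ St e := by
  refine ⟨by simp, fun m s w h => ?_⟩
  exfalso
  have h1 := congrArg norm h
  rw [norm_zero, norm_smul, norm_pt, mul_one, Real.norm_of_nonneg (inv_nonneg.2 (sqp w).le)] at h1
  exact (inv_pos.2 (sqp w)).ne h1

private theorem star_St (e : M × ℝ → Sph 5) : StarConvex ℝ 0 (St e) := by
  intro y hy a b ha hb hab
  rw [smul_zero, zero_add]
  rcases hb.eq_or_lt with rfl | hb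
  · rw [zero_smul]
    exact zero_mem_St e
  have hb1 : b ≤ 1 := by linarith
  refine ⟨?_, fun m s w' h => ?_⟩
  · rw [norm_smul, Real.norm_of_nonneg hb.le]
    calc b * ‖y‖ ≤ 1 * ‖y‖ := by gcongr
      _ < 1 := by rw [one_mul]; exact hy.1
  · have hc' := sqp w'
    have hn : b * ‖y‖ = (Real.sqrt (1 + ‖w'‖ ^ 2))⁻¹ := by
      have h1 := congrArg norm h
      rwa [norm_smul, norm_smul, norm_pt, mul_one, Real.norm_of_nonneg hb.le,
        Real.norm_of_nonneg (inv_nonneg.2 hc'.le)] at h1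
    have hy0 : 0 < ‖y‖ := by
      by_contra h0
      have h1 : ‖y‖ = 0 := le_antisymm (not_lt.1 h0) (norm_nonneg _)
      rw [h1, mul_zero] at hn
      exact (inv_pos.2 hc').ne hn
    have hyi : 1 < ‖y‖⁻¹ := (one_lt_inv₀ hy0).2 hy.1
    set r : ℝ := Real.sqrt (‖y‖⁻¹ ^ 2 - 1) with hr
    have hr2 : r ^ 2 = ‖y‖⁻¹ ^ 2 - 1 := Real.sq_sqrt (by nlinarith)
    have hrn : ‖(r : ℂ)‖ ^ 2 = ‖y‖⁻¹ ^ 2 - 1 := by
      rw [Complex.norm_real, Real.norm_of_nonneg (Real.sqrt_nonneg _), hr2]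
    have hsq : Real.sqrt (1 + ‖(r : ℂ)‖ ^ 2) = ‖y‖⁻¹ := by
      rw [hrn, show 1 + (‖y‖⁻¹ ^ 2 - 1) = ‖y‖⁻¹ ^ 2 by ring, Real.sqrt_sq (by positivity)]
    have hyeq : y = (Real.sqrt (1 + ‖(r : ℂ)‖ ^ 2))⁻¹ • (e (m, s)).1 := by
      rw [hsq, inv_inv]
      have h2 : b • y = (b * ‖y‖) • (e (m, s)).1 := by
        rw [hn]
        exact h
      rw [mul_smul] at h2
      exact smul_right_injective _ hb.ne' h2
    have h3 := hy.2 m s (r : ℂ) hyeq
    rw [hrn] at h3
    have h4 : 1 + ‖w'‖ ^ 2 = (b * ‖y‖)⁻¹ ^ 2 := by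
      rw [hn, inv_inv, Real.sq_sqrt (by positivity)]
    have h5 : ‖y‖⁻¹ ^ 2 ≤ (b * ‖y‖)⁻¹ ^ 2 := by
      have h6 : ‖y‖⁻¹ ≤ (b * ‖y‖)⁻¹ := by
        apply inv_anti₀ (by positivity)
        nlinarith
      gcongr
    linarith

private theorem norm_jn_exp {y : EuclideanSpace ℝ (Fin 6)} (hy : ‖y‖ < 1) (t : ℝ) :
    ‖jn y ((Real.sqrt (1 - ‖y‖ ^ 2) : ℝ) * (Circle.exp t : ℂ))‖ = 1 := by
  have h1 : 0 ≤ 1 - ‖y‖ ^ 2 := by nlinarith [norm_nonneg y]
  have h2 : ‖jn y ((Real.sqrt (1 - ‖y‖ ^ 2) : ℝ) * (Circle.exp t : ℂ))‖ ^ 2 = 1 := by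
    rw [norm_jn_sq, norm_mul, Circle.norm_coe, mul_one, Complex.norm_real,
      Real.norm_of_nonneg (Real.sqrt_nonneg _), Real.sq_sqrt h1]
    ring
  nlinarith [norm_nonneg (jn y ((Real.sqrt (1 - ‖y‖ ^ 2) : ℝ) * (Circle.exp t : ℂ)))]

private theorem sqrt_pos_St {e : M × ℝ → Sph 5} {y : EuclideanSpace ℝ (Fin 6)} (hy : y ∈ St e) :
    0 < Real.sqrt (1 - ‖y‖ ^ 2) := Real.sqrt_pos.2 (by nlinarith [norm_nonneg y, hy.1])

/-- the homeomorphism -/
private noncomputable def hom (e : M × ℝ → Sph 5) :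
    pbOn (VV e) (fun z => cpart (prC z.1)) ≃ₜ (St e ×ˢ (univ : Set ℝ) : Set _) where
  toFun p := ⟨(prY p.1.1.1, p.1.2), by
    refine ⟨⟨?_, (PY_iff e _).2 p.2.1.2⟩, mem_univ _⟩
    have h1 := norm_prY_sq p.1.1
    have h2 : 0 < ‖prC p.1.1.1‖ := norm_pos_iff.2 p.2.1.1
    have h3 : 0 < ‖prC p.1.1.1‖ ^ 2 := by positivity
    have h4 : ‖prY p.1.1.1‖ ^ 2 < 1 := by linarith
    exact (sq_lt_one_iff₀ (norm_nonneg _)).1 h4⟩
  invFun q := ⟨(⟨jn q.1.1 ((Real.sqrt (1 - ‖q.1.1‖ ^ 2) : ℝ) * (Circle.exp q.1.2 : ℂ)),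
      mem_sphere_zero_iff_norm.2 (norm_jn_exp q.2.1.1 _)⟩, q.1.2), by
    have hs := sqrt_pos_St q.2.1
    refine ⟨⟨?_, ?_⟩, ?_⟩
    · change prC (jn _ _) ≠ 0
      rw [prC_jn]
      exact mul_ne_zero (Complex.ofReal_ne_zero.2 hs.ne') (Circle.coe_ne_zero _)
    · refine (PY_iff e _).1 ?_
      change PY e (prY (jn _ _))
      rw [prY_jn]
      exact q.2.1.2
    · change cpart (prC (jn _ _)) = _
      rw [prC_jn, cpart_pos hs, cpart_coe]⟩
  left_inv p := by
    apply Subtype.ext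
    refine Prod.ext ?_ rfl
    apply Subtype.ext
    change jn (prY p.1.1.1) ((Real.sqrt (1 - ‖prY p.1.1.1‖ ^ 2) : ℝ) * (Circle.exp p.1.2 : ℂ)) =
      p.1.1.1
    have h1 : 1 - ‖prY p.1.1.1‖ ^ 2 = ‖prC p.1.1.1‖ ^ 2 := by
      have := norm_prY_sq p.1.1
      linarith
    have h2 : cpart (prC p.1.1.1) = Circle.exp p.1.2 := p.2.2
    have h3 : (‖prC p.1.1.1‖ : ℂ) ≠ 0 :=
      Complex.ofReal_ne_zero.2 (norm_pos_iff.2 p.2.1.1).ne'
    rw [h1, Real.sqrt_sq (norm_nonneg _), ← h2, coe_cpart p.2.1.1, mul_div_cancel₀ _ h3, jn_pr]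
  right_inv q := by
    apply Subtype.ext
    refine Prod.ext ?_ rfl
    exact prY_jn _ _
  continuous_toFun := by
    refine Continuous.subtype_mk (Continuous.prodMk ?_ ?_) _
    · exact continuous_prY.comp (continuous_subtype_val.comp
        (continuous_fst.comp continuous_subtype_val))
    · exact continuous_snd.comp continuous_subtype_val
  continuous_invFun := by
    refine Continuous.subtype_mk (Continuous.prodMk (Continuous.subtype_mk ?_ _) ?_) _
    · refine continuous_jn.comp (Continuous.prodMk ?_ ?_)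
      · exact continuous_fst.comp continuous_subtype_val
      · refine Continuous.mul ?_ ?_
        · refine Complex.continuous_ofReal.comp (Real.continuous_sqrt.comp ?_)
          exact continuous_const.sub
            ((continuous_fst.comp continuous_subtype_val).norm.pow 2)
        · exact continuous_subtype_val.comp (Circle.exp.continuous.comp
            (continuous_snd.comp continuous_subtype_val))
    · exact continuous_snd.comp continuous_subtype_val

theorem sc_VV (e : M × ℝ → Sph 5) :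
    IsSimplyConnected (pbOn (VV e) (fun z => cpart (prC z.1))) := by
  have h1 : StarConvex ℝ ((0 : EuclideanSpace ℝ (Fin 6)), (0 : ℝ)) (St e ×ˢ (univ : Set ℝ)) :=
    (star_St e).prod (starConvex_univ _)
  have h2 : ContractibleSpace (St e ×ˢ (univ : Set ℝ) : Set _) :=
    h1.contractibleSpace ⟨(0, 0), zero_mem_St e, mem_univ _⟩
  have h3 : ContractibleSpace (pbOn (VV e) (fun z => cpart (prC z.1))) :=
    (hom e).contractibleSpace
  exact SimplyConnectedSpace.ofContractible _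

theorem isPathConnected_UV [PathConnectedSpace M] {e : M × ℝ → Sph 5} (he : IsOpenEmbedding e) :
    IsPathConnected (VV e ∩ {z | ∃ m s w, z = J (e (m, s), w)}) := by
  set D : Set (M × ((ℝ × ℝ) × ℝ)) :=
    (univ : Set M) ×ˢ ((Ioi (1 : ℝ) ×ˢ Ioo (0 : ℝ) Real.pi) ×ˢ (univ : Set ℝ)) with hD
  set Ψ : M × ((ℝ × ℝ) × ℝ) → Sph 7 := fun p => J (e (p.1, p.2.1.1 * Real.cos p.2.1.2),
    ((p.2.1.1 * Real.sin p.2.1.2 : ℝ) : ℂ) * (Circle.exp p.2.2 : ℂ)) with hΨ
  have hΨc : Continuous Ψ := by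
    refine isOpenEmbedding_J.continuous.comp (Continuous.prodMk (he.continuous.comp ?_) ?_)
    · exact continuous_fst.prodMk (by fun_prop)
    · refine Continuous.mul (Complex.continuous_ofReal.comp (by fun_prop)) ?_
      exact continuous_subtype_val.comp (Circle.exp.continuous.comp (by fun_prop))
  have hDp : IsPathConnected D := by
    refine IsPathConnected.prod isPathConnected_univ ?_
    refine Convex.isPathConnected (((convex_Ioi 1).prod (convex_Ioo 0 Real.pi)).prod convex_univ) ?_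
    exact ⟨((2, 1), 0), ⟨⟨by norm_num, ⟨by norm_num, by linarith [Real.pi_gt_three]⟩⟩, mem_univ _⟩⟩
  have hEq : VV e ∩ {z | ∃ m s w, z = J (e (m, s), w)} = Ψ '' D := by
    ext z
    constructor
    · rintro ⟨⟨h1, h2⟩, m, s, w, rfl⟩
      have hlt := h2 m s w rfl
      have hw : w ≠ 0 := by
        rintro rfl
        apply h1
        rw [prC_J, mul_zero]
      have hwn : 0 < ‖w‖ := norm_pos_iff.2 hw
      set ρ : ℝ := Real.sqrt (s ^ 2 + ‖w‖ ^ 2) with hρ
      have hρ2 : ρ ^ 2 = s ^ 2 + ‖w‖ ^ 2 := Real.sq_sqrt (by positivity)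
      have hρ1 : 1 < ρ := by
        rw [hρ, Real.lt_sqrt (by norm_num)]
        linarith
      have hρ0 : 0 < ρ := by linarith
      have hsρ : |s| < ρ := by
        refine abs_lt_of_sq_lt_sq ?_ hρ0.le
        rw [hρ2]
        nlinarith
      have ha := abs_lt.1 hsρ
      have h3 : -1 < s / ρ := by
        rw [lt_div_iff₀ hρ0]
        linarith
      have h4 : s / ρ < 1 := by
        rw [div_lt_one hρ0]
        exact ha.2
      have hcos : ρ * Real.cos (Real.arccos (s / ρ)) = s := by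
        rw [Real.cos_arccos h3.le h4.le]
        field_simp
      have hsin : ρ * Real.sin (Real.arccos (s / ρ)) = ‖w‖ := by
        rw [Real.sin_arccos]
        have h5 : 1 - (s / ρ) ^ 2 = (‖w‖ / ρ) ^ 2 := by
          rw [div_pow, div_pow, hρ2]
          have : s ^ 2 + ‖w‖ ^ 2 ≠ 0 := by positivity
          field_simp
          ring
        rw [h5, Real.sqrt_sq (by positivity)]
        field_simp
      refine ⟨(m, ((ρ, Real.arccos (s / ρ)), w.arg)), ⟨mem_univ _, ⟨hρ1, ?_, ?_⟩, mem_univ _⟩, ?_⟩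
      · exact Real.arccos_pos.2 h4
      · refine lt_of_le_of_ne (Real.arccos_le_pi _) fun h => ?_
        rw [Real.arccos_eq_pi] at h
        linarith
      · change J (e (m, ρ * Real.cos (Real.arccos (s / ρ))),
          ((ρ * Real.sin (Real.arccos (s / ρ)) : ℝ) : ℂ) * (Circle.exp w.arg : ℂ)) = _
        rw [hcos, hsin, Circle.coe_exp, Complex.norm_mul_exp_arg_mul_I]
    · rintro ⟨⟨m, ⟨⟨ρ, θ⟩, t⟩⟩, ⟨-, ⟨⟨hρ, hθ⟩, -⟩⟩, rfl⟩
      change 1 < ρ at hρ
      change θ ∈ Ioo 0 Real.pi at hθ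
      have hsin : 0 < Real.sin θ := Real.sin_pos_of_pos_of_lt_pi hθ.1 hθ.2
      have hρ0 : 0 < ρ := by linarith
      have hnn : ‖((ρ * Real.sin θ : ℝ) : ℂ) * (Circle.exp t : ℂ)‖ = ρ * Real.sin θ := by
        rw [norm_mul, Circle.norm_coe, mul_one, Complex.norm_real,
          Real.norm_of_nonneg (mul_pos hρ0 hsin).le]
      refine ⟨⟨?_, ?_⟩, m, ρ * Real.cos θ, _, rfl⟩
      · change prC (J (e (m, ρ * Real.cos θ), ((ρ * Real.sin θ : ℝ) : ℂ) * (Circle.exp t : ℂ))).1 ≠ 0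
        rw [prC_J]
        refine mul_ne_zero (Complex.ofReal_ne_zero.2 (inv_pos.2 (sqp _)).ne') ?_
        exact mul_ne_zero (Complex.ofReal_ne_zero.2 (mul_pos hρ0 hsin).ne') (Circle.coe_ne_zero _)
      · intro m' s' w' hz
        have h1 := isOpenEmbedding_J.injective hz
        have h2 : e (m, ρ * Real.cos θ) = e (m', s') := (Prod.ext_iff.1 h1).1
        have h3 : ((ρ * Real.sin θ : ℝ) : ℂ) * (Circle.exp t : ℂ) = w' := (Prod.ext_iff.1 h1).2
        have h4 : ρ * Real.cos θ = s' := (Prod.ext_iff.1 (he.injective h2)).2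
        rw [← h3, ← h4, hnn]
        have h5 : (ρ * Real.cos θ) ^ 2 + (ρ * Real.sin θ) ^ 2 = ρ ^ 2 := by
          have := Real.sin_sq_add_cos_sq θ
          calc (ρ * Real.cos θ) ^ 2 + (ρ * Real.sin θ) ^ 2
              = ρ ^ 2 * (Real.sin θ ^ 2 + Real.cos θ ^ 2) := by ring
            _ = ρ ^ 2 := by rw [this, mul_one]
        rw [h5]
        nlinarith
  rw [hEq]
  exact hDp.image hΨc

end Pool.Agent.Helper82.DK2
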