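import Pool.Agent.Helper82.DK2.ZtCov

/-!
# DK-P6: the two parts of the trefoil complement: elementary facts (about 120-200 lines)

* `isOpen_A1`, `isOpen_A2`: the slit plane is open, the functions are continuous where the
  denominator is not zero (`ContinuousOn.isOpen_inter_preimage`).
* `A1_union_A2`: if `x = 0` then `y ≠ 0` and the second quotient is `1`; if `y = 0` the first one is
  `1`. Otherwise put `q = y³/x²`. If `1 - q` is not in the slit plane, it is real and `≤ 0`, and not `0`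
  since `x² ≠ y³`, so `q` is real, `q > 1`, and `1 - 1/q ∈ (0, 1)` is in the slit plane.
* `isPathConnected_A12`: `A1 ∩ A2` is the set of the `(x, y)` with `x ≠ 0`, `y ≠ 0`,
  `y³/x² ∉ [0, ∞)` (if `q = y³/x²`, `1 - q` and `1 - 1/q` are in the slit plane iff `q ∉ [1, ∞)` and
  `q ∉ (0, 1]`). It is the image of the path connected set `ℝ × (0, ∞) × (0, 2π/3)` under the
  continuous map
  `(t, r, φ) ↦ (ρ^3 e^{3it}, ρ^2 e^{2it} r e^{iφ})`, `ρ = |1 - r³ e^{3iφ}|^(-1/6)`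
  (`x² - y³ = ρ^6 e^{6it} (1 - r³e^{3iφ})`). Surjectivity: given `(x, y)` in the set, let
  `r = (|y|³/|x|²)^(1/3)`, choose `φ ∈ (0, 2π/3)` with `e^{3iφ} = (y³/x²)/r³` (its argument in
  `(0, 2π)` divided by three), put `y' = y / (r e^{iφ})`; then `y'³ = x²`·(positive) with
  `|y'|³ = |x|²`, so `y'³ = x²`; `ρ e^{it} := x / y'` satisfies `(x / y')³ = x³/y'³ = x` and
  `(x / y')² = x²/y'² = y'`.
* `zt_angle_one`: along a loop in `A1`: `x² - y³ = x² · Q`, `Q = (x² - y³)/x²` in the slit plane, so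
  `zt = zt1 ^ 2 * exp (arg Q)` with `arg Q` continuous (`HasAngle.zpow`, `.mul`, `.of_exp`, `.congr`; the
  last factor has angle `0` on a loop).
* `zt_angle_two`: `x² - y³ = - y³ Q'`, so `zt = exp π * zt2 ^ 3 * exp (arg Q')`.
* `exists_eta`: `η s = (x e^{3 i 2π s}, y e^{2 i 2π s})`, `s ∈ [0, 1]`; `x² - y³` is multiplied by
  `e^{12 i π s}`, and `y³/x²` does not change.
-/

namespace Pool.Agent.Helper82.DK2

open Set Topology Complex Pool.Agent.Helper31.DS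

private theorem zta_ne (q : ↥Zt) : q.1.1 ^ 2 - q.1.2 ^ 3 ≠ 0 := by
  intro h
  have h1 : ‖q.1.1 ^ 2 - q.1.2 ^ 3‖ = 1 := q.2
  rw [h, norm_zero] at h1
  exact zero_ne_one h1

private theorem zta_x : Continuous fun q : ↥Zt => q.1.1 := continuous_fst.comp continuous_subtype_val

private theorem zta_y : Continuous fun q : ↥Zt => q.1.2 := continuous_snd.comp continuous_subtype_val

theorem continuous_zt : Continuous zt :=
  continuousOn_cpart.comp_continuous ((zta_x.pow 2).sub (zta_y.pow 3)) zta_ne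

theorem coe_zt (q : ↥Zt) : (zt q : ℂ) = q.1.1 ^ 2 - q.1.2 ^ 3 := by
  have h1 : ‖q.1.1 ^ 2 - q.1.2 ^ 3‖ = 1 := q.2
  unfold zt
  rw [coe_cpart (zta_ne q), h1, Complex.ofReal_one, div_one]

theorem continuousOn_zt1 : ContinuousOn zt1 A1 :=
  continuousOn_cpart.comp zta_x.continuousOn fun _ hq => hq.1

theorem continuousOn_zt2 : ContinuousOn zt2 A2 :=
  continuousOn_cpart.comp zta_y.continuousOn fun _ hq => hq.1

private theorem zta_cont1 : ContinuousOn (fun q : ↥Zt => (q.1.1 ^ 2 - q.1.2 ^ 3) / q.1.1 ^ 2)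
    {q | q.1.1 ≠ 0} :=
  ContinuousOn.div ((zta_x.pow 2).sub (zta_y.pow 3)).continuousOn (zta_x.pow 2).continuousOn
    fun _ hq => pow_ne_zero _ hq

private theorem zta_cont2 : ContinuousOn (fun q : ↥Zt => (q.1.2 ^ 3 - q.1.1 ^ 2) / q.1.2 ^ 3)
    {q | q.1.2 ≠ 0} :=
  ContinuousOn.div ((zta_y.pow 3).sub (zta_x.pow 2)).continuousOn (zta_y.pow 3).continuousOn
    fun _ hq => pow_ne_zero _ hq

theorem isOpen_A1 : IsOpen A1 :=
  zta_cont1.isOpen_inter_preimage (isOpen_ne_fun zta_x continuous_const) isOpen_slitPlane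

theorem isOpen_A2 : IsOpen A2 :=
  zta_cont2.isOpen_inter_preimage (isOpen_ne_fun zta_y continuous_const) isOpen_slitPlane

theorem A1_union_A2 : A1 ∪ A2 = univ := by
  rw [eq_univ_iff_forall]
  intro q
  by_cases hx : q.1.1 = 0
  · right
    have hy : q.1.2 ≠ 0 := by
      intro hy
      apply zta_ne q
      rw [hx, hy]
      ring
    refine ⟨hy, ?_⟩
    rw [hx]
    have h1 : (q.1.2 ^ 3 - 0 ^ 2) / q.1.2 ^ 3 = 1 := by
      field_simp
      ring
    rw [h1]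
    exact one_mem_slitPlane
  by_cases hy : q.1.2 = 0
  · left
    refine ⟨hx, ?_⟩
    rw [hy]
    have h1 : (q.1.1 ^ 2 - 0 ^ 3) / q.1.1 ^ 2 = 1 := by
      field_simp
      ring
    rw [h1]
    exact one_mem_slitPlane
  by_cases h : (q.1.1 ^ 2 - q.1.2 ^ 3) / q.1.1 ^ 2 ∈ slitPlane
  · exact Or.inl ⟨hx, h⟩
  right
  refine ⟨hy, ?_⟩
  rw [mem_slitPlane_iff, not_or, not_lt, not_not] at h
  obtain ⟨hre, him⟩ := h
  set r : ℝ := ((q.1.1 ^ 2 - q.1.2 ^ 3) / q.1.1 ^ 2).re with hr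
  have h1 : (q.1.1 ^ 2 - q.1.2 ^ 3) / q.1.1 ^ 2 = (r : ℂ) := by
    apply Complex.ext
    · rw [hr, Complex.ofReal_re]
    · rw [him, Complex.ofReal_im]
  have h2 : q.1.2 ^ 3 = (1 - (r : ℂ)) * q.1.1 ^ 2 := by
    rw [div_eq_iff (pow_ne_zero 2 hx)] at h1
    linear_combination -h1
  have h3 : (1 - (r : ℂ)) ≠ 0 := by
    have h4 : (0 : ℝ) < 1 - r := by linarith
    have h5 : (1 - (r : ℂ)) = ((1 - r : ℝ) : ℂ) := by push_cast; ring
    rw [h5]
    exact_mod_cast h4.ne'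
  have h4 : (q.1.2 ^ 3 - q.1.1 ^ 2) / q.1.2 ^ 3 = ((-r / (1 - r) : ℝ) : ℂ) := by
    rw [h2]
    push_cast
    field_simp
    ring
  have hr0 : r ≠ 0 := by
    intro h5
    rw [h5, Complex.ofReal_zero, div_eq_zero_iff] at h1
    rcases h1 with h1 | h1
    · exact zta_ne q h1
    · exact pow_ne_zero 2 hx h1
  rw [h4, mem_slitPlane_iff, Complex.ofReal_re]
  left
  have h5 : r < 0 := lt_of_le_of_ne hre hr0
  have h6 : 0 < -r := by linarith
  have h7 : 0 < 1 - r := by linarith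
  positivity

/-- `1 - c e^{iθ}` is in the slit plane -/
private theorem zta_slit {c θ : ℝ} (hc : 0 < c) (h0 : 0 < θ) (h1 : θ < 2 * Real.pi) :
    1 - (c : ℂ) * Complex.exp (θ * I) ∈ slitPlane := by
  rw [mem_slitPlane_iff]
  have hre : (1 - (c : ℂ) * Complex.exp (θ * I)).re = 1 - c * Real.cos θ := by
    rw [Complex.sub_re, Complex.one_re, Complex.re_ofReal_mul, Complex.exp_ofReal_mul_I_re]
  have him : (1 - (c : ℂ) * Complex.exp (θ * I)).im = - (c * Real.sin θ) := by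
    rw [Complex.sub_im, Complex.one_im, Complex.im_ofReal_mul, Complex.exp_ofReal_mul_I_im, zero_sub]
  rw [hre, him]
  by_cases hs : Real.sin θ = 0
  · left
    have h2 : θ = Real.pi := by
      rcases lt_trichotomy θ Real.pi with h3 | h3 | h3
      · exact absurd hs (Real.sin_pos_of_pos_of_lt_pi h0 h3).ne'
      · exact h3
      · have h4 : 0 < Real.sin (θ - Real.pi) :=
          Real.sin_pos_of_pos_of_lt_pi (by linarith) (by linarith)
        rw [Real.sin_sub_pi, hs] at h4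
        simp at h4
    rw [h2, Real.cos_pi]
    linarith
  · right
    exact neg_ne_zero.2 (mul_ne_zero hc.ne' hs)

/-- the parameters -/
private def ztaD : Set (ℝ × ℝ × ℝ) := univ ×ˢ (Ioi 0 ×ˢ Ioo 0 (2 * Real.pi / 3))

private theorem ztaD_path : IsPathConnected ztaD := by
  apply Convex.isPathConnected
  · exact convex_univ.prod ((convex_Ioi 0).prod (convex_Ioo 0 _))
  · exact ⟨(0, 1, Real.pi / 3), mem_univ _, by norm_num, by
      constructor
      · show 0 < Real.pi / 3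
        positivity
      · show Real.pi / 3 < 2 * Real.pi / 3
        have := Real.pi_pos
        linarith⟩

private noncomputable def ztaQ (p : ℝ × ℝ × ℝ) : ℂ :=
  ((p.2.1 ^ 3 : ℝ) : ℂ) * Complex.exp (((3 * p.2.2 : ℝ) : ℂ) * I)

private noncomputable def ztaR (p : ℝ × ℝ × ℝ) : ℝ := ‖1 - ztaQ p‖ ^ (-(1 / 6) : ℝ)

private theorem ztaQ_slit {p : ℝ × ℝ × ℝ} (hp : p ∈ ztaD) : 1 - ztaQ p ∈ slitPlane := by
  obtain ⟨_, h1, h2, h3⟩ := hp
  have h1' : 0 < p.2.1 := h1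
  exact zta_slit (by positivity) (by linarith) (by linarith)

private theorem ztaQ_slit' {p : ℝ × ℝ × ℝ} (hp : p ∈ ztaD) : 1 - (ztaQ p)⁻¹ ∈ slitPlane := by
  obtain ⟨_, h1, h2, h3⟩ := hp
  have h1' : 0 < p.2.1 := h1
  have h4 := zta_slit (c := (p.2.1 ^ 3)⁻¹) (θ := 2 * Real.pi - 3 * p.2.2) (by positivity)
    (by linarith) (by linarith)
  have h5 : (ztaQ p)⁻¹ = (((p.2.1 ^ 3)⁻¹ : ℝ) : ℂ) *
      Complex.exp (((2 * Real.pi - 3 * p.2.2 : ℝ) : ℂ) * I) := by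
    unfold ztaQ
    rw [mul_inv, ← Complex.exp_neg, Complex.ofReal_inv]
    congr 1
    have h6 : ((2 * Real.pi - 3 * p.2.2 : ℝ) : ℂ) * I =
        -(((3 * p.2.2 : ℝ) : ℂ) * I) + 2 * Real.pi * I := by
      push_cast
      ring
    rw [h6, Complex.exp_add, Complex.exp_two_pi_mul_I, mul_one]
  rwa [h5]

private theorem ztaR_pos {p : ℝ × ℝ × ℝ} (hp : p ∈ ztaD) : 0 < ztaR p :=
  Real.rpow_pos_of_pos (norm_pos_iff.2 (slitPlane_ne_zero (ztaQ_slit hp))) _

private theorem ztaR_pow {p : ℝ × ℝ × ℝ} (hp : p ∈ ztaD) :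
    ztaR p ^ 6 * ‖1 - ztaQ p‖ = 1 := by
  have h0 : 0 < ‖1 - ztaQ p‖ := norm_pos_iff.2 (slitPlane_ne_zero (ztaQ_slit hp))
  unfold ztaR
  rw [← Real.rpow_natCast, ← Real.rpow_mul h0.le]
  have h1 : (-(1 / 6) : ℝ) * ((6 : ℕ) : ℝ) = -1 := by norm_num
  rw [h1, Real.rpow_neg_one, inv_mul_cancel₀ h0.ne']

private noncomputable def ztaC (p : ℝ × ℝ × ℝ) : ℂ := (ztaR p : ℂ) * Complex.exp (p.1 * I)

private noncomputable def ztaF (p : ℝ × ℝ × ℝ) : ℂ × ℂ :=
  (ztaC p ^ 3, ztaC p ^ 2 * ((p.2.1 : ℂ) * Complex.exp (p.2.2 * I)))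

private theorem ztaQ_cube (p : ℝ × ℝ × ℝ) :
    ((p.2.1 : ℂ) * Complex.exp (p.2.2 * I)) ^ 3 = ztaQ p := by
  unfold ztaQ
  rw [mul_pow, ← Complex.exp_nat_mul]
  push_cast
  congr 2
  ring

private theorem ztaF_sub (p : ℝ × ℝ × ℝ) :
    (ztaF p).1 ^ 2 - (ztaF p).2 ^ 3 = ztaC p ^ 6 * (1 - ztaQ p) := by
  rw [← ztaQ_cube]
  unfold ztaF
  ring

private theorem ztaC_norm {p : ℝ × ℝ × ℝ} (hp : p ∈ ztaD) : ‖ztaC p‖ = ztaR p := by
  unfold ztaC
  rw [norm_mul, Complex.norm_exp_ofReal_mul_I, mul_one, Complex.norm_real,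
    Real.norm_of_nonneg (ztaR_pos hp).le]

private theorem ztaF_mem {p : ℝ × ℝ × ℝ} (hp : p ∈ ztaD) : ztaF p ∈ Zt := by
  show ‖(ztaF p).1 ^ 2 - (ztaF p).2 ^ 3‖ = 1
  rw [ztaF_sub, norm_mul, norm_pow, ztaC_norm hp, ztaR_pow hp]

private theorem ztaF_cont : ContinuousOn ztaF ztaD := by
  have hQ : Continuous ztaQ := by
    unfold ztaQ
    fun_prop
  have hR : ContinuousOn ztaR ztaD := by
    unfold ztaR
    apply ContinuousOn.rpow_const
    · exact (continuous_const.sub hQ).norm.continuousOn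
    · intro p hp
      left
      exact norm_ne_zero_iff.2 (slitPlane_ne_zero (ztaQ_slit hp))
  have hC : ContinuousOn ztaC ztaD := by
    unfold ztaC
    exact (Complex.continuous_ofReal.comp_continuousOn hR).mul (by fun_prop)
  unfold ztaF
  exact (hC.pow 3).prodMk ((hC.pow 2).mul (by fun_prop))

private noncomputable def ztaP (p : ↥ztaD) : ↥Zt := ⟨ztaF p, ztaF_mem p.2⟩

private theorem ztaP_cont : Continuous ztaP :=
  (continuousOn_iff_continuous_domRestrict.1 ztaF_cont).subtype_mk _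

private theorem ztaP_range : range ztaP = A1 ∩ A2 := by
  ext q
  constructor
  · rintro ⟨⟨p, hp⟩, rfl⟩
    have hC : ztaC p ≠ 0 := by
      rw [← norm_ne_zero_iff, ztaC_norm hp]
      exact (ztaR_pos hp).ne'
    have hr : (p.2.1 : ℂ) ≠ 0 := by
      have : 0 < p.2.1 := hp.2.1
      exact_mod_cast this.ne'
    have hQ0 : ztaQ p ≠ 0 := by
      rw [← ztaQ_cube]
      exact pow_ne_zero _ (mul_ne_zero hr (Complex.exp_ne_zero _))
    have hx : (ztaF p).1 ≠ 0 := pow_ne_zero _ hC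
    have hy : (ztaF p).2 ≠ 0 :=
      mul_ne_zero (pow_ne_zero _ hC) (mul_ne_zero hr (Complex.exp_ne_zero _))
    have h2 : (ztaF p).1 ^ 2 = ztaC p ^ 6 := by
      unfold ztaF
      ring
    have h3 : (ztaF p).2 ^ 3 = ztaC p ^ 6 * ztaQ p := by
      rw [← ztaQ_cube]
      unfold ztaF
      ring
    constructor
    · refine ⟨hx, ?_⟩
      show ((ztaF p).1 ^ 2 - (ztaF p).2 ^ 3) / (ztaF p).1 ^ 2 ∈ slitPlane
      have h4 : ((ztaF p).1 ^ 2 - (ztaF p).2 ^ 3) / (ztaF p).1 ^ 2 = 1 - ztaQ p := by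
        rw [h2, h3]
        field_simp
      rw [h4]
      exact ztaQ_slit hp
    · refine ⟨hy, ?_⟩
      show ((ztaF p).2 ^ 3 - (ztaF p).1 ^ 2) / (ztaF p).2 ^ 3 ∈ slitPlane
      have h4 : ((ztaF p).2 ^ 3 - (ztaF p).1 ^ 2) / (ztaF p).2 ^ 3 = 1 - (ztaQ p)⁻¹ := by
        rw [h2, h3]
        field_simp
      rw [h4]
      exact ztaQ_slit' hp
  · rintro ⟨⟨hx, h1⟩, hy, h2⟩
    set x := q.1.1 with hxdef
    set y := q.1.2 with hydef
    have hx2 : x ^ 2 ≠ 0 := pow_ne_zero _ hx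
    have hy3 : y ^ 3 ≠ 0 := pow_ne_zero _ hy
    obtain ⟨Q, hQ⟩ : ∃ Q, Q = y ^ 3 / x ^ 2 := ⟨_, rfl⟩
    have hQ0 : Q ≠ 0 := by
      rw [hQ]
      exact div_ne_zero hy3 hx2
    have e1 : (x ^ 2 - y ^ 3) / x ^ 2 = 1 - Q := by
      rw [hQ]
      field_simp
    have e2 : (y ^ 3 - x ^ 2) / y ^ 3 = 1 - Q⁻¹ := by
      rw [hQ]
      field_simp
    rw [e1] at h1
    rw [e2] at h2
    have hneg : -Q ∈ slitPlane := by
      by_contra h
      rw [mem_slitPlane_iff, not_or, not_lt, not_not] at h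
      obtain ⟨hre, him⟩ := h
      have h3 : Q = ((Q.re : ℝ) : ℂ) := by
        apply Complex.ext
        · rw [Complex.ofReal_re]
        · rw [Complex.ofReal_im]
          rw [Complex.neg_im, neg_eq_zero] at him
          exact him
      obtain ⟨s, hs⟩ : ∃ s : ℝ, s = Q.re := ⟨_, rfl⟩
      rw [← hs] at h3
      rw [h3] at h1 h2 hQ0 hre
      have hs0 : s ≠ 0 := by exact_mod_cast hQ0
      rw [Complex.neg_re, Complex.ofReal_re] at hre
      have hs1 : 0 < s := lt_of_le_of_ne (by linarith) (Ne.symm hs0)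
      have h4 : (1 : ℂ) - (s : ℂ) = ((1 - s : ℝ) : ℂ) := by push_cast; ring
      have h5 : (1 : ℂ) - (s : ℂ)⁻¹ = ((1 - s⁻¹ : ℝ) : ℂ) := by push_cast; ring
      rw [h4, ofReal_mem_slitPlane] at h1
      rw [h5, ofReal_mem_slitPlane] at h2
      have h6 : s⁻¹ < 1 := by linarith
      have h7 : 1 < s := by
        have := (inv_lt_one₀ hs1).1 h6
        exact this
      linarith
    have harg := mem_slitPlane_iff_arg.1 hneg
    have ha1 := neg_pi_lt_arg (-Q)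
    have ha2 := arg_le_pi (-Q)
    have ha3 : arg (-Q) < Real.pi := lt_of_le_of_ne ha2 harg.1
    have hn : 0 < ‖Q‖ := norm_pos_iff.2 hQ0
    obtain ⟨r, hr⟩ : ∃ r : ℝ, r = ‖Q‖ ^ ((1 / 3 : ℝ)) := ⟨_, rfl⟩
    have hr0 : 0 < r := by
      rw [hr]
      exact Real.rpow_pos_of_pos hn _
    have hr3 : r ^ 3 = ‖Q‖ := by
      rw [hr, ← Real.rpow_natCast, ← Real.rpow_mul hn.le]
      have h3 : (1 / 3 : ℝ) * ((3 : ℕ) : ℝ) = 1 := by norm_num
      rw [h3, Real.rpow_one]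
    obtain ⟨φ, hφ⟩ : ∃ φ : ℝ, φ = (arg (-Q) + Real.pi) / 3 := ⟨_, rfl⟩
    obtain ⟨e, he⟩ : ∃ e : ℂ, e = (r : ℂ) * Complex.exp (φ * I) := ⟨_, rfl⟩
    have hQeq : ∀ t : ℝ, ztaQ (t, r, φ) = Q := by
      intro t
      unfold ztaQ
      simp only
      rw [hr3, hφ]
      have h3 : ((3 * ((arg (-Q) + Real.pi) / 3) : ℝ) : ℂ) * I = arg (-Q) * I + Real.pi * I := by
        push_cast
        ring
      rw [h3, Complex.exp_add, Complex.exp_pi_mul_I]
      have h4 := norm_mul_exp_arg_mul_I (-Q)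
      rw [norm_neg] at h4
      linear_combination -h4
    have he3 : e ^ 3 = Q := by
      rw [he, ← hQeq 0]
      exact ztaQ_cube (0, r, φ)
    have he0 : e ≠ 0 := by
      intro h
      apply hQ0
      rw [← he3, h]
      ring
    obtain ⟨y', hy'⟩ : ∃ y' : ℂ, y' = y / e := ⟨_, rfl⟩
    have hy'0 : y' ≠ 0 := by
      rw [hy']
      exact div_ne_zero hy he0
    have hy'3 : y' ^ 3 = x ^ 2 := by
      rw [hy', div_pow, he3, hQ]
      field_simp
    obtain ⟨c, hc⟩ : ∃ c : ℂ, c = x / y' := ⟨_, rfl⟩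
    have hc3 : c ^ 3 = x := by
      rw [hc, div_pow, hy'3]
      field_simp
    have hc2 : c ^ 2 = y' := by
      rw [hc, div_pow, ← hy'3]
      field_simp
    have hye : c ^ 2 * e = y := by
      rw [hc2, hy']
      field_simp
    have hD : ((arg c, r, φ) : ℝ × ℝ × ℝ) ∈ ztaD := by
      refine ⟨mem_univ _, hr0, ?_, ?_⟩
      · show 0 < φ
        rw [hφ]
        linarith
      · show φ < 2 * Real.pi / 3
        rw [hφ]
        linarith
    have hR : ztaR (arg c, r, φ) = ‖c‖ := by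
      have h3 := ztaR_pow hD
      rw [hQeq] at h3
      have h4 : ‖c‖ ^ 6 * ‖1 - Q‖ = 1 := by
        rw [← norm_pow, ← norm_mul]
        have h5 : c ^ 6 * (1 - Q) = x ^ 2 - y ^ 3 := by
          rw [← hye, ← he3, ← hc3]
          ring
        rw [h5]
        exact q.2
      have h5 : 0 < ‖1 - Q‖ := norm_pos_iff.2 (slitPlane_ne_zero h1)
      have h6 : ztaR (arg c, r, φ) ^ 6 = ‖c‖ ^ 6 := mul_right_cancel₀ h5.ne' (h3.trans h4.symm)
      exact (pow_left_inj₀ (ztaR_pos hD).le (norm_nonneg c) (by norm_num)).1 h6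
    have hC : ztaC (arg c, r, φ) = c := by
      unfold ztaC
      rw [hR]
      exact norm_mul_exp_arg_mul_I c
    refine ⟨⟨(arg c, r, φ), hD⟩, ?_⟩
    apply Subtype.ext
    show ztaF (arg c, r, φ) = q.1
    unfold ztaF
    rw [hC, hc3]
    show (x, c ^ 2 * ((r : ℂ) * Complex.exp (φ * I))) = q.1
    rw [← he, hye]

theorem isPathConnected_A12 : IsPathConnected (A1 ∩ A2) := by
  rw [← ztaP_range]
  have := isPathConnected_iff_pathConnectedSpace.1 ztaD_path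
  exact isPathConnected_range ztaP_cont

theorem zt_angle_one {q : ↥Zt} (γ : Path q q) (hγ : ∀ t, γ t ∈ A1) (r : ℝ)
    (h : HasAngle zt1 γ r) : HasAngle zt γ (2 * r) := by
  have h1 := h.zpow 2
  have hc : Continuous fun t => arg (((γ t).1.1 ^ 2 - (γ t).1.2 ^ 3) / (γ t).1.1 ^ 2) := by
    rw [continuous_iff_continuousAt]
    intro t
    have h2 : ContinuousAt (fun q : ↥Zt => (q.1.1 ^ 2 - q.1.2 ^ 3) / q.1.1 ^ 2) (γ t) :=
      zta_cont1.continuousAt ((isOpen_ne_fun zta_x continuous_const).mem_nhds (hγ t).1)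
    have h3 : ContinuousAt (fun t => ((γ t).1.1 ^ 2 - (γ t).1.2 ^ 3) / (γ t).1.1 ^ 2) t :=
      h2.comp (f := γ) γ.continuous.continuousAt
    exact (continuousAt_arg (hγ t).2).comp (f := fun t => ((γ t).1.1 ^ 2 - (γ t).1.2 ^ 3) / (γ t).1.1 ^ 2) h3
  have h2 := HasAngle.of_exp (g := fun q : ↥Zt => Circle.exp (arg ((q.1.1 ^ 2 - q.1.2 ^ 3) / q.1.1 ^ 2)))
    (l := fun q : ↥Zt => arg ((q.1.1 ^ 2 - q.1.2 ^ 3) / q.1.1 ^ 2)) γ hc (fun _ => rfl)
  have h3 := h1.mul h2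
  rw [sub_self, add_zero] at h3
  refine HasAngle.congr (by exact_mod_cast h3) ?_
  intro t
  have hx := (hγ t).1
  have hw := zta_ne (γ t)
  show cpart ((γ t).1.1 ^ 2 - (γ t).1.2 ^ 3) = cpart (γ t).1.1 ^ (2 : ℤ) *
    cpart (((γ t).1.1 ^ 2 - (γ t).1.2 ^ 3) / (γ t).1.1 ^ 2)
  have e : (γ t).1.1 ^ 2 - (γ t).1.2 ^ 3 =
      (γ t).1.1 * (γ t).1.1 * (((γ t).1.1 ^ 2 - (γ t).1.2 ^ 3) / (γ t).1.1 ^ 2) := by
    field_simp
  conv_lhs => rw [e]
  rw [cpart_mul (mul_ne_zero hx hx) (div_ne_zero hw (pow_ne_zero _ hx)), cpart_mul hx hx]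
  congr 1
  rw [zpow_two]

theorem zt_angle_two {q : ↥Zt} (γ : Path q q) (hγ : ∀ t, γ t ∈ A2) (r : ℝ)
    (h : HasAngle zt2 γ r) : HasAngle zt γ (3 * r) := by
  have h1 := h.zpow 3
  have hc : Continuous fun t => Real.pi +
      arg (((γ t).1.2 ^ 3 - (γ t).1.1 ^ 2) / (γ t).1.2 ^ 3) := by
    rw [continuous_iff_continuousAt]
    intro t
    have h2 : ContinuousAt (fun q : ↥Zt => (q.1.2 ^ 3 - q.1.1 ^ 2) / q.1.2 ^ 3) (γ t) :=
      zta_cont2.continuousAt ((isOpen_ne_fun zta_y continuous_const).mem_nhds (hγ t).1)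
    have h3 : ContinuousAt (fun t => ((γ t).1.2 ^ 3 - (γ t).1.1 ^ 2) / (γ t).1.2 ^ 3) t :=
      h2.comp (f := γ) γ.continuous.continuousAt
    exact continuousAt_const.add ((continuousAt_arg (hγ t).2).comp
      (f := fun t => ((γ t).1.2 ^ 3 - (γ t).1.1 ^ 2) / (γ t).1.2 ^ 3) h3)
  have h2 := HasAngle.of_exp
    (g := fun q : ↥Zt => Circle.exp (Real.pi + arg ((q.1.2 ^ 3 - q.1.1 ^ 2) / q.1.2 ^ 3)))
    (l := fun q : ↥Zt => Real.pi + arg ((q.1.2 ^ 3 - q.1.1 ^ 2) / q.1.2 ^ 3)) γ hc (fun _ => rfl)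
  have h3 := h1.mul h2
  rw [sub_self, add_zero] at h3
  refine HasAngle.congr (by exact_mod_cast h3) ?_
  intro t
  have hy := (hγ t).1
  have hw : (γ t).1.2 ^ 3 - (γ t).1.1 ^ 2 ≠ 0 := by
    intro h
    apply zta_ne (γ t)
    linear_combination -h
  show cpart ((γ t).1.1 ^ 2 - (γ t).1.2 ^ 3) = cpart (γ t).1.2 ^ (3 : ℤ) *
    Circle.exp (Real.pi + arg (((γ t).1.2 ^ 3 - (γ t).1.1 ^ 2) / (γ t).1.2 ^ 3))
  have e : (γ t).1.1 ^ 2 - (γ t).1.2 ^ 3 =
      (γ t).1.2 * (γ t).1.2 * (γ t).1.2 *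
        ((-1) * (((γ t).1.2 ^ 3 - (γ t).1.1 ^ 2) / (γ t).1.2 ^ 3)) := by
    field_simp
    ring
  have hm : (-1 : ℂ) ≠ 0 := by norm_num
  have hq := div_ne_zero hw (pow_ne_zero 3 hy)
  conv_lhs => rw [e]
  rw [cpart_mul (mul_ne_zero (mul_ne_zero hy hy) hy) (mul_ne_zero hm hq), cpart_mul hm hq,
    cpart_mul (mul_ne_zero hy hy) hy, cpart_mul hy hy]
  have e2 : cpart (-1 : ℂ) = Circle.exp Real.pi := by
    unfold cpart
    rw [arg_neg_one]
  rw [e2, Circle.exp_add]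
  have e3 : cpart (γ t).1.2 ^ (3 : ℤ) = cpart (γ t).1.2 * cpart (γ t).1.2 * cpart (γ t).1.2 := by
    rw [show (3 : ℤ) = ((3 : ℕ) : ℤ) from rfl, zpow_natCast, pow_succ, pow_two]
  rw [e3]
  rfl

theorem exists_eta (q : ↥Zt) (hq : q ∈ A1 ∩ A2) :
    ∃ η : Path q q, (∀ t, η t ∈ A1 ∩ A2) ∧ HasAngle zt η (12 * Real.pi) := by
  obtain ⟨⟨hx, h1⟩, hy, h2⟩ := hq
  have hfun : ∀ s : ℝ, (q.1.1 * Complex.exp (((6 * Real.pi * s : ℝ) : ℂ) * I)) ^ 2 -
      (q.1.2 * Complex.exp (((4 * Real.pi * s : ℝ) : ℂ) * I)) ^ 3 =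
      (q.1.1 ^ 2 - q.1.2 ^ 3) * Complex.exp (((12 * Real.pi * s : ℝ) : ℂ) * I) := by
    intro s
    rw [mul_pow, mul_pow, ← Complex.exp_nat_mul, ← Complex.exp_nat_mul]
    have e1 : ((2 : ℕ) : ℂ) * (((6 * Real.pi * s : ℝ) : ℂ) * I) =
        ((12 * Real.pi * s : ℝ) : ℂ) * I := by
      push_cast
      ring
    have e2 : ((3 : ℕ) : ℂ) * (((4 * Real.pi * s : ℝ) : ℂ) * I) =
        ((12 * Real.pi * s : ℝ) : ℂ) * I := by
      push_cast
      ring
    rw [e1, e2]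
    ring
  have hmem : ∀ s : ℝ, (q.1.1 * Complex.exp (((6 * Real.pi * s : ℝ) : ℂ) * I),
      q.1.2 * Complex.exp (((4 * Real.pi * s : ℝ) : ℂ) * I)) ∈ Zt := by
    intro s
    show ‖(q.1.1 * Complex.exp (((6 * Real.pi * s : ℝ) : ℂ) * I)) ^ 2 -
      (q.1.2 * Complex.exp (((4 * Real.pi * s : ℝ) : ℂ) * I)) ^ 3‖ = 1
    rw [hfun, norm_mul, Complex.norm_exp_ofReal_mul_I, mul_one]
    exact q.2
  let η : Path q q :=
    { toFun := fun s => ⟨_, hmem s⟩
      continuous_toFun := by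
        apply Continuous.subtype_mk
        fun_prop
      source' := by
        apply Subtype.ext
        apply Prod.ext
        · show q.1.1 * Complex.exp (((6 * Real.pi * ((0 : unitInterval) : ℝ) : ℝ) : ℂ) * I) = q.1.1
          simp
        · show q.1.2 * Complex.exp (((4 * Real.pi * ((0 : unitInterval) : ℝ) : ℝ) : ℂ) * I) = q.1.2
          simp
      target' := by
        apply Subtype.ext
        apply Prod.ext
        · show q.1.1 * Complex.exp (((6 * Real.pi * ((1 : unitInterval) : ℝ) : ℝ) : ℂ) * I) = q.1.1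
          have e : ((6 * Real.pi * ((1 : unitInterval) : ℝ) : ℝ) : ℂ) * I =
              ((3 : ℕ) : ℂ) * (2 * Real.pi * I) := by
            rw [Set.Icc.coe_one]
            push_cast
            ring
          rw [e, Complex.exp_nat_mul_two_pi_mul_I, mul_one]
        · show q.1.2 * Complex.exp (((4 * Real.pi * ((1 : unitInterval) : ℝ) : ℝ) : ℂ) * I) = q.1.2
          have e : ((4 * Real.pi * ((1 : unitInterval) : ℝ) : ℝ) : ℂ) * I =
              ((2 : ℕ) : ℂ) * (2 * Real.pi * I) := by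
            rw [Set.Icc.coe_one]
            push_cast
            ring
          rw [e, Complex.exp_nat_mul_two_pi_mul_I, mul_one] }
  have hη : ∀ s : unitInterval, (η s).1 = (q.1.1 * Complex.exp (((6 * Real.pi * s : ℝ) : ℂ) * I),
      q.1.2 * Complex.exp (((4 * Real.pi * s : ℝ) : ℂ) * I)) := fun _ => rfl
  have hx' : ∀ s : unitInterval, (η s).1.1 ^ 2 =
      q.1.1 ^ 2 * Complex.exp (((12 * Real.pi * s : ℝ) : ℂ) * I) := by
    intro s
    rw [hη, mul_pow, ← Complex.exp_nat_mul]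
    have e1 : ((2 : ℕ) : ℂ) * (((6 * Real.pi * s : ℝ) : ℂ) * I) =
        ((12 * Real.pi * s : ℝ) : ℂ) * I := by
      push_cast
      ring
    rw [e1]
  have hy' : ∀ s : unitInterval, (η s).1.2 ^ 3 =
      q.1.2 ^ 3 * Complex.exp (((12 * Real.pi * s : ℝ) : ℂ) * I) := by
    intro s
    rw [hη, mul_pow, ← Complex.exp_nat_mul]
    have e1 : ((3 : ℕ) : ℂ) * (((4 * Real.pi * s : ℝ) : ℂ) * I) =
        ((12 * Real.pi * s : ℝ) : ℂ) * I := by
      push_cast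
      ring
    rw [e1]
  refine ⟨η, ?_, ?_⟩
  · intro s
    have hE := Complex.exp_ne_zero (((12 * Real.pi * s : ℝ) : ℂ) * I)
    constructor
    · refine ⟨mul_ne_zero hx (Complex.exp_ne_zero _), ?_⟩
      rw [hx', hy', ← sub_mul, mul_div_mul_right _ _ hE]
      exact h1
    · refine ⟨mul_ne_zero hy (Complex.exp_ne_zero _), ?_⟩
      rw [hx', hy', ← sub_mul, mul_div_mul_right _ _ hE]
      exact h2
  · refine ⟨⟨fun s => 12 * Real.pi * s + arg (q.1.1 ^ 2 - q.1.2 ^ 3), by fun_prop⟩, ?_, ?_⟩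
    · intro s
      show cpart ((η s).1.1 ^ 2 - (η s).1.2 ^ 3) = Circle.exp (12 * Real.pi * s + arg (q.1.1 ^ 2 - q.1.2 ^ 3))
      rw [hx', hy', ← sub_mul, cpart_mul (zta_ne q) (Complex.exp_ne_zero _), Circle.exp_add, mul_comm]
      congr 1
      rw [← Circle.coe_exp, cpart_coe]
    · show 12 * Real.pi * ((1 : unitInterval) : ℝ) + arg (q.1.1 ^ 2 - q.1.2 ^ 3) -
        (12 * Real.pi * ((0 : unitInterval) : ℝ) + arg (q.1.1 ^ 2 - q.1.2 ^ 3)) = 12 * Real.pi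
      rw [Set.Icc.coe_one, Set.Icc.coe_zero]
      ring

end Pool.Agent.Helper82.DK2
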