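import Pool.Agent.Helper82.DK2.ZtCov

/-!
# DK-P7: the two parts of the trefoil complement have simply connected pull-backs
(about 120-180 lines)

`sc_A1`. The set `pbOn A1 zt1` consists of the `((x, y), t)` with `x = |x| e^{it}`,
`|x² - y³| = 1`, `(x² - y³)/x²` in the slit plane. It is homeomorphic to `E × ℝ`,
`E = {η ∈ ℂ : 1 - η³ ∈ slitPlane}`, by
`((x, y), t) ↦ (y |x|^(-2/3) e^{-2it/3}, t)` with inverse
`(η, t) ↦ ((ρ e^{it}, ρ^(2/3) e^{2it/3} η), t)`, `ρ = |1 - η³|^(-1/2)`: indeed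
`y³ = |x|² e^{2it} η³ = x² η³`, so `x² - y³ = x² (1 - η³)`. `E` is star convex with centre `0`:
`1 - s³ η³` for `0 ≤ s ≤ 1` is `1` or, if `1 - η³` is not in `(-∞, 0]`, neither is `1 - s³ η³`
(`1 - s³η³ ≤ 0` real gives `η³ ≥ s^{-3} ≥ 1`). So `E × ℝ` is star convex (as a subset of `ℂ × ℝ`) and
nonempty, hence contractible (`StarConvex.contractibleSpace`), hence simply connected
(`SimplyConnectedSpace.ofContractible`, `ContinuousMap.HomotopyEquiv.simplyConnectedSpace`).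

`sc_A2`. The same with `((x, y), t)`, `y = |y| e^{it}`,
`ξ = x |y|^(-3/2) e^{-3it/2}`, `x² = y³ ξ²`, `x² - y³ = - y³ (1 - ξ²)`,
`E = {ξ : 1 - ξ² ∈ slitPlane}`, `ρ = |1 - ξ²|^(-1/3)`,
inverse `(ξ, t) ↦ ((ρ^(3/2) e^{3it/2} ξ, ρ e^{it}), t)`.
-/

namespace Pool.Agent.Helper82.DK2

open Set Topology Complex Pool.Agent.Helper31.DS

private theorem contractible_of_retract {X Y : Type*} [TopologicalSpace X] [TopologicalSpace Y]
    [ContractibleSpace Y] (i : C(X, Y)) (r : C(Y, X)) (h : ∀ x, r (i x) = x) :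
    ContractibleSpace X := by
  rw [contractible_iff_id_nullhomotopic]
  have h1 := ((id_nullhomotopic Y).comp_right r).comp_left i
  have h2 : (r.comp (ContinuousMap.id Y)).comp i = ContinuousMap.id X := by
    ext x
    exact h x
  rwa [h2] at h1

private theorem rpow_div_pow {r : ℝ} (hr : 0 ≤ r) (p : ℕ) {q : ℕ} (hq : q ≠ 0) :
    (r ^ ((p : ℝ) / q)) ^ q = r ^ p := by
  rw [← Real.rpow_natCast, ← Real.rpow_mul hr, div_mul_cancel₀ _ (by exact_mod_cast hq),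
    Real.rpow_natCast]

private theorem exp_div_pow (p : ℕ) {q : ℕ} (hq : q ≠ 0) (t : ℝ) :
    (Complex.exp ((((p : ℝ) / q : ℝ) : ℂ) * t * I)) ^ q = Complex.exp (t * I) ^ p := by
  have h : (q : ℂ) ≠ 0 := by exact_mod_cast hq
  rw [← Complex.exp_nat_mul, ← Complex.exp_nat_mul]
  congr 1
  push_cast
  field_simp

/-- the model -/
private def Pg (p q : ℕ) : Set (ℂ × ℂ × ℝ) :=
  {v | v.1 ≠ 0 ∧ v.1 = (‖v.1‖ : ℂ) * Complex.exp (v.2.2 * I) ∧ ‖v.1 ^ p - v.2.1 ^ q‖ = 1 ∧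
    (v.1 ^ p - v.2.1 ^ q) / v.1 ^ p ∈ slitPlane}

private def Eg (q : ℕ) : Set (ℂ × ℝ) := {w | 1 - w.1 ^ q ∈ slitPlane}

private noncomputable def fac (p q : ℕ) (r t : ℝ) : ℂ :=
  ((r ^ ((p : ℝ) / q) : ℝ) : ℂ) * Complex.exp ((((p : ℝ) / q : ℝ) : ℂ) * t * I)

private theorem fac_pow (p : ℕ) {q : ℕ} (hq : q ≠ 0) {r : ℝ} (hr : 0 ≤ r) (t : ℝ) :
    (fac p q r t) ^ q = ((r : ℂ) * Complex.exp (t * I)) ^ p := by
  rw [fac, mul_pow, ← ofReal_pow, rpow_div_pow hr p hq, exp_div_pow p hq, mul_pow, ofReal_pow]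

private theorem fac_ne (p q : ℕ) {r : ℝ} (hr : 0 < r) (t : ℝ) : fac p q r t ≠ 0 := by
  apply mul_ne_zero _ (Complex.exp_ne_zero _)
  rw [Ne, ofReal_eq_zero]
  exact (Real.rpow_pos_of_pos hr _).ne'

private theorem fac_cont (p q : ℕ) : Continuous fun w : ℝ × ℝ => fac p q w.1 w.2 := by
  unfold fac
  have h : Continuous fun w : ℝ × ℝ => w.1 ^ ((p : ℝ) / q) :=
    continuous_fst.rpow_const fun x => Or.inr (by positivity)
  fun_prop

private noncomputable def rho (p q : ℕ) (η : ℂ) : ℝ := ‖1 - η ^ q‖ ^ (-(1 / (p : ℝ)))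

private theorem rho_pos (p q : ℕ) {η : ℂ} (h : 1 - η ^ q ≠ 0) : 0 < rho p q η :=
  Real.rpow_pos_of_pos (norm_pos_iff.2 h) _

private theorem rho_pow {p : ℕ} (hp : p ≠ 0) (q : ℕ) (η : ℂ) :
    rho p q η ^ p = ‖1 - η ^ q‖⁻¹ := by
  have hp' : (p : ℝ) ≠ 0 := by exact_mod_cast hp
  rw [rho, ← Real.rpow_natCast, ← Real.rpow_mul (norm_nonneg _),
    show -(1 / (p : ℝ)) * p = -1 by field_simp, Real.rpow_neg_one]

private theorem star_Eg (q : ℕ) : StarConvex ℝ (0 : ℂ × ℝ) (Eg q) := by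
  rw [starConvex_zero_iff]
  intro w hw a ha0 ha1
  have hw' : 1 - w.1 ^ q ∈ slitPlane := hw
  change 1 - (a • w).1 ^ q ∈ slitPlane
  have h1 : 1 - (a • w).1 ^ q = (1 - a ^ q) • (1 : ℂ) + (a ^ q) • (1 - w.1 ^ q) := by
    rw [Prod.smul_fst, Complex.real_smul, mul_pow, Complex.real_smul, Complex.real_smul]
    push_cast
    ring
  rw [h1]
  exact starConvex_one_slitPlane hw' (by have := pow_le_one₀ (n := q) ha0 ha1; linarith)
    (by positivity) (by ring)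

private theorem contr_Pg {p q : ℕ} (hp : p ≠ 0) (hq : q ≠ 0) : ContractibleSpace (Pg p q) := by
  have hE : ContractibleSpace (Eg q) := by
    refine StarConvex.contractibleSpace (star_Eg q) ⟨0, ?_⟩
    change (1 : ℂ) - (0 : ℂ) ^ q ∈ slitPlane
    rw [zero_pow hq, sub_zero]
    exact one_mem_slitPlane
  have key : ∀ v ∈ Pg p q, (v.2.1 / fac p q ‖v.1‖ v.2.2) ^ q = v.2.1 ^ q / v.1 ^ p := by
    intro v hv
    rw [div_pow, fac_pow p hq (norm_nonneg _), ← hv.2.1]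
  have key2 : ∀ v ∈ Pg p q, 1 - (v.2.1 / fac p q ‖v.1‖ v.2.2) ^ q =
      (v.1 ^ p - v.2.1 ^ q) / v.1 ^ p := by
    intro v hv
    rw [key v hv, sub_div, div_self (pow_ne_zero _ hv.1)]
  have hri : ∀ v ∈ Pg p q, rho p q (v.2.1 / fac p q ‖v.1‖ v.2.2) = ‖v.1‖ := by
    intro v hv
    rw [← pow_left_inj₀ (rho_pos p q (by
      rw [key2 v hv]; exact slitPlane_ne_zero hv.2.2.2)).le (norm_nonneg _) hp, rho_pow hp,
      key2 v hv, norm_div, hv.2.2.1, norm_pow, one_div, inv_inv]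
  let i : C(Pg p q, Eg q) := ⟨fun v => ⟨(v.1.2.1 / fac p q ‖v.1.1‖ v.1.2.2, v.1.2.2), by
      change 1 - (v.1.2.1 / fac p q ‖v.1.1‖ v.1.2.2) ^ q ∈ slitPlane
      rw [key2 v.1 v.2]
      exact v.2.2.2.2⟩, by
      refine Continuous.subtype_mk (Continuous.prodMk (Continuous.div (by fun_prop) ?_ ?_)
        (by fun_prop)) _
      · exact (fac_cont p q).comp (g := fun w : ℝ × ℝ => fac p q w.1 w.2)
          (f := fun v : Pg p q => (‖v.1.1‖, v.1.2.2)) (by fun_prop)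
      · exact fun v => fac_ne p q (norm_pos_iff.2 v.2.1) _⟩
  have hE0 : ∀ w ∈ Eg q, 1 - w.1 ^ q ≠ 0 := fun w hw => slitPlane_ne_zero hw
  have hrc : Continuous fun w : Eg q => rho p q w.1.1 := by
    unfold rho
    exact Continuous.rpow_const (by fun_prop) fun w => Or.inl (norm_ne_zero_iff.2 (hE0 w.1 w.2))
  have hmem : ∀ w ∈ Eg q, ((rho p q w.1 : ℂ) * Complex.exp (w.2 * I),
      fac p q (rho p q w.1) w.2 * w.1, w.2) ∈ Pg p q := by
    intro w hw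
    have h0 := hE0 w hw
    have hr := rho_pos p q h0
    have hn : ‖(rho p q w.1 : ℂ) * Complex.exp (w.2 * I)‖ = rho p q w.1 := by
      rw [norm_mul, Complex.norm_exp_ofReal_mul_I, mul_one, Complex.norm_real,
        Real.norm_of_nonneg hr.le]
    have hne : (rho p q w.1 : ℂ) * Complex.exp (w.2 * I) ≠ 0 := by
      rw [← norm_pos_iff, hn]
      exact hr
    have h2 : ((rho p q w.1 : ℂ) * Complex.exp (w.2 * I)) ^ p -
        (fac p q (rho p q w.1) w.2 * w.1) ^ q =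
        ((rho p q w.1 : ℂ) * Complex.exp (w.2 * I)) ^ p * (1 - w.1 ^ q) := by
      rw [mul_pow (fac p q _ _), fac_pow p hq hr.le]
      ring
    refine ⟨hne, ?_, ?_, ?_⟩
    · change (rho p q w.1 : ℂ) * Complex.exp (w.2 * I) =
        (‖(rho p q w.1 : ℂ) * Complex.exp (w.2 * I)‖ : ℂ) * Complex.exp (w.2 * I)
      rw [hn]
    · change ‖((rho p q w.1 : ℂ) * Complex.exp (w.2 * I)) ^ p -
        (fac p q (rho p q w.1) w.2 * w.1) ^ q‖ = 1
      rw [h2, norm_mul, norm_pow, hn, rho_pow hp, inv_mul_cancel₀ (norm_ne_zero_iff.2 h0)]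
    · change (((rho p q w.1 : ℂ) * Complex.exp (w.2 * I)) ^ p -
        (fac p q (rho p q w.1) w.2 * w.1) ^ q) /
        ((rho p q w.1 : ℂ) * Complex.exp (w.2 * I)) ^ p ∈ slitPlane
      rw [h2, mul_div_cancel_left₀ _ (pow_ne_zero _ hne)]
      exact hw
  let r : C(Eg q, Pg p q) := ⟨fun w => ⟨((rho p q w.1.1 : ℂ) * Complex.exp (w.1.2 * I),
      fac p q (rho p q w.1.1) w.1.2 * w.1.1, w.1.2), hmem w.1 w.2⟩, by
      refine Continuous.subtype_mk (Continuous.prodMk (by fun_prop)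
        (Continuous.prodMk (Continuous.mul ?_ (by fun_prop)) (by fun_prop))) _
      exact (fac_cont p q).comp (g := fun w : ℝ × ℝ => fac p q w.1 w.2)
          (f := fun w : Eg q => (rho p q w.1.1, w.1.2)) (by fun_prop)⟩
  refine contractible_of_retract i r fun v => ?_
  apply Subtype.ext
  change ((rho p q (v.1.2.1 / fac p q ‖v.1.1‖ v.1.2.2) : ℂ) * Complex.exp (v.1.2.2 * I),
      fac p q (rho p q (v.1.2.1 / fac p q ‖v.1.1‖ v.1.2.2)) v.1.2.2 *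
        (v.1.2.1 / fac p q ‖v.1.1‖ v.1.2.2), v.1.2.2) = v.1
  rw [hri v.1 v.2, ← v.2.2.1, mul_div_cancel₀ _ (fac_ne p q (norm_pos_iff.2 v.2.1) _)]

private theorem eq_of_cpart {b : ℂ} (hb : b ≠ 0) {t : ℝ} (h : cpart b = Circle.exp t) :
    b = (‖b‖ : ℂ) * Complex.exp (t * I) := by
  have h1 : (cpart b : ℂ) = (Circle.exp t : ℂ) := by rw [h]
  rw [coe_cpart hb, Circle.coe_exp] at h1
  have h2 : (‖b‖ : ℂ) ≠ 0 := by simpa using hb
  rw [← h1, mul_div_cancel₀ _ h2]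

private theorem cpart_of_eq {b : ℂ} (hb : b ≠ 0) {t : ℝ}
    (h : b = (‖b‖ : ℂ) * Complex.exp (t * I)) : cpart b = Circle.exp t := by
  apply Circle.ext
  have h2 : (‖b‖ : ℂ) ≠ 0 := by simpa using hb
  rw [coe_cpart hb, Circle.coe_exp, div_eq_iff h2, mul_comm]
  exact h

theorem sc_A1 : IsSimplyConnected (pbOn A1 zt1) := by
  have := contr_Pg (p := 2) (q := 3) (by norm_num) (by norm_num)
  let i : C(pbOn A1 zt1, Pg 2 3) := ⟨fun e => ⟨(e.1.1.1.1, e.1.1.1.2, e.1.2),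
    e.2.1.1, eq_of_cpart e.2.1.1 e.2.2, e.1.1.2, e.2.1.2⟩, by fun_prop⟩
  let r : C(Pg 2 3, pbOn A1 zt1) := ⟨fun v => ⟨(⟨(v.1.1, v.1.2.1), v.2.2.2.1⟩, v.1.2.2),
    ⟨v.2.1, v.2.2.2.2⟩, cpart_of_eq v.2.1 v.2.2.1⟩, by fun_prop⟩
  have h := contractible_of_retract i r fun e => rfl
  exact SimplyConnectedSpace.ofContractible _

theorem sc_A2 : IsSimplyConnected (pbOn A2 zt2) := by
  have := contr_Pg (p := 3) (q := 2) (by norm_num) (by norm_num)
  let i : C(pbOn A2 zt2, Pg 3 2) := ⟨fun e => ⟨(e.1.1.1.2, e.1.1.1.1, e.1.2),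
    e.2.1.1, eq_of_cpart e.2.1.1 e.2.2, by
      have h := e.1.1.2
      change ‖e.1.1.1.2 ^ 3 - e.1.1.1.1 ^ 2‖ = 1
      rw [norm_sub_rev]
      exact h, e.2.1.2⟩, by fun_prop⟩
  let r : C(Pg 3 2, pbOn A2 zt2) := ⟨fun v => ⟨(⟨(v.1.2.1, v.1.1), by
      have h := v.2.2.2.1
      change ‖v.1.2.1 ^ 2 - v.1.1 ^ 3‖ = 1
      rw [norm_sub_rev]
      exact h⟩, v.1.2.2),
    ⟨v.2.1, v.2.2.2.2⟩, cpart_of_eq v.2.1 v.2.2.1⟩, by fun_prop⟩
  have h := contractible_of_retract i r fun e => rfl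
  exact SimplyConnectedSpace.ofContractible _

end Pool.Agent.Helper82.DK2
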