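import Pool.Agent.Helper82.DK2.XLevel
import Pool.Agent.Helper82.DK2.ZtA
import Pool.Agent.Helper82.DK2.ZtB
import Pool.Agent.Helper82.DK2.Refine
import Pool.Agent.Helper82.DK2.Vpart
import Pool.Agent.Helper82.DK2.Cyc
import Pool.Agent.Helper31.DS.S2

/-!
# DK-P12: the infinite cyclic cover of the spun knot is simply connected (about 150-200 lines)

Apply `x_level` with
* `X = Compl f`, `θ = res f (g e τ)`; for `z : Compl f` we have `F e τ z ≠ 0` and
  `θ z = cpart (F e τ z)` (definition of `g`, `coe_cpart`); continuity: `continuous_F`,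
  `continuousOn_cpart`.
* `Z = ↥Zt`, `ζ = zt`, `Z₁ = A1`, `Z₂ = A2`, `ζ₁ = zt1`, `ζ₂ = zt2`.
* `j (m, q) = J (e (m, s), τ m * w)` with `(s, w) = Ψ⁻¹ q` (`exists_Psi`). It is an open embedding: the composition
  of the homeomorphism `(m, q) ↦ (m, (s, w))` onto `M × {h ≠ 0}`, the open inclusion into
  `M × (ℝ × ℂ)`, the homeomorphism `(m, s, w) ↦ (m, s, τ m * w)`, the open embedding
  `(m, s, w) ↦ J (e (m, s), w)`; it has values in `{F ≠ 0} = Compl f` by `F_J_e`
  (`IsOpenEmbedding` into the subtype: `IsOpenEmbedding.of_comp` or directly). The range of `j` is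
  the set of the `z` in `Compl f` with `z = J (e (m, s), w)` for some `m, s, w`.
  `F (j (m, q)) = c * (τ m * h (s, w))`, `c > 0`, and `zt q = h (s, w) / |h (s, w)|`, so
  `θ (j (m, q)) = τ m * zt q` (`cpart_mul`, `cpart_pos`, `cpart_coe`).
* `V = Subtype.val ⁻¹' VV e`; `isOpen_VV`; `range j ∪ V = univ`: if `z` is not some
  `J (e (m, s), w)` then the second condition of `VV` is empty, and `prC z ≠ 0`: otherwise `z = J (y, 0)` with
  `y ∉ range e` (`range_J`, `prC_J`), so `F z = 0` (`F_J_rest`).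
  `hVs`: `F_VV`, so `pbOn V θ` is homeomorphic to `pbOn (VV e) (cpart ∘ prC)` (`VV e ⊆ {F ≠ 0}`).
  `hI`: from `isPathConnected_UV` (transport to the subtype: the image under `Subtype.val` of
  `range j ∩ V` is that set; `IsInducing.isPathConnected_iff` or `Topology.IsEmbedding`...).
* `z₀ = Ψ (pm (π/2))`, `z₁ = Ψ (pm (3π/2))`, `β₂ t = Ψ (pm (π/2 + π t))`, `β₁ t = Ψ (pm (3π/2 + π t))`
  (`pm (5π/2) = pm (π/2)`), with `mem_A1`, `mem_A2`; `cos ≤ 0` on `[π/2, 3π/2]`, `0 ≤ cos` on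
  `[3π/2, 5π/2]`. `zt (Ψ (pm φ)) = exp φ`, so the angle of `β₂.trans β₁` is `2π`. All these
  `j (m, Ψ (pm φ)) = J (e (m, 0), τ m * 2 e^{iφ})` lie in `V` (`0 + |2|² > 1`; if
  `J (e (m, 0), w) = J (e (m', s'), w')` then `(m', s', w') = (m, 0, w)` by injectivity).
* `η` from `exists_eta`.
Finally `cycHomeo` transports the result from `PB (res f (g e τ))` to `cyc f (g e τ)`.
-/

namespace Pool.Agent.Helper82.DK2

open Set Topology Complex Pool.Agent.Helper31.DS

private theorem g_eq {M : Type*} (e : M × ℝ → Sph 5) (τ : M → Circle) {z : Sph 7}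
    (hz : F e τ z ≠ 0) : g e τ z = cpart (F e τ z) := by
  apply Subtype.ext
  rw [show ((cpart (F e τ z)).1 : ℂ) = F e τ z / ‖F e τ z‖ from coe_cpart hz]
  unfold g
  rw [dif_neg hz]

theorem continuousOn_g {M : Type*} [TopologicalSpace M] [CompactSpace M] {e : M × ℝ → Sph 5}
    (he : IsOpenEmbedding e) {τ : M → Circle} (hτ : Continuous τ) (f : Sph 5 → Sph 7)
    (hf : range f = {z | F e τ z = 0}) : ContinuousOn (g e τ) (range f)ᶜ := by
  have h1 : ∀ z ∈ (range f)ᶜ, F e τ z ≠ 0 := by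
    intro z hz h
    exact hz (by rw [hf]; exact h)
  have h2 : ContinuousOn (fun z => cpart (F e τ z)) (range f)ᶜ :=
    continuousOn_cpart.comp (continuous_F he hτ).continuousOn h1
  exact h2.congr fun z hz => g_eq e τ (h1 z hz)

/-- the twist by `τ` -/
private noncomputable def twist {M : Type*} [TopologicalSpace M] {τ : M → Circle} (hτ : Continuous τ) :
    M × (ℝ × ℂ) ≃ₜ (M × ℝ) × ℂ where
  toFun p := ((p.1, p.2.1), (τ p.1 : ℂ) * p.2.2)
  invFun p := (p.1.1, (p.1.2, ((τ p.1.1)⁻¹ : Circle) * p.2))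
  left_inv p := by
    refine Prod.ext rfl (Prod.ext rfl ?_)
    show (((τ p.1)⁻¹ : Circle) : ℂ) * ((τ p.1 : ℂ) * p.2.2) = p.2.2
    rw [← mul_assoc, ← Circle.coe_mul, inv_mul_cancel, Circle.coe_one, one_mul]
  right_inv p := by
    refine Prod.ext rfl ?_
    show (τ p.1.1 : ℂ) * ((((τ p.1.1)⁻¹ : Circle) : ℂ) * p.2) = p.2
    rw [← mul_assoc, ← Circle.coe_mul, mul_inv_cancel, Circle.coe_one, one_mul]
  continuous_toFun := by
    refine Continuous.prodMk (by fun_prop) ?_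
    exact (continuous_subtype_val.comp (hτ.comp continuous_fst)).mul (by fun_prop)
  continuous_invFun := by
    refine Continuous.prodMk (by fun_prop) (Continuous.prodMk (by fun_prop) ?_)
    exact (continuous_subtype_val.comp
      ((hτ.comp (continuous_fst.comp continuous_fst)).inv)).mul (by fun_prop)

private theorem pm_add (φ : ℝ) : pm (φ + 2 * Real.pi) = pm φ := by
  apply Subtype.ext
  refine Prod.ext rfl ?_
  show (2 : ℂ) * exp (((φ + 2 * Real.pi : ℝ) : ℂ) * I) = 2 * exp (φ * I)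
  congr 1
  push_cast
  rw [add_mul, Complex.exp_add, Complex.exp_two_pi_mul_I, mul_one]

private theorem continuous_pm : Continuous pm := by
  refine Continuous.subtype_mk ?_ _
  refine Continuous.prodMk continuous_const ?_
  fun_prop

theorem sc_spin {M : Type*} [TopologicalSpace M] [CompactSpace M] [PathConnectedSpace M]
    {e : M × ℝ → Sph 5} (he : IsOpenEmbedding e) {τ : M → Circle} (hτ : Continuous τ)
    (m₀ : M) (α : Path m₀ m₀) (hα : HasAngle τ α (2 * Real.pi)) (f : Sph 5 → Sph 7)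
    (hf : range f = {z | F e τ z = 0}) : IsSimplyConnected (cyc f (g e τ)) := by
  obtain ⟨Ψ, hΨ1, hΨ2⟩ := exists_Psi
  have hmem : ∀ z : Sph 7, z ∉ range f ↔ F e τ z ≠ 0 := by
    intro z
    rw [hf]
    rfl
  have hopen : IsOpen {z : Sph 7 | z ∉ range f} := by
    have h1 : {z : Sph 7 | z ∉ range f} = {z | F e τ z ≠ 0} := by
      ext z
      exact hmem z
    rw [h1]
    exact isOpen_ne_fun (continuous_F he hτ) continuous_const
  have hFJ : ∀ (m : M) (p : ℝ × ℂ), F e τ (J (e (m, p.1), (τ m : ℂ) * p.2)) =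
      ((Real.sqrt (1 + ‖(τ m : ℂ) * p.2‖ ^ 2))⁻¹ : ℝ) * ((τ m : ℂ) * h p) := by
    intro m p
    have hτ0 : (τ m : ℂ) ≠ 0 := Circle.coe_ne_zero _
    rw [F_J_e he, inv_mul_cancel_left₀ hτ0]
  have hsq : ∀ w : ℂ, 0 < (Real.sqrt (1 + ‖w‖ ^ 2))⁻¹ := fun w =>
    inv_pos.2 (Real.sqrt_pos.2 (by positivity))
  have hFne : ∀ (m : M) (p : {p : ℝ × ℂ // h p ≠ 0}),
      J (e (m, p.1.1), (τ m : ℂ) * p.1.2) ∉ range f := by
    intro m p
    rw [hmem, hFJ]
    refine mul_ne_zero ?_ (mul_ne_zero (Circle.coe_ne_zero _) p.2)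
    exact_mod_cast (hsq _).ne'
  -- the map `j`
  let j : M × ↥Zt → Compl f := fun p =>
    ⟨J (e (p.1, (Ψ.symm p.2).1.1), (τ p.1 : ℂ) * (Ψ.symm p.2).1.2), hFne p.1 (Ψ.symm p.2)⟩
  have hj : IsOpenEmbedding j := by
    have h1 : IsOpenEmbedding (Subtype.val : Compl f → Sph 7) :=
      IsOpen.isOpenEmbedding_subtypeVal hopen
    refine IsOpenEmbedding.of_comp j h1 ?_
    have h2 : IsOpen {p : ℝ × ℂ | h p ≠ 0} := isOpen_ne_fun continuous_h continuous_const
    have h3 : IsOpenEmbedding (Prod.map (id : M → M)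
        ((Subtype.val : {p : ℝ × ℂ // h p ≠ 0} → ℝ × ℂ) ∘ Ψ.symm)) :=
      IsOpenEmbedding.id.prodMap
        ((IsOpen.isOpenEmbedding_subtypeVal h2).comp Ψ.symm.isOpenEmbedding)
    have h4 : IsOpenEmbedding (Prod.map e (id : ℂ → ℂ)) := he.prodMap IsOpenEmbedding.id
    exact isOpenEmbedding_J.comp (h4.comp ((twist hτ).isOpenEmbedding.comp h3))
  have hzt : ∀ p : {p : ℝ × ℂ // h p ≠ 0}, zt (Ψ p) = cpart (h p.1) := by
    intro p
    have hn : (0 : ℝ) < ‖h p.1‖⁻¹ := inv_pos.2 (norm_pos_iff.2 p.2)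
    unfold zt
    rw [hΨ1, div_eq_inv_mul, ← Complex.ofReal_inv, cpart_pos hn]
  have hθ : ∀ x : Compl f, res f (g e τ) x = cpart (F e τ x.1) := fun x =>
    g_eq e τ ((hmem x.1).1 x.2)
  have hjθ : ∀ m z, res f (g e τ) (j (m, z)) = τ m * zt z := by
    intro m z
    rw [hθ]
    show cpart (F e τ (J (e (m, (Ψ.symm z).1.1), (τ m : ℂ) * (Ψ.symm z).1.2))) = _
    rw [hFJ, cpart_pos (hsq _), cpart_mul (Circle.coe_ne_zero _) (Ψ.symm z).2, cpart_coe]
    congr 1
    rw [← hzt, Ψ.apply_symm_apply]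
  have hcont : Continuous (res f (g e τ)) := continuous_res (continuousOn_g he hτ f hf)
  -- the set `V`
  let V : Set (Compl f) := Subtype.val ⁻¹' VV e
  have hV : IsOpen V := (isOpen_VV he).preimage continuous_subtype_val
  have hrange : ∀ x : Compl f, x ∈ range j ↔ ∃ m s w, x.1 = J (e (m, s), w) := by
    intro x
    constructor
    · rintro ⟨⟨m, q⟩, rfl⟩
      exact ⟨m, _, _, rfl⟩
    · rintro ⟨m, s, w, hx⟩
      have hτ0 : (τ m : ℂ) ≠ 0 := Circle.coe_ne_zero _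
      have h1 : F e τ x.1 ≠ 0 := (hmem x.1).1 x.2
      have h2 : h (s, (τ m : ℂ)⁻¹ * w) ≠ 0 := by
        intro h3
        apply h1
        rw [hx, F_J_e he, h3, mul_zero, mul_zero]
      refine ⟨(m, Ψ ⟨(s, (τ m : ℂ)⁻¹ * w), h2⟩), ?_⟩
      apply Subtype.ext
      show J (e (m, (Ψ.symm (Ψ ⟨(s, (τ m : ℂ)⁻¹ * w), h2⟩)).1.1),
        (τ m : ℂ) * (Ψ.symm (Ψ ⟨(s, (τ m : ℂ)⁻¹ * w), h2⟩)).1.2) = x.1
      rw [Ψ.symm_apply_apply, hx]
      show J (e (m, s), (τ m : ℂ) * ((τ m : ℂ)⁻¹ * w)) = J (e (m, s), w)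
      rw [mul_inv_cancel_left₀ hτ0]
  have hVU : range j ∪ V = univ := by
    rw [eq_univ_iff_forall]
    intro x
    by_cases hx : ∃ m s w, x.1 = J (e (m, s), w)
    · exact Or.inl ((hrange x).2 hx)
    · right
      refine ⟨?_, fun m s w h1 => absurd ⟨m, s, w, h1⟩ hx⟩
      intro h0
      have h1 : F e τ x.1 ≠ 0 := (hmem x.1).1 x.2
      have h2 : prY x.1.1 ≠ 0 := by
        intro h3
        have h4 := norm_prY_sq x.1
        rw [h3, h0] at h4
        simp at h4
      have h3 : x.1 ∈ range J := by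
        rw [range_J]
        exact h2
      obtain ⟨⟨y, w⟩, hy⟩ := h3
      have h5 : y ∉ range e := by
        rintro ⟨⟨m, s⟩, rfl⟩
        exact hx ⟨m, s, w, hy.symm⟩
      apply h1
      rw [← hy, F_J_rest y h5 w, hy]
      exact h0
  have hVs : IsSimplyConnected (pbOn V (res f (g e τ))) := by
    have h1 := sc_VV e
    have hVf : ∀ z ∈ VV e, z ∉ range f := by
      intro z hz
      rw [hmem, F_VV he τ hz]
      exact hz.1
    let H : ↥(pbOn V (res f (g e τ))) ≃ₜ ↥(pbOn (VV e) (fun z => cpart (prC z.1))) :=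
      { toFun := fun p => ⟨(p.1.1.1, p.1.2), p.2.1, by
          have h2 := p.2.2
          rw [hθ, F_VV he τ p.2.1] at h2
          exact h2⟩
        invFun := fun p => ⟨(⟨p.1.1, hVf p.1.1 p.2.1⟩, p.1.2), p.2.1,
          (hθ ⟨p.1.1, hVf p.1.1 p.2.1⟩).trans
            ((congrArg cpart (F_VV he τ p.2.1)).trans p.2.2)⟩
        left_inv := fun _ => rfl
        right_inv := fun _ => rfl
        continuous_toFun := by fun_prop
        continuous_invFun := by fun_prop }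
    exact H.toHomotopyEquiv.simplyConnectedSpace (hY := h1)
  have hI : IsPathConnected (range j ∩ V) := by
    have h1 := isPathConnected_UV he
    have h2 : (Subtype.val : Compl f → Sph 7) '' (range j ∩ V) =
        VV e ∩ {z | ∃ m s w, z = J (e (m, s), w)} := by
      ext z
      constructor
      · rintro ⟨x, ⟨hx1, hx2⟩, rfl⟩
        exact ⟨hx2, (hrange x).1 hx1⟩
      · rintro ⟨hz1, hz2⟩
        have h3 : z ∉ range f := by
          rw [hmem, F_VV he τ hz1]
          exact hz1.1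
        exact ⟨⟨z, h3⟩, ⟨(hrange ⟨z, h3⟩).2 hz2, hz1⟩, rfl⟩
    have h3 : IsPathConnected ((Subtype.val : Compl f → Sph 7) '' (range j ∩ V)) := by
      rw [h2]
      exact h1
    exact IsInducing.subtypeVal.isPathConnected_iff.2 h3
  -- the meridian
  have hjV : ∀ m φ, j (m, Ψ (pm φ)) ∈ V := by
    intro m φ
    have hw : ‖(τ m : ℂ) * (2 * exp (φ * I))‖ = 2 := by
      rw [norm_mul, Circle.norm_coe, one_mul, norm_mul, Complex.norm_exp_ofReal_mul_I]
      simp
    have e1 : (j (m, Ψ (pm φ))).1 = J (e (m, 0), (τ m : ℂ) * (2 * exp (φ * I))) := by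
      show J (e (m, (Ψ.symm (Ψ (pm φ))).1.1), (τ m : ℂ) * (Ψ.symm (Ψ (pm φ))).1.2) = _
      rw [Ψ.symm_apply_apply]
      rfl
    show (j (m, Ψ (pm φ))).1 ∈ VV e
    rw [e1]
    constructor
    · rw [prC_J]
      refine mul_ne_zero ?_ ?_
      · exact_mod_cast (hsq _).ne'
      · rw [← norm_ne_zero_iff, hw]
        norm_num
    · intro m' s' w' h1
      have h2 := isOpenEmbedding_J.injective h1
      have h3 : (τ m : ℂ) * (2 * exp (φ * I)) = w' := congrArg Prod.snd h2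
      rw [← h3, hw]
      nlinarith [sq_nonneg s']
  have hztpm : ∀ φ : ℝ, zt (Ψ (pm φ)) = Circle.exp φ := by
    intro φ
    rw [hzt]
    show cpart (h (0, 2 * exp (φ * I))) = _
    rw [h_circle]
    have h1 : (2 : ℂ) * exp (φ * I) = ((2 : ℝ) : ℂ) * (Circle.exp φ : ℂ) := by
      rw [Circle.coe_exp]
      norm_num
    rw [h1, cpart_pos (by norm_num), cpart_coe]
  have m1 : ∀ φ : ℝ, 0 ≤ Real.cos φ → Ψ (pm φ) ∈ A1 := by
    intro φ hφ
    obtain ⟨c, hc, h1, h2⟩ := hΨ2 (pm φ)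
    exact mem_A1 _ φ c hc h1 h2 hφ
  have m2 : ∀ φ : ℝ, Real.cos φ ≤ 0 → Ψ (pm φ) ∈ A2 := by
    intro φ hφ
    obtain ⟨c, hc, h1, h2⟩ := hΨ2 (pm φ)
    exact mem_A2 _ φ c hc h1 h2 hφ
  have c1 : Real.cos (Real.pi / 2) = 0 := Real.cos_pi_div_two
  have c2 : Real.cos (3 * Real.pi / 2) = 0 := by
    have : 3 * Real.pi / 2 = Real.pi / 2 + Real.pi := by ring
    rw [this, Real.cos_add_pi, c1, neg_zero]
  have hz₀ : Ψ (pm (Real.pi / 2)) ∈ A1 ∩ A2 := ⟨m1 _ c1.ge, m2 _ c1.le⟩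
  have hz₁ : Ψ (pm (3 * Real.pi / 2)) ∈ A1 ∩ A2 := ⟨m1 _ c2.ge, m2 _ c2.le⟩
  let β₂ : Path (Ψ (pm (Real.pi / 2))) (Ψ (pm (3 * Real.pi / 2))) :=
    { toFun := fun t => Ψ (pm (Real.pi / 2 + Real.pi * t))
      continuous_toFun := Ψ.continuous.comp (continuous_pm.comp (by fun_prop))
      source' := by
        show Ψ (pm (Real.pi / 2 + Real.pi * ((0 : unitInterval) : ℝ))) = _
        rw [Set.Icc.coe_zero, mul_zero, add_zero]
      target' := by
        show Ψ (pm (Real.pi / 2 + Real.pi * ((1 : unitInterval) : ℝ))) = _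
        rw [Set.Icc.coe_one, mul_one]
        congr 2
        ring }
  let β₁ : Path (Ψ (pm (3 * Real.pi / 2))) (Ψ (pm (Real.pi / 2))) :=
    { toFun := fun t => Ψ (pm (3 * Real.pi / 2 + Real.pi * t))
      continuous_toFun := Ψ.continuous.comp (continuous_pm.comp (by fun_prop))
      source' := by
        show Ψ (pm (3 * Real.pi / 2 + Real.pi * ((0 : unitInterval) : ℝ))) = _
        rw [Set.Icc.coe_zero, mul_zero, add_zero]
      target' := by
        show Ψ (pm (3 * Real.pi / 2 + Real.pi * ((1 : unitInterval) : ℝ))) = _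
        rw [Set.Icc.coe_one, mul_one]
        have : 3 * Real.pi / 2 + Real.pi = Real.pi / 2 + 2 * Real.pi := by ring
        rw [this, pm_add] }
  have b2 : ∀ t, β₂ t = Ψ (pm (Real.pi / 2 + Real.pi * t)) := fun _ => rfl
  have b1 : ∀ t, β₁ t = Ψ (pm (3 * Real.pi / 2 + Real.pi * t)) := fun _ => rfl
  have hsin : ∀ t : unitInterval, 0 ≤ Real.sin (Real.pi * t) := by
    intro t
    apply Real.sin_nonneg_of_nonneg_of_le_pi
    · exact mul_nonneg Real.pi_pos.le t.2.1
    · have := mul_le_mul_of_nonneg_left t.2.2 Real.pi_pos.le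
      linarith
  have hβ₂ : ∀ t, β₂ t ∈ A2 := by
    intro t
    rw [b2]
    apply m2
    rw [add_comm, Real.cos_add_pi_div_two]
    linarith [hsin t]
  have hβ₁ : ∀ t, β₁ t ∈ A1 := by
    intro t
    rw [b1]
    apply m1
    have : 3 * Real.pi / 2 + Real.pi * (t : ℝ) = Real.pi * t + Real.pi / 2 + Real.pi := by ring
    rw [this, Real.cos_add_pi, Real.cos_add_pi_div_two, neg_neg]
    exact hsin t
  have a2 : HasAngle zt β₂ Real.pi := by
    refine ⟨⟨fun t => Real.pi / 2 + Real.pi * (t : ℝ), by fun_prop⟩, fun t => ?_, ?_⟩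
    · rw [b2, hztpm]
      rfl
    · show (Real.pi / 2 + Real.pi * ((1 : unitInterval) : ℝ)) -
        (Real.pi / 2 + Real.pi * ((0 : unitInterval) : ℝ)) = Real.pi
      rw [Set.Icc.coe_zero, Set.Icc.coe_one]
      ring
  have a1 : HasAngle zt β₁ Real.pi := by
    refine ⟨⟨fun t => 3 * Real.pi / 2 + Real.pi * (t : ℝ), by fun_prop⟩, fun t => ?_, ?_⟩
    · rw [b1, hztpm]
      rfl
    · show (3 * Real.pi / 2 + Real.pi * ((1 : unitInterval) : ℝ)) -
        (3 * Real.pi / 2 + Real.pi * ((0 : unitInterval) : ℝ)) = Real.pi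
      rw [Set.Icc.coe_zero, Set.Icc.coe_one]
      ring
  have hβ : HasAngle zt (β₂.trans β₁) (2 * Real.pi) := by
    have := a2.trans a1
    rw [two_mul]
    exact this
  obtain ⟨η, hη, hη'⟩ := exists_eta _ hz₀
  have key : SimplyConnectedSpace (PB (res f (g e τ))) :=
    x_level (res f (g e τ)) hcont τ hτ zt continuous_zt j hj hjθ V hV hVU hVs hI m₀ α hα
      A1 A2 isOpen_A1 isOpen_A2 A1_union_A2 isPathConnected_A12 zt1 zt2 continuousOn_zt1
      continuousOn_zt2 sc_A1 sc_A2 (Ψ (pm (Real.pi / 2))) hz₀ (fun m => hjV m _)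
      (fun γ hγ r hr => zt_angle_one γ hγ r hr) (fun γ hγ r hr => zt_angle_two γ hγ r hr)
      η hη hη' (Ψ (pm (3 * Real.pi / 2))) hz₁ β₂ hβ₂ β₁ hβ₁
      (fun t => hjV m₀ _) (fun t => hjV m₀ _) hβ
  exact (cycHomeo f (g e τ)).toHomotopyEquiv.simplyConnectedSpace (hY := key)

end Pool.Agent.Helper82.DK2
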