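import Pool.Agent.Helper82.DK2.Split

/-!
# DK-O6: the local structure of the splitting (about 150-250 lines)

Let `b : Sph (n + 2) × ℝ → Sph (n + 3)` be the bicollar of the equator (`exists_bic`) and let
`O ⊆ cov f g r × ℝ` be the set of the points `((x, v), s)` with
`z = b (x, s) ∉ Φ '' stdSphere n` and `u(z) / u(incl x) ≠ -1`, where
`u(z) = cpart (cc (Φ⁻¹ z))`. `O` is open in `cov f g r × ℝ` and contains `cov f g r × {0}`
(`symm_incl_notMem`). On `O` put
`β ((x, v), s) = ((H (Φ⁻¹ z)).1, (phi (x, v)).2 * exp (arg (u(z) / u(incl x)) / r))`.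
It is continuous (`Complex.arg` is continuous on the slit plane, and a point of the circle
different from `-1` is in the slit plane); `β ((x, v), 0) = phi (x, v)`;
`β (...).2 ^ r = u(incl x) * u(z) / u(incl x) = u(z) = (H (Φ⁻¹ z)).2`, so `pr (β ((x, v), s)) = b (x, s)`,
and `β (...) ∈ PP ↔ 0 ≤ s`, `∈ QQ ↔ s ≤ 0`. `β` is injective: `pr (β ..) = b (x, s)` determines
`x` and `s`, then `(β ..).2` determines `v ^ m`, hence `v`. `β` is an open map: its image is the
open set of all `e` such that `pr e = b (x, s)` for some `x, s` (`b` is an open embedding) with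
`x ∉ range f`, `u(z) / u(incl x) ≠ -1`, and its inverse there is
`e ↦ ((x, (e.2 * exp (- arg (u(z) / u(incl x)) / r) * exp (- l x / r)) ^ m), s)`, continuous.

Now let `j` be an open embedding of `Fin (n + 2) → ℝ` in `cov f g r`. There is `ε > 0` such that
`(j a, s) ∈ O` for `|a| < ε`, `|s| < ε`. Choose an open embedding `ι` of `Fin (n + 2) → ℝ` onto
`ball 0 ε` (for example `a ↦ ε a / (1 + |a|)`, see `Homeomorph.unitBall` or
`OpenPartialHomeomorph.univBall`; only an open embedding into the ball is needed) and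
`σ s = ε s / (1 + |s|)`, and put `Ψ (a, s) = β (j (ι a), σ s)`.
-/

namespace Pool.Agent.Helper82.DK2

open Set Topology

variable {n : ℕ} {f : Sph n → Sph (n + 2)} {g : Sph (n + 2) → Circle}

private theorem sl_mm {m : ℤ} (hm : m = 1 ∨ m = -1) (v : Circle) : (v ^ m) ^ m = v := by
  rw [← zpow_mul]
  rcases hm with rfl | rfl
  · norm_num
  · norm_num

private theorem sl_exp {r : ℕ} (hr : r ≠ 0) (t : ℝ) :
    Circle.exp (t / r) ^ r = Circle.exp t := by
  rw [← Circle.exp_natCast_mul]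
  congr 1
  have : (r : ℝ) ≠ 0 := Nat.cast_ne_zero.2 hr
  field_simp

private theorem sl_comm (z : Circle) (m : ℤ) (r : ℕ) : (z ^ m) ^ r = (z ^ r) ^ m := by
  rw [← zpow_natCast, ← zpow_mul, mul_comm, zpow_mul, zpow_natCast]

private theorem sl_neg (t : ℝ) : Circle.exp (-t) = (Circle.exp t)⁻¹ := by
  rw [eq_inv_iff_mul_eq_one, ← Circle.exp_add, neg_add_cancel, Circle.exp_zero]

/-- the argument is continuous off the point `-1` -/
private theorem sl_arg {A : Type*} [TopologicalSpace A] {w : A → Circle} (hw : Continuous w)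
    (hne : ∀ a, w a ≠ Circle.exp Real.pi) : Continuous fun a => Complex.arg (w a : ℂ) := by
  rw [continuous_iff_continuousAt]
  intro a
  have h1 : (w a : ℂ) ∈ Complex.slitPlane := by
    rw [Complex.mem_slitPlane_iff_arg]
    refine ⟨fun h => hne a ?_, Circle.coe_ne_zero _⟩
    rw [← h, Circle.exp_arg]
  have h2 : ContinuousAt (fun a => (w a : ℂ)) a :=
    (continuous_subtype_val.comp hw).continuousAt
  exact ContinuousAt.comp (f := fun a => (w a : ℂ)) (g := Complex.arg)
    (Complex.continuousAt_arg h1) h2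

/-- the map and its inverse in a general setting -/
private theorem sl_beta {X Z E : Type*} [TopologicalSpace X] [TopologicalSpace Z]
    [TopologicalSpace E] (K : Set X) (hK : IsClosed K) (g : X → Circle) (hg : ContinuousOn g Kᶜ)
    (l : X → ℝ) (hl : ContinuousOn l Kᶜ) (m : ℤ) (hm : m = 1 ∨ m = -1) (r : ℕ) (hr : r ≠ 0)
    (b : X × ℝ → Z) (bs : Z → X × ℝ) (hb : Continuous b) (hbo : IsOpen (range b))
    (hbs : ContinuousOn bs (range b)) (hbb : ∀ y, bs (b y) = y)
    (p : E × Circle → Z) (ps : Z → E × Circle) (hp : Continuous p) (hpo : IsOpen (range p))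
    (hps : ContinuousOn ps (range p)) (hpp : ∀ y, ps (p y) = y)
    (h0 : ∀ x, x ∉ K → b (x, 0) ∈ range p ∧
      (ps (b (x, 0))).2 = g x ^ m * Circle.exp (l x)) :
    ∃ (O : Set ({y : X × Circle // y.1 ∉ K ∧ g y.1 = y.2 ^ r} × ℝ)) (β : O → E × Circle),
      IsOpen O ∧ IsOpenEmbedding β ∧ (∀ y, (y, 0) ∈ O) ∧
      (∀ y : O, y.1.2 = 0 → β y =
        ((ps (b (y.1.1.1.1, 0))).1, y.1.1.1.2 ^ m * Circle.exp (l y.1.1.1.1 / r))) ∧
      ∀ y : O, p ((β y).1, (β y).2 ^ r) = b (y.1.1.1.1, y.1.2) := by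
  have hpi : (1 : Circle) ≠ Circle.exp Real.pi := by
    intro h
    have h1 : ((1 : Circle) : ℂ) = (Circle.exp Real.pi : ℂ) := by rw [← h]
    rw [Circle.coe_exp, Complex.exp_pi_mul_I, Circle.coe_one] at h1
    norm_num at h1
  -- the maps on the cyclic cover
  let T : Type _ := {y : X × Circle // y.1 ∉ K ∧ g y.1 = y.2 ^ r}
  have hTx : Continuous fun q : T × ℝ => q.1.1.1 :=
    continuous_fst.comp (continuous_subtype_val.comp continuous_fst)
  have hTv : Continuous fun q : T × ℝ => q.1.1.2 :=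
    continuous_snd.comp (continuous_subtype_val.comp continuous_fst)
  have hTK : ∀ q : T × ℝ, q.1.1.1 ∈ Kᶜ := fun q => q.1.2.1
  have hTg : ∀ q : T × ℝ, g q.1.1.1 = q.1.1.2 ^ r := fun q => q.1.2.2
  have hTgc : Continuous fun q : T × ℝ => g q.1.1.1 := hg.comp_continuous hTx hTK
  have hTlc : Continuous fun q : T × ℝ => l q.1.1.1 := hl.comp_continuous hTx hTK
  let ζ : T × ℝ → Z := fun q => b (q.1.1.1, q.2)
  have hζ : Continuous ζ := hb.comp (hTx.prodMk continuous_snd)
  let u : T × ℝ → Circle := fun q => (ps (ζ q)).2 / (g q.1.1.1 ^ m * Circle.exp (l q.1.1.1))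
  have hO1 : IsOpen (ζ ⁻¹' range p) := hpo.preimage hζ
  have hpsζ : ContinuousOn (fun q => ps (ζ q)) (ζ ⁻¹' range p) :=
    hps.comp hζ.continuousOn fun q hq => hq
  have hden : Continuous fun q : T × ℝ => g q.1.1.1 ^ m * Circle.exp (l q.1.1.1) :=
    (hTgc.zpow m).mul (Circle.exp.continuous.comp hTlc)
  have hu : ContinuousOn u (ζ ⁻¹' range p) :=
    (continuous_snd.comp_continuousOn hpsζ).div' hden.continuousOn
  let O : Set (T × ℝ) := ζ ⁻¹' range p ∩ u ⁻¹' {Circle.exp Real.pi}ᶜ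
  have hO : IsOpen O := hu.isOpen_inter_preimage hO1 isOpen_compl_singleton
  let β : O → E × Circle := fun q => ((ps (ζ q.1)).1,
    q.1.1.1.2 ^ m * Circle.exp (l q.1.1.1.1 / r) * Circle.exp (Complex.arg (u q.1) / r))
  have hpsζO : Continuous fun q : O => ps (ζ q.1) :=
    (hpsζ.mono inter_subset_left).comp_continuous continuous_subtype_val fun q => q.2
  have huO : Continuous fun q : O => u q.1 :=
    (hu.mono inter_subset_left).comp_continuous continuous_subtype_val fun q => q.2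
  have hargO : Continuous fun q : O => Complex.arg (u q.1 : ℂ) := sl_arg huO fun q => q.2.2
  have hβ : Continuous β := by
    refine (continuous_fst.comp hpsζO).prodMk (((((hTv.comp continuous_subtype_val).zpow m)).mul
      (Circle.exp.continuous.comp ((hTlc.comp continuous_subtype_val).div_const _))).mul
      (Circle.exp.continuous.comp (hargO.div_const _)))
  have hpps : ∀ z ∈ range p, p (ps z) = z := by
    rintro _ ⟨y, rfl⟩
    rw [hpp]
  have hbbs : ∀ z ∈ range b, b (bs z) = z := by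
    rintro _ ⟨y, rfl⟩
    rw [hbb]
  -- the power of the second coordinate
  have hpow : ∀ q : O, (β q).2 ^ r = (ps (ζ q.1)).2 := by
    intro q
    show (q.1.1.1.2 ^ m * Circle.exp (l q.1.1.1.1 / r) *
      Circle.exp (Complex.arg (u q.1) / r)) ^ r = _
    rw [mul_pow, mul_pow, sl_exp hr, sl_exp hr, Circle.exp_arg, sl_comm, ← hTg q.1]
    show g q.1.1.1.1 ^ m * Circle.exp (l q.1.1.1.1) *
      ((ps (ζ q.1)).2 / (g q.1.1.1.1 ^ m * Circle.exp (l q.1.1.1.1))) = _
    rw [mul_div_cancel]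
  have hprβ : ∀ q : O, p ((β q).1, (β q).2 ^ r) = ζ q.1 := by
    intro q
    rw [hpow]
    exact hpps _ q.2.1
  -- the open set in the total space
  let π' : E × Circle → Z := fun e => p (e.1, e.2 ^ r)
  have hπ' : Continuous π' := hp.comp (continuous_fst.prodMk (continuous_snd.pow r))
  let ω : E × Circle → X × ℝ := fun e => bs (π' e)
  have hW1 : IsOpen (π' ⁻¹' range b) := hbo.preimage hπ'
  have hω : ContinuousOn ω (π' ⁻¹' range b) := hbs.comp hπ'.continuousOn fun e he => he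
  have hω1 : ContinuousOn (fun e => (ω e).1) (π' ⁻¹' range b) :=
    continuous_fst.comp_continuousOn hω
  let W2 : Set (E × Circle) := π' ⁻¹' range b ∩ (fun e => (ω e).1) ⁻¹' Kᶜ
  have hW2 : IsOpen W2 := hω1.isOpen_inter_preimage hW1 hK.isOpen_compl
  let w : E × Circle → Circle := fun e => e.2 ^ r / (g (ω e).1 ^ m * Circle.exp (l (ω e).1))
  have hgW : ContinuousOn (fun e => g (ω e).1) W2 :=
    hg.comp (hω1.mono inter_subset_left) fun e he => he.2
  have hlW : ContinuousOn (fun e => l (ω e).1) W2 :=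
    hl.comp (hω1.mono inter_subset_left) fun e he => he.2
  have hw : ContinuousOn w W2 :=
    ((continuous_snd.pow r).continuousOn).div'
      ((hgW.zpow m).mul (Circle.exp.continuous.comp_continuousOn hlW))
  let W : Set (E × Circle) := W2 ∩ w ⁻¹' {Circle.exp Real.pi}ᶜ
  have hW : IsOpen W := hw.isOpen_inter_preimage hW2 isOpen_compl_singleton
  have hωβ : ∀ q : O, ω (β q) = (q.1.1.1.1, q.1.2) := by
    intro q
    show bs (p ((β q).1, (β q).2 ^ r)) = _
    rw [hprβ]
    exact hbb _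
  have hwβ : ∀ q : O, w (β q) = u q.1 := by
    intro q
    show (β q).2 ^ r / (g (ω (β q)).1 ^ m * Circle.exp (l (ω (β q)).1)) = _
    rw [hpow, hωβ]
  have hβW : ∀ q : O, β q ∈ W := by
    intro q
    refine ⟨⟨?_, ?_⟩, ?_⟩
    · show p ((β q).1, (β q).2 ^ r) ∈ range b
      rw [hprβ]
      exact mem_range_self _
    · show (ω (β q)).1 ∈ Kᶜ
      rw [hωβ]
      exact hTK q.1
    · show w (β q) ≠ _
      rw [hwβ]
      exact q.2.2
  -- the inverse
  let vv : E × Circle → Circle := fun e =>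
    (e.2 * Circle.exp (-(Complex.arg (w e) / r)) * Circle.exp (-(l (ω e).1 / r))) ^ m
  have hvr : ∀ e : E × Circle, vv e ^ r = g (ω e).1 := by
    intro e
    show ((e.2 * Circle.exp (-(Complex.arg (w e) / r)) *
      Circle.exp (-(l (ω e).1 / r))) ^ m) ^ r = _
    rw [sl_comm, mul_pow, mul_pow, sl_neg, sl_neg, inv_pow, inv_pow, sl_exp hr, sl_exp hr,
      Circle.exp_arg]
    show (e.2 ^ r * (e.2 ^ r / (g (ω e).1 ^ m * Circle.exp (l (ω e).1)))⁻¹ *
      (Circle.exp (l (ω e).1))⁻¹) ^ m = _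
    have h1 : e.2 ^ r * (e.2 ^ r / (g (ω e).1 ^ m * Circle.exp (l (ω e).1)))⁻¹ *
        (Circle.exp (l (ω e).1))⁻¹ = g (ω e).1 ^ m := by
      rw [inv_div, mul_div_cancel, mul_inv_cancel_right]
    rw [h1, sl_mm hm]
  let τ : W → T × ℝ := fun e => (⟨((ω e.1).1, vv e.1), e.2.1.2, (hvr e.1).symm⟩, (ω e.1).2)
  have hζτ : ∀ e : W, ζ (τ e) = π' e.1 := by
    intro e
    show b ((ω e.1).1, (ω e.1).2) = _
    exact hbbs _ e.2.1.1
  have hpsτ : ∀ e : W, ps (ζ (τ e)) = (e.1.1, e.1.2 ^ r) := by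
    intro e
    rw [hζτ]
    exact hpp _
  have huτ : ∀ e : W, u (τ e) = w e.1 := by
    intro e
    show (ps (ζ (τ e))).2 / (g (ω e.1).1 ^ m * Circle.exp (l (ω e.1).1)) = _
    rw [hpsτ]
  have hτO : ∀ e : W, τ e ∈ O := by
    intro e
    refine ⟨?_, ?_⟩
    · show ζ (τ e) ∈ range p
      rw [hζτ]
      exact mem_range_self _
    · show u (τ e) ≠ _
      rw [huτ]
      exact e.2.2
  have hωW : Continuous fun e : W => ω e.1 :=
    hω.comp_continuous continuous_subtype_val fun e => e.2.1.1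
  have hlWc : Continuous fun e : W => l (ω e.1).1 :=
    hlW.comp_continuous continuous_subtype_val fun e => e.2.1
  have hwW : Continuous fun e : W => w e.1 :=
    hw.comp_continuous continuous_subtype_val fun e => e.2.1
  have hargW : Continuous fun e : W => Complex.arg (w e.1 : ℂ) := sl_arg hwW fun e => e.2.2
  have hvvW : Continuous fun e : W => vv e.1 :=
    (((continuous_snd.comp continuous_subtype_val).mul
      (Circle.exp.continuous.comp (hargW.div_const _).neg)).mul
      (Circle.exp.continuous.comp (hlWc.div_const _).neg)).zpow m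
  have hτ : Continuous τ :=
    (((continuous_fst.comp hωW).prodMk hvvW).subtype_mk _).prodMk (continuous_snd.comp hωW)
  let h : O ≃ₜ W :=
    { toFun := fun q => ⟨β q, hβW q⟩
      invFun := fun e => ⟨τ e, hτO e⟩
      left_inv := by
        intro q
        apply Subtype.ext
        have h1 : vv (β q) = q.1.1.1.2 := by
          show ((β q).2 * Circle.exp (-(Complex.arg (w (β q)) / r)) *
            Circle.exp (-(l (ω (β q)).1 / r))) ^ m = _
          rw [hwβ, hωβ]
          show (q.1.1.1.2 ^ m * Circle.exp (l q.1.1.1.1 / r) *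
            Circle.exp (Complex.arg (u q.1) / r) * Circle.exp (-(Complex.arg (u q.1) / r)) *
            Circle.exp (-(l q.1.1.1.1 / r))) ^ m = _
          rw [sl_neg, sl_neg, mul_inv_cancel_right, mul_inv_cancel_right, sl_mm hm]
        refine Prod.ext (Subtype.ext (Prod.ext ?_ h1)) ?_
        · show (ω (β q)).1 = _
          rw [hωβ]
        · show (ω (β q)).2 = _
          rw [hωβ]
      right_inv := by
        intro e
        apply Subtype.ext
        refine Prod.ext ?_ ?_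
        · show (ps (ζ (τ e))).1 = _
          rw [hpsτ]
        · show (vv e.1) ^ m * Circle.exp (l (ω e.1).1 / r) *
            Circle.exp (Complex.arg (u (τ e)) / r) = _
          rw [huτ]
          show ((e.1.2 * Circle.exp (-(Complex.arg (w e.1) / r)) *
            Circle.exp (-(l (ω e.1).1 / r))) ^ m) ^ m * Circle.exp (l (ω e.1).1 / r) *
            Circle.exp (Complex.arg (w e.1) / r) = _
          rw [sl_mm hm, sl_neg, sl_neg, inv_mul_cancel_right, inv_mul_cancel_right]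
      continuous_toFun := hβ.subtype_mk _
      continuous_invFun := hτ.subtype_mk _ }
  have hu0 : ∀ (y : T), u (y, 0) = 1 := by
    intro y
    show (ps (b (y.1.1, 0))).2 / (g y.1.1 ^ m * Circle.exp (l y.1.1)) = 1
    rw [(h0 y.1.1 y.2.1).2, div_self']
  refine ⟨O, β, hO, ?_, ?_, ?_, ?_⟩
  · have h1 : β = Subtype.val ∘ h := rfl
    rw [h1]
    exact hW.isOpenEmbedding_subtypeVal.comp h.isOpenEmbedding
  · intro y
    refine ⟨(h0 y.1.1 y.2.1).1, ?_⟩
    show u (y, 0) ≠ _
    rw [hu0]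
    exact hpi
  · rintro ⟨⟨y, s⟩, hys⟩ hs
    have hs' : s = 0 := hs
    subst hs'
    refine Prod.ext rfl ?_
    show y.1.2 ^ m * Circle.exp (l y.1.1 / r) * Circle.exp (Complex.arg (u (y, 0)) / r) =
      y.1.2 ^ m * Circle.exp (l y.1.1 / r)
    rw [hu0]
    simp
  · intro q
    exact hprβ q

/-- the shrinking map -/
private theorem sl_shrink {V : Type*} [NormedAddCommGroup V] [NormedSpace ℝ V] {ε : ℝ}
    (hε : 0 < ε) : ∃ ι : V → V, IsOpenEmbedding ι ∧ (∀ x, ‖ι x‖ < ε) ∧
      ∀ x, ∃ c : ℝ, 0 < c ∧ ι x = c • x := by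
  refine ⟨fun x => ε • OpenPartialHomeomorph.univUnitBall x, ?_, ?_, ?_⟩
  · exact (Homeomorph.smulOfNeZero ε hε.ne').isOpenEmbedding.comp
      (OpenPartialHomeomorph.univUnitBall.isOpenEmbedding rfl)
  · intro x
    have h1 : OpenPartialHomeomorph.univUnitBall x ∈ Metric.ball (0 : V) 1 :=
      OpenPartialHomeomorph.univUnitBall.map_source (mem_univ x)
    rw [mem_ball_zero_iff] at h1
    rw [norm_smul, Real.norm_of_nonneg hε.le]
    nlinarith
  · intro x
    refine ⟨ε * (Real.sqrt (1 + ‖x‖ ^ 2))⁻¹, by positivity, ?_⟩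
    show ε • OpenPartialHomeomorph.univUnitBall x = _
    rw [OpenPartialHomeomorph.univUnitBall_apply, smul_smul]

theorem isBicollared_main (Φ : Sph (n + 3) ≃ₜ Sph (n + 3))
    (hT : MeetsTransversally n (Φ '' stdSphere n) (range f))
    (H : {x : Sph (n + 3) // x ∉ stdSphere n} ≃ₜ EuclideanSpace ℝ (Fin (n + 2)) × Circle)
    (hH : ∀ x, (H x).2 = cpart (cc n x.1)) (m : ℤ) (hm : m = 1 ∨ m = -1)
    (l : Sph (n + 2) → ℝ) (hl : ContinuousOn l (range f)ᶜ)
    (hg : ContinuousOn g (range f)ᶜ) (hf : IsClosed (range f))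
    (hml : ∀ x, x ∉ range f → cpart (cc n (Φ.symm (incl n x))) = g x ^ m * Circle.exp (l x))
    (r : ℕ) (hr : r ≠ 0) :
    IsBicollared f g r (PP Φ H r) (QQ Φ H r) (phi Φ H m l r) := by
  have hne : Nonempty (Sph (n + 2)) := ⟨⟨EuclideanSpace.single 0 1, by simp⟩⟩
  have hneE : Nonempty (EE n) := ⟨(0, 1)⟩
  have hst : ∀ x : Sph (n + 2), x ∉ range f → Φ.symm (incl n x) ∉ stdSphere n := fun x hx =>
    (symm_incl_notMem Φ hT x).2 hx
  obtain ⟨b, hb, hb0, hbP, hbQ⟩ := exists_bic n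
  have hSc : IsClosed (stdSphere n) := by
    have h1 : stdSphere n = cc n ⁻¹' {0} := by
      ext x
      exact mem_stdSphere x
    rw [h1]
    exact isClosed_singleton.preimage (continuous_cc n)
  let p : EE n → Sph (n + 3) := fun e => Φ (H.symm e).1
  have hp : IsOpenEmbedding p :=
    Φ.isOpenEmbedding.comp (hSc.isOpen_compl.isOpenEmbedding_subtypeVal.comp
      H.symm.isOpenEmbedding)
  let bs := (hb.toOpenPartialHomeomorph b).symm
  let ps := (hp.toOpenPartialHomeomorph p).symm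
  have hbb : ∀ y, bs (b y) = y := fun y =>
    (hb.toOpenPartialHomeomorph b).left_inv (mem_univ y)
  have hpp : ∀ y, ps (p y) = y := fun y =>
    (hp.toOpenPartialHomeomorph p).left_inv (mem_univ y)
  have hbs : ContinuousOn bs (range b) := by
    have h1 := (hb.toOpenPartialHomeomorph b).continuousOn_symm
    rwa [hb.toOpenPartialHomeomorph_target] at h1
  have hps : ContinuousOn ps (range p) := by
    have h1 := (hp.toOpenPartialHomeomorph p).continuousOn_symm
    rwa [hp.toOpenPartialHomeomorph_target] at h1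
  have hpi : ∀ (x : Sph (n + 2)) (h : Φ.symm (incl n x) ∉ stdSphere n),
      p (H ⟨_, h⟩) = incl n x := by
    intro x h
    show Φ (H.symm (H ⟨_, h⟩)).1 = _
    rw [H.symm_apply_apply, Φ.apply_symm_apply]
  have hpsi : ∀ (x : Sph (n + 2)) (h : Φ.symm (incl n x) ∉ stdSphere n),
      ps (b (x, 0)) = H ⟨_, h⟩ := by
    intro x h
    have h1 : ps (incl n x) = ps (p (H ⟨_, h⟩)) := by rw [hpi x h]
    rw [hb0, h1, hpp]
  obtain ⟨O, β, hO, hβ, hO0, hβ0, hprβ⟩ := sl_beta (range f) hf g hg l hl m hm r hr b bs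
    hb.continuous hb.isOpen_range hbs hbb p ps hp.continuous hp.isOpen_range hps hpp (by
      intro x hx
      refine ⟨?_, ?_⟩
      · rw [hb0, ← hpi x (hst x hx)]
        exact mem_range_self _
      · rw [hpsi x (hst x hx), hH]
        exact hml x hx)
  intro j hj
  -- the size of the box
  obtain ⟨ε, hε, hεO⟩ : ∃ ε : ℝ, 0 < ε ∧ ∀ (a : Fin (n + 2) → ℝ) (s : ℝ), ‖a‖ < ε → ‖s‖ < ε →
      (j a, s) ∈ O := by
    have h1 : IsOpen ((fun q : (Fin (n + 2) → ℝ) × ℝ => (j q.1, q.2)) ⁻¹' O) :=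
      hO.preimage ((hj.continuous.comp continuous_fst).prodMk continuous_snd)
    obtain ⟨ε, hε, h2⟩ := Metric.isOpen_iff.1 h1 (0, 0) (hO0 (j 0))
    refine ⟨ε, hε, fun a s ha hs => ?_⟩
    have h3 : (a, s) ∈ Metric.ball ((0, 0) : (Fin (n + 2) → ℝ) × ℝ) ε := by
      rw [← ball_prod_same]
      exact ⟨mem_ball_zero_iff.2 ha, mem_ball_zero_iff.2 hs⟩
    exact h2 h3
  obtain ⟨ι, hι, hιε, hιc⟩ := sl_shrink (V := Fin (n + 2) → ℝ) hε
  have hι0 : ι 0 = 0 := by
    obtain ⟨c, -, hc⟩ := hιc 0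
    rw [hc, smul_zero]
  obtain ⟨σ, hσ, hσε, hσc⟩ := sl_shrink (V := ℝ) hε
  have hσ0 : σ 0 = 0 := by
    obtain ⟨c, -, hc⟩ := hσc 0
    rw [hc, smul_zero]
  have hσP : ∀ s, 0 ≤ σ s ↔ 0 ≤ s := by
    intro s
    obtain ⟨c, hc0, hc⟩ := hσc s
    rw [hc, smul_eq_mul]
    exact mul_nonneg_iff_of_pos_left hc0
  have hσQ : ∀ s, σ s ≤ 0 ↔ s ≤ 0 := by
    intro s
    obtain ⟨c, hc0, hc⟩ := hσc s
    rw [hc, smul_eq_mul]
    constructor
    · intro h1
      by_contra h2
      push Not at h2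
      exact absurd h1 (not_le.2 (mul_pos hc0 h2))
    · intro h1
      exact mul_nonpos_of_nonneg_of_nonpos hc0.le h1
  let κ : (Fin (n + 2) → ℝ) × ℝ → O := fun q =>
    ⟨(j (ι q.1), σ q.2), hεO _ _ (hιε q.1) (hσε q.2)⟩
  have hκ : IsOpenEmbedding κ := by
    refine IsOpenEmbedding.of_comp κ hO.isOpenEmbedding_subtypeVal ?_
    exact (hj.comp hι).prodMap hσ
  refine ⟨ι, β ∘ κ, hι, hι0, hβ.comp hκ, ?_, ?_, ?_⟩
  · intro a
    show β (κ (a, 0)) = _
    rw [hβ0 (κ (a, 0)) hσ0]
    have h1 : Φ.symm (incl n (j (ι a)).1.1) ∉ stdSphere n := hst _ (j (ι a)).2.1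
    unfold phi
    rw [dif_pos h1]
    show ((ps (b ((j (ι a)).1.1, 0))).1, _) = _
    rw [hpsi _ h1]
  · intro a s
    show 0 ≤ (p ((β (κ (a, s))).1, (β (κ (a, s))).2 ^ r)).1 (Fin.last (n + 3)) ↔ _
    rw [hprβ]
    exact (hbP _ _).trans (hσP s)
  · intro a s
    show (p ((β (κ (a, s))).1, (β (κ (a, s))).2 ^ r)).1 (Fin.last (n + 3)) ≤ 0 ↔ _
    rw [hprβ]
    exact (hbQ _ _).trans (hσQ s)

end Pool.Agent.Helper82.DK2
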