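import Pool.Agent.Helper82.DK2.SplitMain
import Pool.Agent.Helper82.DK2.SplitLocal

/-!
# The splitting theorem
-/

namespace Pool.Agent.Helper82.DK2

open Set Topology

variable {n : ℕ} {f : Sph n → Sph (n + 2)} {g : Sph (n + 2) → Circle}

/-- **The splitting theorem.** -/
theorem exists_split (hf : IsKnot n f) (hg : ContinuousOn g (range f)ᶜ)
    (h : IsSimplyConnected (cyc f g)) (hDS : IsDoublySlice f) (r : ℕ) (hr : r ≠ 0) :
    ∃ P Q φ ψ m, IsSplit f g r P Q φ ψ m ∧ IsBicollared f g r P Q φ := by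
  obtain ⟨S, ⟨Φ, rfl⟩, hT⟩ := hDS
  obtain ⟨H, hH⟩ := exists_stdHomeo n
  obtain ⟨m, l, hm, hl, hml⟩ := exists_sign hg (res_gen hf hg h) Φ hT
  classical
  set L : Sph (n + 2) → ℝ := fun x => if hx : x ∉ range f then l ⟨x, hx⟩ else 0 with hL
  have hLc : ContinuousOn L (range f)ᶜ := by
    rw [continuousOn_iff_continuous_domRestrict]
    refine hl.congr fun x => ?_
    have hx : (x : Sph (n + 2)) ∉ range f := x.2
    simp only [hL, domRestrict_apply]
    rw [dif_pos hx]
  have hLg : ∀ x, x ∉ range f →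
      cpart (cc n (Φ.symm (incl n x))) = g x ^ m * Circle.exp (L x) := fun x hx => by
    rw [hml ⟨x, hx⟩, hL]; simp only [dif_pos hx]
  exact ⟨_, _, _, _, m, isSplit_main Φ hT H hH m hm L hLc hLg r hr,
    isBicollared_main Φ hT H hH m hm L hLc hg hf.isCompact_range.isClosed hLg r hr⟩

end Pool.Agent.Helper82.DK2
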