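import Pool.Agent.Helper82.DK2.Circ
import Pool.Agent.Helper82.DK2.CPart

/-!
# DK-O2: maps to the circle on boxes with a removed core (about 100-150 lines)

`box_gen`. Let `W = {(a, w) : a ∈ C, 0 < |w| < ε}`, an open subset of `V × ℂ`, so it is locally path
connected, and so is `Y` (`IsOpenEmbedding.locallyPathConnectedSpace` for `Subtype.val ∘ Θ`, or
`IsOpen.locallyPathConnectedSpace`). The pull-back `PB u` is homeomorphic to
`C × (0, ε) × ℝ` by `(y, t) ↦ (a, |w|, t)`, `Θ y = (a, w)`, with inverse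
`(a, r, t) ↦ (Θ⁻¹ (a, r exp (i t)), t)` (here `u = w / |w| = exp (i t)`). This is a nonempty convex
subset of `V × ℝ × ℝ`, hence contractible (`Convex.contractibleSpace`) and simply connected
(`SimplyConnectedSpace.ofContractible`, transport with
`ContinuousMap.HomotopyEquiv.simplyConnectedSpace`). Apply `gen_of_simplyConnected`.

`std_box`. Let `y₀ = cy p₀`, a unit vector, `cc p₀ = 0`. Let `V = (ℝ ∙ y₀)ᗮ`, and for
`(a, w) ∈ V × ℂ` let `G (a, w) ∈ Sph (k + 3)` be the point proportional to `(y₀ + a, w)`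
(`exists_mk_std`). `G` is continuous, `G (0, 0) = p₀`, so there is `δ > 0` with `G (a, w) ∈ N` for
`|a| < δ`, `|w| < δ`. Let `B = G '' {|a| < δ, 0 < |w| < δ}`. `G` is a homeomorphism from this set to
`B`: the inverse is `x ↦ (cy x / ⟨cy x, y₀⟩ - y₀, cc x / ⟨cy x, y₀⟩)`, because
`⟨cy (G (a, w)), y₀⟩ = 1 / √(|y₀ + a|² + |w|²) > 0`. Moreover `cpart (cc (G (a, w))) = w / |w|`. Apply
`box_gen` with `C = ball 0 δ`.
-/

namespace Pool.Agent.Helper82.DK2

open Set Topology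

theorem box_gen {V : Type*} [NormedAddCommGroup V] [NormedSpace ℝ V] (C : Set V)
    (hC : Convex ℝ C) (hCo : IsOpen C) (hne : C.Nonempty) (ε : ℝ) (hε : 0 < ε) {Y : Type*}
    [TopologicalSpace Y] (Θ : Y ≃ₜ {p : V × ℂ // p.1 ∈ C ∧ 0 < ‖p.2‖ ∧ ‖p.2‖ < ε}) (u : Y → Circle)
    (hu : ∀ y, u y = cpart (Θ y).1.2) : Gen u := by
  -- `Y` is locally path connected
  have hSo : IsOpen {p : V × ℂ | p.1 ∈ C ∧ 0 < ‖p.2‖ ∧ ‖p.2‖ < ε} := by
    refine (hCo.preimage continuous_fst).inter (IsOpen.inter ?_ ?_)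
    · exact isOpen_lt continuous_const (continuous_norm.comp continuous_snd)
    · exact isOpen_lt (continuous_norm.comp continuous_snd) continuous_const
  have hloc : LocallyPathConnectedSpace Y :=
    (hSo.isOpenEmbedding_subtypeVal.comp Θ.isOpenEmbedding).locallyPathConnectedSpace
  -- continuity
  have hΘ1 : Continuous fun y => (Θ y).1.1 :=
    continuous_fst.comp (continuous_subtype_val.comp Θ.continuous)
  have hΘ2 : Continuous fun y => (Θ y).1.2 :=
    continuous_snd.comp (continuous_subtype_val.comp Θ.continuous)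
  have hne0 : ∀ y, (Θ y).1.2 ≠ 0 := fun y => norm_pos_iff.1 (Θ y).2.2.1
  have hucont : Continuous u := by
    have h1 : u = fun y => cpart (Θ y).1.2 := funext hu
    rw [h1]
    exact continuousOn_cpart.comp_continuous hΘ2 hne0
  -- the convex set
  obtain ⟨K, hK⟩ : ∃ K : Set (V × ℝ × ℝ), K = C ×ˢ (Ioo (0 : ℝ) ε ×ˢ (univ : Set ℝ)) := ⟨_, rfl⟩
  have hKc : Convex ℝ K := by
    rw [hK]
    exact hC.prod ((convex_Ioo 0 ε).prod convex_univ)
  have hKn : K.Nonempty := by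
    rw [hK]
    exact hne.prod ((nonempty_Ioo.2 hε).prod univ_nonempty)
  have hmem : ∀ q : K, q.1.1 ∈ C ∧ 0 < q.1.2.1 ∧ q.1.2.1 < ε := by
    intro q
    have h : q.1 ∈ C ×ˢ (Ioo (0 : ℝ) ε ×ˢ (univ : Set ℝ)) := hK.subset q.2
    exact ⟨h.1, h.2.1.1, h.2.1.2⟩
  have hnorm : ∀ (r t : ℝ), 0 < r → ‖((r : ℂ) * (Circle.exp t : ℂ))‖ = r := by
    intro r t hr
    rw [norm_mul, Circle.norm_coe, mul_one, Complex.norm_real, Real.norm_of_nonneg hr.le]
  have hW : ∀ q : K, ((q.1.1, ((q.1.2.1 : ℂ) * (Circle.exp q.1.2.2 : ℂ))) : V × ℂ).1 ∈ C ∧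
      0 < ‖((q.1.1, ((q.1.2.1 : ℂ) * (Circle.exp q.1.2.2 : ℂ))) : V × ℂ).2‖ ∧
      ‖((q.1.1, ((q.1.2.1 : ℂ) * (Circle.exp q.1.2.2 : ℂ))) : V × ℂ).2‖ < ε := by
    intro q
    obtain ⟨h1, h2, h3⟩ := hmem q
    refine ⟨h1, ?_, ?_⟩
    · show 0 < ‖((q.1.2.1 : ℂ) * (Circle.exp q.1.2.2 : ℂ))‖
      rw [hnorm _ _ h2]
      exact h2
    · show ‖((q.1.2.1 : ℂ) * (Circle.exp q.1.2.2 : ℂ))‖ < ε
      rw [hnorm _ _ h2]
      exact h3
  have hpolar : ∀ e : PB u, (((‖(Θ e.1.1).1.2‖ : ℝ) : ℂ) * (Circle.exp e.1.2 : ℂ)) =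
      (Θ e.1.1).1.2 := by
    intro e
    rw [← e.2, hu, coe_cpart (hne0 _)]
    have h0 : ((‖(Θ e.1.1).1.2‖ : ℝ) : ℂ) ≠ 0 := by
      rw [Complex.ofReal_ne_zero]
      exact norm_ne_zero_iff.2 (hne0 _)
    field_simp
  let Ψ : PB u ≃ₜ K :=
    { toFun := fun e => ⟨((Θ e.1.1).1.1, (‖(Θ e.1.1).1.2‖, e.1.2)), by
        rw [hK]
        exact ⟨(Θ e.1.1).2.1, ⟨(Θ e.1.1).2.2.1, (Θ e.1.1).2.2.2⟩, mem_univ _⟩⟩
      invFun := fun q => ⟨(Θ.symm ⟨(q.1.1, ((q.1.2.1 : ℂ) * (Circle.exp q.1.2.2 : ℂ))), hW q⟩,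
        q.1.2.2), by
          rw [hu, Homeomorph.apply_symm_apply]
          show cpart ((q.1.2.1 : ℂ) * (Circle.exp q.1.2.2 : ℂ)) = _
          rw [cpart_pos (hmem q).2.1, cpart_coe]⟩
      left_inv := by
        intro e
        apply Subtype.ext
        refine Prod.ext ?_ rfl
        show Θ.symm ⟨((Θ e.1.1).1.1, ((‖(Θ e.1.1).1.2‖ : ℝ) : ℂ) * (Circle.exp e.1.2 : ℂ)), _⟩ =
          e.1.1
        rw [Homeomorph.symm_apply_eq]
        apply Subtype.ext
        exact Prod.ext rfl (hpolar e)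
      right_inv := by
        intro q
        apply Subtype.ext
        show ((Θ (Θ.symm ⟨(q.1.1, ((q.1.2.1 : ℂ) * (Circle.exp q.1.2.2 : ℂ))), hW q⟩)).1.1,
          (‖(Θ (Θ.symm ⟨(q.1.1, ((q.1.2.1 : ℂ) * (Circle.exp q.1.2.2 : ℂ))), hW q⟩)).1.2‖,
            q.1.2.2)) = q.1
        rw [Homeomorph.apply_symm_apply]
        refine Prod.ext rfl (Prod.ext ?_ rfl)
        exact hnorm _ _ (hmem q).2.1
      continuous_toFun := by
        have h1 : Continuous fun e : PB u => e.1.1 := continuous_fst.comp continuous_subtype_val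
        have h2 : Continuous fun e : PB u => e.1.2 := continuous_snd.comp continuous_subtype_val
        exact Continuous.subtype_mk ((hΘ1.comp h1).prodMk
          ((continuous_norm.comp (hΘ2.comp h1)).prodMk h2)) _
      continuous_invFun := by
        have h1 : Continuous fun q : K => q.1.1 := continuous_fst.comp continuous_subtype_val
        have h2 : Continuous fun q : K => q.1.2.1 :=
          continuous_fst.comp (continuous_snd.comp continuous_subtype_val)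
        have h3 : Continuous fun q : K => q.1.2.2 :=
          continuous_snd.comp (continuous_snd.comp continuous_subtype_val)
        refine Continuous.subtype_mk (Continuous.prodMk ?_ h3) _
        refine Θ.symm.continuous.comp (Continuous.subtype_mk (h1.prodMk ?_) _)
        exact (Complex.continuous_ofReal.comp h2).mul
          (continuous_subtype_val.comp (Circle.exp.continuous.comp h3)) }
  have hcon : ContractibleSpace K := hKc.contractibleSpace hKn
  have hcon2 : ContractibleSpace (PB u) := Ψ.contractibleSpace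
  exact gen_of_simplyConnected hucont

theorem std_box (k : ℕ) (p₀ : Sph (k + 3)) (hp₀ : p₀ ∈ stdSphere k) (N : Set (Sph (k + 3)))
    (hN : N ∈ 𝓝 p₀) : ∃ B : Set (Sph (k + 3)), B ⊆ N ∧ (∀ x ∈ B, x ∉ stdSphere k) ∧
      Gen (fun x : B => cpart (cc k x.1)) := by
  obtain ⟨F, hF, hF2⟩ := exists_mk_std k
  obtain ⟨y₀, hy₀⟩ : ∃ y₀, y₀ = cy k p₀ := ⟨_, rfl⟩
  have hc₀ : cc k p₀ = 0 := (mem_stdSphere p₀).1 hp₀
  have hn₀ : ‖y₀‖ = 1 := by
    have h := norm_cy_cc p₀
    rw [hc₀, norm_zero, ← hy₀] at h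
    have h2 : ‖y₀‖ ^ 2 = 1 := by linarith
    exact (pow_eq_one_iff_of_nonneg (norm_nonneg y₀) two_ne_zero).1 h2
  obtain ⟨V, hV⟩ : ∃ V : Submodule ℝ (EuclideanSpace ℝ (Fin (k + 2))), V = (ℝ ∙ y₀)ᗮ := ⟨_, rfl⟩
  have hin : ∀ a : V, inner ℝ y₀ (y₀ + (a : EuclideanSpace ℝ (Fin (k + 2)))) = (1 : ℝ) := by
    intro a
    have ha : (a : EuclideanSpace ℝ (Fin (k + 2))) ∈ (ℝ ∙ y₀)ᗮ := hV.le a.2
    rw [Submodule.mem_orthogonal_singleton_iff_inner_right] at ha
    rw [inner_add_right, ha, real_inner_self_eq_norm_sq, hn₀]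
    norm_num
  have hP0 : V.orthogonalProjectionOnto y₀ = 0 := by
    apply Submodule.orthogonalProjectionOnto_apply_of_mem_orthogonal
    rw [hV, Submodule.orthogonal_orthogonal]
    exact Submodule.mem_span_singleton_self y₀
  have hPa : ∀ a : V, V.orthogonalProjectionOnto (a : EuclideanSpace ℝ (Fin (k + 2))) = a := fun a =>
    Submodule.orthogonalProjectionOnto_mem_subspace_eq_self a
  obtain ⟨G, hG⟩ : ∃ G : V × ℂ → Sph (k + 3),
      G = fun p => F (y₀ + (p.1 : EuclideanSpace ℝ (Fin (k + 2))), p.2) := ⟨_, rfl⟩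
  have hGne : ∀ p : V × ℂ, ((y₀ + (p.1 : EuclideanSpace ℝ (Fin (k + 2))), p.2) :
      EuclideanSpace ℝ (Fin (k + 2)) × ℂ) ≠ 0 := by
    intro p h
    have h1 := congrArg Prod.fst h
    have h2 := hin p.1
    simp only [Prod.fst_zero] at h1
    rw [h1, inner_zero_right] at h2
    exact zero_ne_one h2
  obtain ⟨s, hs⟩ : ∃ s : V × ℂ → ℝ, s = fun p =>
      (Real.sqrt (‖y₀ + (p.1 : EuclideanSpace ℝ (Fin (k + 2)))‖ ^ 2 + ‖p.2‖ ^ 2))⁻¹ := ⟨_, rfl⟩
  have hspos : ∀ p, 0 < s p := by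
    intro p
    rw [hs]
    have h1 : y₀ + (p.1 : EuclideanSpace ℝ (Fin (k + 2))) ≠ 0 := by
      intro h
      have h2 := hin p.1
      rw [h, inner_zero_right] at h2
      exact zero_ne_one h2
    have h2 := norm_pos_iff.2 h1
    positivity
  have hcy : ∀ p : V × ℂ, cy k (G p) = s p • (y₀ + (p.1 : EuclideanSpace ℝ (Fin (k + 2)))) := by
    intro p
    rw [hG, hs]
    exact (hF2 _ _ (hGne p)).1
  have hcc : ∀ p : V × ℂ, cc k (G p) = (s p : ℂ) * p.2 := by
    intro p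
    rw [hG, hs]
    exact (hF2 _ _ (hGne p)).2
  have hGc : Continuous G := by
    rw [hG]
    refine hF.comp_continuous ?_ hGne
    exact (continuous_const.add (continuous_subtype_val.comp continuous_fst)).prodMk continuous_snd
  have hG0 : G 0 = p₀ := by
    apply ext_std
    · rw [hcy, hs]
      simp only [Prod.fst_zero, Prod.snd_zero, ZeroMemClass.coe_zero, add_zero, norm_zero, hn₀]
      rw [← hy₀]
      simp
    · rw [hcc, hc₀, Prod.snd_zero, mul_zero]
  -- the inverse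
  have hinner : ∀ p : V × ℂ, inner ℝ y₀ (cy k (G p)) = s p := by
    intro p
    rw [hcy, real_inner_smul_right, hin, mul_one]
  have hprj : ∀ p : V × ℂ, V.orthogonalProjectionOnto (cy k (G p)) = s p • p.1 := by
    intro p
    rw [hcy, map_smul, map_add, hP0, hPa, zero_add]
  obtain ⟨T, hT⟩ : ∃ T : Sph (k + 3) → V × ℂ, T = fun x =>
      ((inner ℝ y₀ (cy k x))⁻¹ • V.orthogonalProjectionOnto (cy k x),
        ((inner ℝ y₀ (cy k x) : ℝ) : ℂ)⁻¹ * cc k x) := ⟨_, rfl⟩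
  have hTG : ∀ p, T (G p) = p := by
    intro p
    have h0 := (hspos p).ne'
    rw [hT]
    show ((inner ℝ y₀ (cy k (G p)))⁻¹ • V.orthogonalProjectionOnto (cy k (G p)),
        ((inner ℝ y₀ (cy k (G p)) : ℝ) : ℂ)⁻¹ * cc k (G p)) = p
    rw [hinner, hprj, hcc]
    refine Prod.ext ?_ ?_
    · show (s p)⁻¹ • (s p • p.1) = p.1
      rw [smul_smul, inv_mul_cancel₀ h0, one_smul]
    · show ((s p : ℝ) : ℂ)⁻¹ * ((s p : ℂ) * p.2) = p.2
      rw [← mul_assoc, inv_mul_cancel₀ (Complex.ofReal_ne_zero.2 h0), one_mul]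
  have hTc : ContinuousOn T {x | inner ℝ y₀ (cy k x) ≠ (0 : ℝ)} := by
    rw [hT]
    have h1 : Continuous fun x : Sph (k + 3) => inner ℝ y₀ (cy k x) :=
      continuous_const.inner (continuous_cy k)
    refine ContinuousOn.prodMk ?_ ?_
    · exact (h1.continuousOn.inv₀ (fun x hx => hx)).smul
        ((V.orthogonalProjectionOnto.continuous.comp (continuous_cy k)).continuousOn)
    · refine ContinuousOn.mul ?_ (continuous_cc k).continuousOn
      exact (Complex.continuous_ofReal.comp h1).continuousOn.inv₀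
        (fun x hx => Complex.ofReal_ne_zero.2 hx)
  -- the box
  have hGN : G ⁻¹' N ∈ 𝓝 (0 : V × ℂ) := by
    refine hGc.continuousAt ?_
    rw [hG0]
    exact hN
  obtain ⟨δ, hδ, hball⟩ := Metric.mem_nhds_iff.1 hGN
  obtain ⟨S, hS⟩ : ∃ S : Set (V × ℂ), S = {p | p.1 ∈ Metric.ball (0 : V) δ ∧ 0 < ‖p.2‖ ∧ ‖p.2‖ < δ} :=
    ⟨_, rfl⟩
  have hSmem : ∀ p : V × ℂ, p ∈ S ↔ p.1 ∈ Metric.ball (0 : V) δ ∧ 0 < ‖p.2‖ ∧ ‖p.2‖ < δ := by
    intro p
    rw [hS]
    exact Iff.rfl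
  refine ⟨G '' S, ?_, ?_, ?_⟩
  · rintro _ ⟨p, hp, rfl⟩
    rw [hSmem] at hp
    obtain ⟨h1, h2, h3⟩ := hp
    apply hball
    rw [mem_ball_zero_iff] at h1 ⊢
    rw [Prod.norm_def]
    exact max_lt h1 h3
  · rintro _ ⟨p, hp, rfl⟩ hstd
    rw [mem_stdSphere, hcc] at hstd
    rw [hSmem] at hp
    rcases mul_eq_zero.1 hstd with h | h
    · exact (hspos p).ne' (Complex.ofReal_eq_zero.1 h)
    · rw [h, norm_zero] at hp
      exact lt_irrefl _ hp.2.1
  · let Θ : ↥(G '' S) ≃ₜ {p : V × ℂ // p.1 ∈ Metric.ball (0 : V) δ ∧ 0 < ‖p.2‖ ∧ ‖p.2‖ < δ} :=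
      { toFun := fun x => ⟨T x.1, by
          obtain ⟨p, hp, hx⟩ := x.2
          rw [← hx, hTG]
          exact (hSmem p).1 hp⟩
        invFun := fun p => ⟨G p.1, ⟨p.1, (hSmem p.1).2 p.2, rfl⟩⟩
        left_inv := by
          rintro ⟨_, p, hp, rfl⟩
          apply Subtype.ext
          show G (T (G p)) = G p
          rw [hTG]
        right_inv := by
          rintro ⟨p, hp⟩
          apply Subtype.ext
          exact hTG p
        continuous_toFun := by
          refine Continuous.subtype_mk ?_ _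
          refine hTc.comp_continuous continuous_subtype_val ?_
          rintro ⟨_, p, hp, rfl⟩
          show inner ℝ y₀ (cy k (G p)) ≠ (0 : ℝ)
          rw [hinner]
          exact (hspos p).ne'
        continuous_invFun := Continuous.subtype_mk (hGc.comp continuous_subtype_val) _ }
    refine box_gen (Metric.ball (0 : V) δ) (convex_ball 0 δ) Metric.isOpen_ball
      (Metric.nonempty_ball.2 hδ) δ hδ Θ _ ?_
    rintro ⟨_, p, hp, rfl⟩
    show cpart (cc k (G p)) = cpart (T (G p)).2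
    rw [hTG, hcc, cpart_pos (hspos p)]

end Pool.Agent.Helper82.DK2
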