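import Mathlib

/-!
# Maps to the circle and the infinite cyclic cover which is the pull-back of the universal cover
-/

namespace Pool.Agent.Helper82.DK2

open Set Topology

/-- The pull-back of the universal cover of the circle along `g`. -/
abbrev PB {X : Type*} (g : X → Circle) : Type _ := {p : X × ℝ // g p.1 = Circle.exp p.2}

/-- The projection of the pull-back. -/
def PB.proj {X : Type*} (g : X → Circle) : PB g → X := fun e => e.1.1

theorem exp_add_int (t : ℝ) (k : ℤ) : Circle.exp (t + k * (2 * Real.pi)) = Circle.exp t :=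
  Circle.exp_eq_exp.2 ⟨k, rfl⟩

noncomputable instance PB.addAction {X : Type*} (g : X → Circle) : AddAction ℤ (PB g) where
  vadd k e := ⟨(e.1.1, e.1.2 + k * (2 * Real.pi)), by
    rw [exp_add_int]; exact e.2⟩
  zero_vadd e := by
    apply Subtype.ext; apply Prod.ext
    · rfl
    · change e.1.2 + ((0 : ℤ) : ℝ) * (2 * Real.pi) = e.1.2
      simp
  add_vadd k m e := by
    apply Subtype.ext; apply Prod.ext
    · rfl
    · change e.1.2 + ((k + m : ℤ) : ℝ) * (2 * Real.pi) =
        (e.1.2 + (m : ℝ) * (2 * Real.pi)) + (k : ℝ) * (2 * Real.pi)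
      push_cast; ring

theorem PB.vadd_fst {X : Type*} (g : X → Circle) (k : ℤ) (e : PB g) : (k +ᵥ e).1.1 = e.1.1 := rfl

theorem PB.vadd_snd {X : Type*} (g : X → Circle) (k : ℤ) (e : PB g) :
    (k +ᵥ e).1.2 = e.1.2 + k * (2 * Real.pi) := rfl

variable {X Y : Type*} [TopologicalSpace X] [TopologicalSpace Y]

theorem PB.continuous_proj (g : X → Circle) : Continuous (PB.proj g) :=
  continuous_fst.comp continuous_subtype_val

omit [TopologicalSpace X] in
theorem PB.surjective_proj (g : X → Circle) : Function.Surjective (PB.proj g) := fun x => by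
  obtain ⟨t, ht⟩ := Circle.exp_surjective (g x)
  exact ⟨⟨(x, t), ht.symm⟩, rfl⟩

theorem PB.isOpenMap_proj {g : X → Circle} (hg : Continuous g) : IsOpenMap (PB.proj g) := by
  rintro W ⟨O, hO, rfl⟩
  rw [isOpen_iff_mem_nhds]
  rintro _ ⟨⟨⟨x, t⟩, hxt⟩, hO', rfl⟩
  obtain ⟨U, V, hU, hV, hxU, htV, hUV⟩ := isOpen_prod_iff.1 hO x t hO'
  have h1 : IsOpen (U ∩ g ⁻¹' (Circle.exp '' V)) :=
    hU.inter ((isLocalHomeomorph_circleExp.isOpenMap V hV).preimage hg)
  refine Filter.mem_of_superset (h1.mem_nhds ⟨hxU, t, htV, hxt.symm⟩) ?_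
  rintro y ⟨hyU, s, hsV, hs⟩
  exact ⟨⟨(y, s), hs.symm⟩, hUV ⟨hyU, hsV⟩, rfl⟩

theorem PB.isQuotientMap_proj {g : X → Circle} (hg : Continuous g) :
    IsQuotientMap (PB.proj g) :=
  (PB.isOpenMap_proj hg).isQuotientMap (PB.continuous_proj g) (PB.surjective_proj g)

theorem PB.covering {g : X → Circle} (hg : Continuous g) :
    IsAddQuotientCoveringMap (PB.proj g) ℤ where
  toIsQuotientMap := PB.isQuotientMap_proj hg
  continuous_const_vadd k := by
    refine Continuous.subtype_mk (Continuous.prodMk ?_ ?_) _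
    · exact continuous_fst.comp continuous_subtype_val
    · exact (continuous_snd.comp continuous_subtype_val).add continuous_const
  apply_eq_iff_mem_orbit {e₁ e₂} := by
    constructor
    · intro h
      have h' : e₁.1.1 = e₂.1.1 := h
      have h1 : Circle.exp e₁.1.2 = Circle.exp e₂.1.2 := by rw [← e₁.2, ← e₂.2, h']
      obtain ⟨m, hm⟩ := Circle.exp_eq_exp.1 h1
      exact ⟨m, Subtype.ext (Prod.ext h'.symm hm.symm)⟩
    · rintro ⟨m, rfl⟩
      rfl
  disjoint e := by
    refine ⟨{e' | |e'.1.2 - e.1.2| < 1}, ?_, ?_⟩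
    · refine IsOpen.mem_nhds ?_ (by simp)
      exact isOpen_lt (((continuous_snd.comp continuous_subtype_val).sub
        continuous_const).abs) continuous_const
    · rintro k ⟨_, ⟨e', he', rfl⟩, he⟩
      simp only [mem_ofPred_eq] at he' he
      rw [PB.vadd_snd] at he
      by_contra hk
      have h1 : (1 : ℝ) ≤ |(k : ℝ)| := by exact_mod_cast Int.one_le_abs hk
      have h2 : |(k : ℝ) * (2 * Real.pi)| < 2 := by
        have : (k : ℝ) * (2 * Real.pi) = (e'.1.2 + k * (2 * Real.pi) - e.1.2) - (e'.1.2 - e.1.2) := by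
          ring
        rw [this]
        calc _ ≤ |e'.1.2 + k * (2 * Real.pi) - e.1.2| + |e'.1.2 - e.1.2| := abs_sub _ _
          _ < 2 := by linarith
      rw [abs_mul, abs_of_pos (by positivity : (0 : ℝ) < 2 * Real.pi)] at h2
      nlinarith [Real.pi_gt_three]

theorem locPath_of_isLocalHomeomorph {p : Y → X} (hp : IsLocalHomeomorph p)
    [LocallyPathConnectedSpace X] : LocallyPathConnectedSpace Y where
  path_connected_basis y := by
    rw [Filter.hasBasis_self]
    intro N hN
    obtain ⟨q, hq, rfl⟩ := hp y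
    have h1 : q.target ∩ q.symm ⁻¹' N ∈ 𝓝 (q y) := by
      refine Filter.inter_mem (q.open_target.mem_nhds (q.map_source hq)) ?_
      have h2 := q.continuousAt_symm (q.map_source hq)
      have h3 : N ∈ 𝓝 (q.symm (q y)) := by rwa [q.left_inv hq]
      exact h2 h3
    obtain ⟨U, ⟨hU, hUc⟩, hUs⟩ := (path_connected_basis (q y)).mem_iff.1 h1
    refine ⟨q.symm '' U, ?_, hUc.image' (q.continuousOn_symm.mono fun x hx => (hUs hx).1), ?_⟩
    · have h4 : q.source ∩ q ⁻¹' U ∈ 𝓝 y :=
        Filter.inter_mem (q.open_source.mem_nhds hq) (q.continuousAt hq hU)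
      refine Filter.mem_of_superset h4 ?_
      rintro z ⟨hz, hz'⟩
      exact ⟨q z, hz', q.left_inv hz⟩
    · rintro _ ⟨x, hx, rfl⟩
      exact (hUs hx).2

theorem PB.locPath {g : X → Circle} (hg : Continuous g) [LocallyPathConnectedSpace X] :
    LocallyPathConnectedSpace (PB g) :=
  locPath_of_isLocalHomeomorph (PB.covering hg).isCoveringMap.isLocalHomeomorph

/-- A continuous map to the circle which generates the group of homotopy classes of such maps and
has infinite order. -/
structure Gen (g : X → Circle) : Prop where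
  cont : Continuous g
  gen : ∀ h : X → Circle, Continuous h → ∃ (m : ℤ) (l : X → ℝ), Continuous l ∧
    ∀ x, h x = g x ^ m * Circle.exp (l x)
  free : ∀ (m : ℤ) (l : X → ℝ), Continuous l → (∀ x, g x ^ m = Circle.exp (l x)) → m = 0

/-- If the pull-back is connected then `g` has infinite order. -/
theorem free_of_connected {g : X → Circle} [PreconnectedSpace (PB g)] [Nonempty X]
    (m : ℤ) (l : X → ℝ) (hl : Continuous l) (h : ∀ x, g x ^ m = Circle.exp (l x)) : m = 0 := by
  have hF : Continuous fun e : PB g => (m : ℝ) * e.1.2 - l e.1.1 :=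
    (continuous_const.mul (continuous_snd.comp continuous_subtype_val)).sub
      (hl.comp (continuous_fst.comp continuous_subtype_val))
  have h1 : ∀ e : PB g, Circle.exp ((m : ℝ) * e.1.2 - l e.1.1) = 1 := fun e => by
    rw [Circle.exp_sub, Circle.exp_intCast_mul, ← e.2, h, div_self']
  obtain ⟨e, -⟩ := PB.surjective_proj g (Classical.arbitrary X)
  have h2 := Circle.isCoveringMap_exp.const_of_comp hF (fun a b => by rw [h1, h1])
    ((1 : ℤ) +ᵥ e) e
  rw [PB.vadd_fst, PB.vadd_snd] at h2
  have h3 : (m : ℝ) * (2 * Real.pi) = 0 := by push_cast at h2; linarith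
  have h4 : (m : ℝ) = 0 := by
    rcases mul_eq_zero.1 h3 with h | h
    · exact h
    · exact absurd h (by positivity)
  exact_mod_cast h4

/-- If the pull-back is simply connected then `g` is a generator. -/
theorem gen_of_simplyConnected {g : X → Circle} (hg : Continuous g) [LocallyPathConnectedSpace X]
    [SimplyConnectedSpace (PB g)] : Gen g := by
  have : LocallyPathConnectedSpace (PB g) := PB.locPath hg
  have hne : Nonempty X := (inferInstance : Nonempty (PB g)).map fun e => e.1.1
  refine ⟨hg, fun h hh => ?_, fun m l hl hm => free_of_connected m l hl hm⟩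
  obtain ⟨e₀⟩ : Nonempty (PB g) := inferInstance
  obtain ⟨t₀, ht₀⟩ := Circle.exp_surjective (h e₀.1.1)
  obtain ⟨H, ⟨-, hH⟩, -⟩ := Circle.isCoveringMap_exp.existsUnique_continuousMap_lifts
    (A := PB g) ⟨fun e => h e.1.1, hh.comp (PB.continuous_proj g)⟩ e₀ t₀ ht₀
  have hH' : ∀ e, Circle.exp (H e) = h e.1.1 := fun e => congrFun hH e
  have := (PB.covering hg).toContinuousConstVAdd
  have hc1 : Continuous fun e : PB g => ((1 : ℤ) +ᵥ e) := continuous_const_vadd _
  have hD : Continuous fun e : PB g => H ((1 : ℤ) +ᵥ e) - H e := (H.continuous.comp hc1).sub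
    H.continuous
  have hD1 : ∀ e : PB g, Circle.exp (H ((1 : ℤ) +ᵥ e) - H e) = 1 := fun e => by
    rw [Circle.exp_sub, hH', hH', PB.vadd_fst, div_self']
  have hD2 := Circle.isCoveringMap_exp.const_of_comp hD (fun a b => by rw [hD1, hD1])
  obtain ⟨m, hm⟩ : ∃ m : ℤ, H ((1 : ℤ) +ᵥ e₀) - H e₀ = m * (2 * Real.pi) := by
    have := hD1 e₀
    rw [← Circle.exp_zero] at this
    obtain ⟨m, hm⟩ := Circle.exp_eq_exp.1 this
    exact ⟨m, by rw [hm, zero_add]⟩
  set L : PB g → ℝ := fun e => H e - m * e.1.2 with hL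
  have hLc : Continuous L := H.continuous.sub
    (continuous_const.mul (continuous_snd.comp continuous_subtype_val))
  have hL1 : ∀ e : PB g, L ((1 : ℤ) +ᵥ e) = L e := fun e => by
    have h1 := hD2 e e₀
    rw [hm] at h1
    simp only [hL, PB.vadd_snd]
    push_cast
    linarith
  have hLk : ∀ (k : ℤ) (e : PB g), L (k +ᵥ e) = L e := by
    intro k
    induction k with
    | zero => intro e; rw [zero_vadd]
    | succ n ih => intro e; rw [add_comm, add_vadd, hL1, ih]
    | pred n ih =>
      intro e
      have h1 := hL1 ((-(n : ℤ) - 1) +ᵥ e)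
      rw [← add_vadd] at h1
      rw [← h1, ← ih e]
      congr 2; ring
  have hLp : ∀ e e' : PB g, PB.proj g e = PB.proj g e' → L e = L e' := by
    intro e e' hee
    obtain ⟨k, hk⟩ := (PB.covering hg).apply_eq_iff_mem_orbit.1 hee
    rw [← hk]; exact hLk k e'
  refine ⟨m, fun x => L (Function.surjInv (PB.surjective_proj g) x), ?_, fun x => ?_⟩
  · rw [(PB.isQuotientMap_proj hg).continuous_iff]
    refine hLc.congr fun e => hLp _ _ ?_
    exact (Function.surjInv_eq (PB.surjective_proj g) _).symm
  · set e := Function.surjInv (PB.surjective_proj g) x with he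
    have hex : e.1.1 = x := Function.surjInv_eq (PB.surjective_proj g) x
    rw [hL, Circle.exp_sub, hH', Circle.exp_intCast_mul, ← e.2, hex]
    exact (mul_div_cancel _ _).symm

/-- The fundamental group, if the pull-back is simply connected. -/
theorem pi1_of_simplyConnected {g : X → Circle} (hg : Continuous g) [SimplyConnectedSpace (PB g)]
    (x : X) : Nonempty (FundamentalGroup X x ≃* Multiplicative ℤ) := by
  obtain ⟨e, he⟩ := PB.surjective_proj g x
  have h := (PB.covering hg).fundamentalGroupEquiv (x := x) ⟨e, he⟩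
  exact ⟨h.trans (MulEquiv.inv' (Multiplicative ℤ)).symm⟩

/-- Three nested spaces: `u` restricts to a generator on the small one, `w` is a generator on the
middle one. Then `u` is `w` or its inverse up to homotopy on the middle one. -/
theorem nested {Z : Type*} [TopologicalSpace Z] {u : Y → Circle} (hu : Continuous u)
    {w : Y → Circle} (hw : Gen w) {j : Z → Y} (hj : Continuous j) (huj : Gen (u ∘ j)) :
    ∃ (m : ℤ) (l : Y → ℝ), (m = 1 ∨ m = -1) ∧ Continuous l ∧
      ∀ y, u y = w y ^ m * Circle.exp (l y) := by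
  obtain ⟨m, l, hl, hm⟩ := hw.gen u hu
  obtain ⟨k, l', hl', hk⟩ := huj.gen (w ∘ j) (hw.cont.comp hj)
  refine ⟨m, l, ?_, hl, hm⟩
  have h1 : 1 - k * m = 0 := by
    refine huj.free (1 - k * m) (fun z => m * l' z + l (j z)) (by fun_prop) fun z => ?_
    have h2 := hm (j z)
    have h3 := hk z
    simp only [Function.comp] at h3 ⊢
    rw [h3, mul_zpow, ← zpow_mul] at h2
    rw [zpow_sub, zpow_one, Circle.exp_add, Circle.exp_intCast_mul]
    rw [mul_inv_eq_iff_eq_mul]
    exact h2.trans (by rw [mul_assoc, mul_comm])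
  have h2 : k * m = 1 := by linarith
  exact (Int.eq_one_or_neg_one_of_mul_eq_one' h2).elim (fun h => Or.inl h.2) (fun h => Or.inr h.2)

/-- A map with connected pull-back which is a power of another map up to homotopy: the exponent is
one or minus one. -/
theorem exponent_of_connected {g g' : X → Circle} (hg : Continuous g) [PreconnectedSpace (PB g')]
    [Nonempty X] (m : ℤ) (l : X → ℝ) (hl : Continuous l)
    (h : ∀ x, g' x = g x ^ m * Circle.exp (l x)) : m = 1 ∨ m = -1 := by
  have hm0 : m ≠ 0 := by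
    rintro rfl
    have := free_of_connected (g := g') 1 l hl (fun x => by rw [h x]; simp)
    omega
  have hm0' : (m : ℝ) ≠ 0 := by exact_mod_cast hm0
  -- the function `exp ((t - l x) / m) / g x` has values in the `m`-th roots of unity
  have : NeZero m := ⟨hm0⟩
  have hF : Continuous fun e : PB g' => Circle.exp ((e.1.2 - l e.1.1) / m) / g e.1.1 := by
    have h1 : Continuous fun e : PB g' => e.1.1 := continuous_fst.comp continuous_subtype_val
    have h2 : Continuous fun e : PB g' => e.1.2 := continuous_snd.comp continuous_subtype_val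
    exact (Circle.exp.continuous.comp ((h2.sub (hl.comp h1)).div_const _)).div' (hg.comp h1)
  have hF1 : ∀ e : PB g', (Circle.exp ((e.1.2 - l e.1.1) / m) / g e.1.1) ^ m = 1 := fun e => by
    rw [div_zpow, ← Circle.exp_intCast_mul, mul_div_cancel₀ _ hm0', Circle.exp_sub, ← e.2, h,
      mul_div_assoc, div_self', mul_one, div_self']
  obtain ⟨e, -⟩ := PB.surjective_proj g' (Classical.arbitrary X)
  have h2 := (Circle.isQuotientCoveringMap_zpow m).isCoveringMap.const_of_comp hF
    (fun a b => (hF1 a).trans (hF1 b).symm) ((1 : ℤ) +ᵥ e) e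
  rw [PB.vadd_fst, PB.vadd_snd, div_left_inj, Circle.exp_eq_exp] at h2
  obtain ⟨k, hk⟩ := h2
  have h3 : ((m * k : ℤ) : ℝ) = 1 := by
    have hpi : (2 * Real.pi) ≠ 0 := by positivity
    push_cast at hk ⊢
    field_simp at hk
    have h4 : (2 * Real.pi) * ((m : ℝ) * k) = (2 * Real.pi) * 1 := by linarith
    exact mul_left_cancel₀ hpi h4
  have h5 : m * k = 1 := by exact_mod_cast h3
  exact (Int.eq_one_or_neg_one_of_mul_eq_one' h5).elim (fun h => Or.inl h.1) (fun h => Or.inr h.1)

end Pool.Agent.Helper82.DK2
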