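import Pool.Agent.Helper82.DK2.Ang

/-!
# DK-P3: paths in a set with simply connected pull-back are classified by their angle
(about 100-150 lines)

`homotopic_of_angle`. Let `l`, `l'` be the lifts; `exp (l 0) = g x = exp (l' 0)`, so after a translation
of `l'` by a multiple of `2π` we have `l 0 = l' 0` and then `l 1 = l' 1`. The paths
`t ↦ (γ t, l t)`, `t ↦ (δ t, l' t)` in the pull-back `{p : p.1 ∈ A, g p.1 = exp p.2}` (as a subtype)
have the same end points, so they are homotopic (`SimplyConnectedSpace.paths_homotopic`); map the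
homotopy by the projection (`Path.Homotopic.map`).

`exists_loop`. The pull-back is path connected; the projection to `X` of a path from `(x, t)` to
`(x, t + k 2π)`.

`simplyConnected_pb`. `PB g` is path connected: let `x ∈ X`, `(x, t) ∈ PB g`; choose a path from `x` to `x₀`
and lift it: it ends at `(x₀, t')`, `t' = t₀ + 2πk`; the lift of a loop at `x₀` with angle `-2πk` (a power
of `μ`) joins `(x₀, t')` to `(x₀, t₀)`. Loops in `PB g` at `e = (x₀, t₀)`: the projection `γ` has angle
`0` (the lift is the second coordinate, with equal values at the ends), its class is `μ ^ k`, whose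
angle is `2πk`, so `k = 0` and `γ` is null homotopic. The projection `PB g → X` is a covering
(`PB.covering`), so it is injective on the fundamental group
(`IsCoveringMap.injective_path_homotopic_map`); so the loop is null homotopic in `PB g`. For another
base point conjugate with a path (`FundamentalGroup.fundamentalGroupMulEquivOfPath`, or directly).
Use `simply_connected_iff_loops_nullhomotopic`.
-/

namespace Pool.Agent.Helper82.DK2

open Set Topology

variable {X : Type*} [TopologicalSpace X]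

/-- The pull-back over a subset. -/
def pbOn (A : Set X) (g : X → Circle) : Set (X × ℝ) := {p | p.1 ∈ A ∧ g p.1 = Circle.exp p.2}

theorem homotopic_of_angle {A : Set X} {g : X → Circle} (h : IsSimplyConnected (pbOn A g))
    {x y : X} (γ δ : Path x y) (hγ : ∀ t, γ t ∈ A) (hδ : ∀ t, δ t ∈ A) {r : ℝ}
    (hr : HasAngle g γ r) (hr' : HasAngle g δ r) : γ.Homotopic δ := by
  obtain ⟨l, hl, hlr⟩ := hr
  obtain ⟨l', hl', hlr'⟩ := hr'
  have h0 : Circle.exp (l 0) = Circle.exp (l' 0) := by rw [← hl, ← hl', γ.source, δ.source]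
  have : SimplyConnectedSpace (pbOn A g) := h
  set c : ℝ := l 0 - l' 0 with hc
  have hc1 : Circle.exp c = 1 := by rw [hc, Circle.exp_sub, h0, div_self']
  have ha : ((x, l 0) : X × ℝ) ∈ pbOn A g := by
    have h1 := hγ 0
    have h2 := hl 0
    rw [γ.source] at h1 h2
    exact ⟨h1, h2⟩
  have hb : ((y, l 1) : X × ℝ) ∈ pbOn A g := by
    have h1 := hγ 1
    have h2 := hl 1
    rw [γ.target] at h1 h2
    exact ⟨h1, h2⟩
  set p : Path (⟨(x, l 0), ha⟩ : pbOn A g) ⟨(y, l 1), hb⟩ :=
    ⟨⟨fun t => ⟨(γ t, l t), hγ t, hl t⟩, by fun_prop⟩, by simp, by simp⟩ with hp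
  set q : Path (⟨(x, l 0), ha⟩ : pbOn A g) ⟨(y, l 1), hb⟩ :=
    ⟨⟨fun t => ⟨(δ t, l' t + c), hδ t, by
      change g (δ t) = Circle.exp (l' t + c)
      rw [Circle.exp_add, hc1, mul_one]; exact hl' t⟩, by fun_prop⟩, by simp [hc], by
        have : l' 1 + c = l 1 := by rw [hc]; linarith
        simp [this]⟩ with hq
  have h3 := SimplyConnectedSpace.paths_homotopic p q
  have h4 := Path.Homotopic.map h3 (⟨fun e => e.1.1, by fun_prop⟩ : C(pbOn A g, X))
  exact h4

theorem isPathConnected_of_pbOn {A : Set X} {g : X → Circle}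
    (h : IsSimplyConnected (pbOn A g)) : IsPathConnected A := by
  have h1 := h.isPathConnected.image (f := Prod.fst) continuous_fst
  have : Prod.fst '' pbOn A g = A := by
    ext x
    constructor
    · rintro ⟨p, hp, rfl⟩; exact hp.1
    · intro hx
      obtain ⟨t, ht⟩ := Circle.exp_surjective (g x)
      exact ⟨(x, t), ⟨hx, ht.symm⟩, rfl⟩
  rwa [this] at h1

theorem exists_loop {A : Set X} {g : X → Circle} (h : IsSimplyConnected (pbOn A g)) {x : X}
    (hx : x ∈ A) (k : ℤ) :
    ∃ γ : Path x x, (∀ t, γ t ∈ A) ∧ HasAngle g γ (k * (2 * Real.pi)) := by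
  obtain ⟨t, ht⟩ := Circle.exp_surjective (g x)
  have h1 : ((x, t) : X × ℝ) ∈ pbOn A g := ⟨hx, ht.symm⟩
  have h2 : ((x, t + k * (2 * Real.pi)) : X × ℝ) ∈ pbOn A g :=
    ⟨hx, by rw [exp_add_int]; exact ht.symm⟩
  obtain ⟨p, hp⟩ := h.isPathConnected.joinedIn _ h1 _ h2
  refine ⟨p.map (f := Prod.fst) continuous_fst, fun s => (hp s).1,
    ⟨⟨fun s => (p s).2, by fun_prop⟩, fun s => (hp s).2, ?_⟩⟩
  simp only [ContinuousMap.coe_mk]
  rw [p.source, p.target]
  ring

/-- Loops in `A` are classified by their angle: all are powers of a loop with angle `2π`. -/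
theorem lc_mem_zpowers {A : Set X} {g : X → Circle} (h : IsSimplyConnected (pbOn A g)) {x : X}
    (μ : Path x x) (hμ : ∀ t, μ t ∈ A) (hμ' : HasAngle g μ (2 * Real.pi)) (γ : Path x x)
    (hγ : ∀ t, γ t ∈ A) (k : ℤ) (hk : HasAngle g γ (k * (2 * Real.pi))) : lc γ = lc μ ^ k := by
  -- a loop in `A` which represents the power
  have hx : x ∈ A := by have := hμ 0; rwa [μ.source] at this
  have hn : ∀ n : ℕ, ∃ δ : Path x x, (∀ t, δ t ∈ A) ∧ HasAngle g δ (n * (2 * Real.pi)) ∧
      lc δ = lc μ ^ n := by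
    intro n
    induction n with
    | zero =>
      refine ⟨Path.refl x, fun _ => hx, by simpa using HasAngle.refl g x, ?_⟩
      rw [pow_zero]; rfl
    | succ n ih =>
      obtain ⟨δ, h1, h2, h3⟩ := ih
      refine ⟨δ.trans μ, fun t => ?_, ?_, ?_⟩
      · rw [Path.trans_apply]; split_ifs
        · exact h1 _
        · exact hμ _
      · have := h2.trans hμ'
        push_cast
        rwa [← add_one_mul] at this
      · rw [lc_trans, h3, pow_succ']
  have hz : ∃ δ : Path x x, (∀ t, δ t ∈ A) ∧ HasAngle g δ (k * (2 * Real.pi)) ∧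
      lc δ = lc μ ^ k := by
    obtain ⟨n, rfl | rfl⟩ := k.eq_nat_or_neg
    · obtain ⟨δ, h1, h2, h3⟩ := hn n
      exact ⟨δ, h1, by exact_mod_cast h2, by rw [zpow_natCast]; exact h3⟩
    · obtain ⟨δ, h1, h2, h3⟩ := hn n
      refine ⟨δ.symm, fun t => h1 _, ?_, ?_⟩
      · have := h2.symm
        push_cast
        rwa [neg_mul]
      · rw [lc_symm, h3, zpow_neg, zpow_natCast]
  obtain ⟨δ, h1, h2, h3⟩ := hz
  rw [← h3, lc_eq_iff]
  exact homotopic_of_angle h γ δ hγ h1 hk h2

theorem simplyConnected_pb [PathConnectedSpace X] {g : X → Circle} (hg : Continuous g) (x₀ : X)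
    (μ : Path x₀ x₀) (hμ : HasAngle g μ (2 * Real.pi))
    (hgen : Subgroup.zpowers (lc μ) = ⊤) : SimplyConnectedSpace (PB g) := by
  obtain ⟨t₀, ht₀⟩ := Circle.exp_surjective (g x₀)
  obtain ⟨a, ha⟩ := exists_angleHom hg x₀
  have haμ : a (lc μ) = Multiplicative.ofAdd (2 * Real.pi) := by
    rw [← (ha μ).unique hμ]; rfl
  have hak : ∀ k : ℤ, Multiplicative.toAdd (a (lc μ ^ k)) = k * (2 * Real.pi) := by
    intro k
    rw [map_zpow, haμ, toAdd_zpow, toAdd_ofAdd, zsmul_eq_mul]
  -- lifting of paths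
  have hlift : ∀ {x y : X} (γ : Path x y) (t : ℝ) (ht : g x = Circle.exp t) (r : ℝ)
      (_ : HasAngle g γ r) (hs : g y = Circle.exp (t + r)),
      Joined (⟨(x, t), ht⟩ : PB g) ⟨(y, t + r), hs⟩ := by
    rintro x y γ t ht r ⟨l, hl, rfl⟩ hs
    have h0 : Circle.exp (t - l 0) = 1 := by
      rw [Circle.exp_sub, ← ht, ← hl, γ.source, div_self']
    exact ⟨⟨⟨fun s => ⟨(γ s, l s + (t - l 0)), by
      change g (γ s) = Circle.exp (l s + (t - l 0))
      rw [Circle.exp_add, h0, mul_one]; exact hl s⟩, by fun_prop⟩, by simp, by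
        apply Subtype.ext
        simp only [Path.target, Prod.mk.injEq, true_and]
        ring⟩⟩
  have hjoin : ∀ e : PB g, Joined e ⟨(x₀, t₀), ht₀.symm⟩ := by
    rintro ⟨⟨x, t⟩, hxt⟩
    have hxt' : g x = Circle.exp t := hxt
    obtain ⟨γ⟩ := PathConnectedSpace.joined x x₀
    obtain ⟨r, hr⟩ := HasAngle.exists_of_continuous hg γ
    obtain ⟨l, hl, hlr⟩ := id hr
    have h1 : g x₀ = Circle.exp (t + r) := by
      have h2 : Circle.exp (t - l 0) = 1 := by
        rw [Circle.exp_sub, ← hxt', ← hl, γ.source, div_self']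
      have h3 : t + r = l 1 + (t - l 0) := by rw [← hlr]; ring
      rw [h3, Circle.exp_add, h2, mul_one, ← hl, γ.target]
    have h4 := hlift γ t hxt' r hr h1
    obtain ⟨k, hk⟩ := Circle.exp_eq_exp.1 (ht₀.trans h1)
    -- a loop with angle `k 2π`
    obtain ⟨δ, hδ⟩ := lc_surj (lc μ ^ k)
    have h5 : HasAngle g δ (k * (2 * Real.pi)) := by
      have := ha δ
      rwa [hδ, hak] at this
    have h6 : g x₀ = Circle.exp (t + r + k * (2 * Real.pi)) := by rw [← hk]; exact ht₀.symm
    have h7 := hlift δ (t + r) h1 _ h5 h6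
    have h8 := h4.trans h7
    convert h8 using 1
    apply Subtype.ext
    simp only [Prod.mk.injEq, true_and]
    exact hk
  have hpc : PathConnectedSpace (PB g) :=
    ⟨⟨⟨(x₀, t₀), ht₀.symm⟩⟩, fun e e' => (hjoin e).trans (hjoin e').symm⟩
  set e₀ : PB g := ⟨(x₀, t₀), ht₀.symm⟩ with he₀
  -- loops at the base point
  have hloop : Subsingleton (FundamentalGroup (PB g) e₀) := by
    have key : ∀ p : Path e₀ e₀, p.Homotopic (Path.refl e₀) := by
      intro p
      obtain ⟨q, hq⟩ : ∃ q : Path x₀ x₀, q = p.map (PB.continuous_proj g) :=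
        ⟨p.map (PB.continuous_proj g), rfl⟩
      have h1 : HasAngle g q 0 := by
        rw [hq]
        refine ⟨⟨fun s => (p s).1.2, by fun_prop⟩, fun s => (p s).2, ?_⟩
        simp
      obtain ⟨k, hk⟩ := Subgroup.mem_zpowers_iff.1
        (hgen ▸ Subgroup.mem_top (lc q) : lc q ∈ Subgroup.zpowers (lc μ))
      have h2 : HasAngle g q (Multiplicative.toAdd (a (lc q))) := ha q
      have h3 : (k : ℝ) * (2 * Real.pi) = 0 := by
        rw [← hak, hk]; exact h2.unique h1
      have h4 : (k : ℝ) = 0 := by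
        rcases mul_eq_zero.1 h3 with h | h
        · exact h
        · exact absurd h (by positivity)
      have h5 : k = 0 := by exact_mod_cast h4
      rw [h5, zpow_zero] at hk
      have h6 := (PB.covering hg).isCoveringMap.injective_path_homotopic_map e₀ e₀
      refine Path.Homotopic.Quotient.eq.1 (h6 ?_)
      have h7 : lc q = Path.Homotopic.Quotient.mk (p.map (PB.continuous_proj g)) := by
        rw [hq]; rfl
      exact h7.symm.trans hk.symm
    refine ⟨fun c d => ?_⟩
    obtain ⟨p, rfl⟩ := lc_surj c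
    obtain ⟨q, rfl⟩ := lc_surj d
    rw [lc_eq_iff]
    exact (key p).trans (key q).symm
  rw [simply_connected_iff_loops_nullhomotopic]
  refine ⟨hpc, fun e p => ?_⟩
  have h9 := (FundamentalGroup.fundamentalGroupMulEquivOfPathConnected e e₀).toEquiv.subsingleton
  exact (lc_eq_iff _ _).1 (Subsingleton.elim (lc p) (lc (Path.refl e)))

end Pool.Agent.Helper82.DK2
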