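import Pool.Agent.Helper82.DK2.CPart

/-!
# DK-O3: the equator and its bicollar (about 80-120 lines)

* `isEmbedding_incl`: `incl` is continuous and injective and the sphere is compact, the target
  Hausdorff (`Continuous.isClosedEmbedding`, then `.isEmbedding`).
* `range_incl`: drop the last coordinate of a point whose last coordinate is zero.
* `exists_bic`: `b (x, s) = (x, s) / √(1 + s²)`. It is injective, its range is the open set of the
  points which are not `(0, ±1)`, and the inverse there is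
  `(y, t) ↦ (y / |y|, t / |y|)`, continuous (`|y|² + t² = 1`).
-/

namespace Pool.Agent.Helper82.DK2

open Set Topology

private theorem incl_cast (k : ℕ) (x : Sph (k + 2)) (i : Fin (k + 3)) :
    (incl k x).1 i.castSucc = x.1 i := by
  show (Fin.snoc (α := fun _ => ℝ) (x.1 : Fin (k + 3) → ℝ) 0 : Fin (k + 4) → ℝ) i.castSucc = x.1 i
  rw [Fin.snoc_castSucc]

private theorem incl_last (k : ℕ) (x : Sph (k + 2)) : (incl k x).1 (Fin.last (k + 3)) = 0 := by
  show (Fin.snoc (α := fun _ => ℝ) (x.1 : Fin (k + 3) → ℝ) 0 : Fin (k + 4) → ℝ)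
    (Fin.last (k + 3)) = 0
  rw [Fin.snoc_last]

private theorem continuous_coord {m : ℕ} (i : Fin (m + 1)) : Continuous fun x : Sph m => x.1 i :=
  (EuclideanSpace.proj i : EuclideanSpace ℝ (Fin (m + 1)) →L[ℝ] ℝ).continuous.comp
    continuous_subtype_val

theorem isEmbedding_incl (k : ℕ) : IsEmbedding (incl k) := by
  have hc : Continuous (incl k) := by
    refine Continuous.subtype_mk ?_ _
    refine (PiLp.continuous_toLp 2 _).comp (continuous_pi fun i => ?_)
    refine Fin.lastCases ?_ (fun j => ?_) i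
    · simp only [Fin.snoc_last]
      exact continuous_const
    · simp only [Fin.snoc_castSucc]
      exact continuous_coord j
  refine (hc.isClosedEmbedding fun x y hxy => ?_).isEmbedding
  apply Subtype.ext
  ext i
  have h1 := incl_cast k x i
  have h2 := incl_cast k y i
  rw [hxy] at h1
  exact h1.symm.trans h2

theorem range_incl (k : ℕ) : range (incl k) = equator k := by
  ext z
  constructor
  · rintro ⟨x, rfl⟩
    exact incl_last k x
  · intro hz
    have hz0 : z.1 (Fin.last (k + 3)) = 0 := hz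
    have hn : ‖(WithLp.toLp 2 (fun i : Fin (k + 3) => z.1 i.castSucc) :
        EuclideanSpace ℝ (Fin (k + 3)))‖ = 1 := by
      have h := z.2
      rw [mem_sphere_zero_iff_norm, EuclideanSpace.norm_eq, Fin.sum_univ_castSucc, hz0] at h
      rw [EuclideanSpace.norm_eq]
      simpa using h
    refine ⟨⟨WithLp.toLp 2 (fun i : Fin (k + 3) => z.1 i.castSucc), by
      rw [mem_sphere_zero_iff_norm]
      exact hn⟩, ?_⟩
    apply Subtype.ext
    ext i
    refine Fin.lastCases ?_ (fun j => ?_) i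
    · rw [incl_last, hz0]
    · rw [incl_cast]

theorem isClosed_equator (k : ℕ) : IsClosed (equator k) :=
  isClosed_eq (continuous_coord _) continuous_const

/-- the first coordinates -/
private def fy (k : ℕ) (z : Sph (k + 3)) : EuclideanSpace ℝ (Fin (k + 3)) :=
  WithLp.toLp 2 fun i => z.1 i.castSucc

private theorem continuous_fy (k : ℕ) : Continuous (fy k) :=
  (PiLp.continuous_toLp 2 _).comp (continuous_pi fun i => continuous_coord i.castSucc)

private theorem fy_norm (k : ℕ) (z : Sph (k + 3)) :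
    ‖fy k z‖ ^ 2 + z.1 (Fin.last (k + 3)) ^ 2 = 1 := by
  have h := z.2
  rw [mem_sphere_zero_iff_norm] at h
  have h2 : ‖(z.1 : EuclideanSpace ℝ (Fin (k + 4)))‖ ^ 2 = 1 := by rw [h]; norm_num
  rw [EuclideanSpace.norm_sq_eq, Fin.sum_univ_castSucc] at h2
  rw [EuclideanSpace.norm_sq_eq]
  simpa [fy] using h2

/-- the point with the coordinates `(y, t)` -/
private def mkp (k : ℕ) (y : EuclideanSpace ℝ (Fin (k + 3))) (t : ℝ) :
    EuclideanSpace ℝ (Fin (k + 4)) :=
  WithLp.toLp 2 (Fin.snoc (α := fun _ => ℝ) (y : Fin (k + 3) → ℝ) t)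

private theorem mkp_cast (k : ℕ) (y : EuclideanSpace ℝ (Fin (k + 3))) (t : ℝ) (i : Fin (k + 3)) :
    mkp k y t i.castSucc = y i := by
  show (Fin.snoc (α := fun _ => ℝ) (y : Fin (k + 3) → ℝ) t : Fin (k + 4) → ℝ) i.castSucc = y i
  rw [Fin.snoc_castSucc]

private theorem mkp_last (k : ℕ) (y : EuclideanSpace ℝ (Fin (k + 3))) (t : ℝ) :
    mkp k y t (Fin.last (k + 3)) = t := by
  show (Fin.snoc (α := fun _ => ℝ) (y : Fin (k + 3) → ℝ) t : Fin (k + 4) → ℝ)
    (Fin.last (k + 3)) = t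
  rw [Fin.snoc_last]

private theorem continuous_mkp (k : ℕ) :
    Continuous fun p : EuclideanSpace ℝ (Fin (k + 3)) × ℝ => mkp k p.1 p.2 := by
  refine (PiLp.continuous_toLp 2 _).comp (continuous_pi fun i => ?_)
  refine Fin.lastCases ?_ (fun j => ?_) i
  · simp only [Fin.snoc_last]
    exact continuous_snd
  · simp only [Fin.snoc_castSucc]
    exact (EuclideanSpace.proj j : EuclideanSpace ℝ (Fin (k + 3)) →L[ℝ] ℝ).continuous.comp
      continuous_fst

private theorem mkp_norm (k : ℕ) (y : EuclideanSpace ℝ (Fin (k + 3))) (t : ℝ) :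
    ‖mkp k y t‖ ^ 2 = ‖y‖ ^ 2 + t ^ 2 := by
  rw [EuclideanSpace.norm_sq_eq, Fin.sum_univ_castSucc, EuclideanSpace.norm_sq_eq]
  simp only [mkp_cast, mkp_last, Real.norm_eq_abs, sq_abs]

private theorem sq_pos (s : ℝ) : 0 < Real.sqrt (1 + s ^ 2) := Real.sqrt_pos.2 (by positivity)

/-- The bicollar of the equator. -/
theorem exists_bic (k : ℕ) : ∃ b : Sph (k + 2) × ℝ → Sph (k + 3), IsOpenEmbedding b ∧
    (∀ x, b (x, 0) = incl k x) ∧
    (∀ x s, 0 ≤ (b (x, s)).1 (Fin.last (k + 3)) ↔ 0 ≤ s) ∧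
    ∀ x s, (b (x, s)).1 (Fin.last (k + 3)) ≤ 0 ↔ s ≤ 0 := by
  -- the map
  have hxn : ∀ x : Sph (k + 2), ‖(x.1 : EuclideanSpace ℝ (Fin (k + 3)))‖ = 1 := fun x =>
    mem_sphere_zero_iff_norm.1 x.2
  have hm : ∀ p : Sph (k + 2) × ℝ, (Real.sqrt (1 + p.2 ^ 2))⁻¹ • mkp k p.1.1 p.2 ∈
      Metric.sphere (0 : EuclideanSpace ℝ (Fin (k + 4))) 1 := by
    intro p
    have h1 : ‖mkp k p.1.1 p.2‖ = Real.sqrt (1 + p.2 ^ 2) := by
      rw [← Real.sqrt_sq (norm_nonneg (mkp k p.1.1 p.2)), mkp_norm, hxn, one_pow]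
    rw [mem_sphere_zero_iff_norm, norm_smul, h1, norm_inv,
      Real.norm_of_nonneg (sq_pos p.2).le, inv_mul_cancel₀ (sq_pos p.2).ne']
  let b : Sph (k + 2) × ℝ → Sph (k + 3) := fun p =>
    ⟨(Real.sqrt (1 + p.2 ^ 2))⁻¹ • mkp k p.1.1 p.2, hm p⟩
  have hb1 : ∀ p, fy k (b p) = (Real.sqrt (1 + p.2 ^ 2))⁻¹ • p.1.1 := by
    intro p
    ext i
    show (Real.sqrt (1 + p.2 ^ 2))⁻¹ * mkp k p.1.1 p.2 i.castSucc = _
    rw [mkp_cast]
    rfl
  have hb2 : ∀ p, (b p).1 (Fin.last (k + 3)) = (Real.sqrt (1 + p.2 ^ 2))⁻¹ * p.2 := by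
    intro p
    show (Real.sqrt (1 + p.2 ^ 2))⁻¹ * mkp k p.1.1 p.2 (Fin.last (k + 3)) = _
    rw [mkp_last]
  have hb3 : ∀ p, ‖fy k (b p)‖ = (Real.sqrt (1 + p.2 ^ 2))⁻¹ := by
    intro p
    rw [hb1, norm_smul, hxn, mul_one, norm_inv, Real.norm_of_nonneg (sq_pos p.2).le]
  have hbc : Continuous b := by
    refine Continuous.subtype_mk ?_ _
    have h1 : Continuous fun p : Sph (k + 2) × ℝ => (Real.sqrt (1 + p.2 ^ 2))⁻¹ :=
      Continuous.inv₀ (by fun_prop) fun p => (sq_pos p.2).ne'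
    have h2 : Continuous fun p : Sph (k + 2) × ℝ => mkp k p.1.1 p.2 :=
      (continuous_mkp k).comp ((continuous_subtype_val.comp continuous_fst).prodMk continuous_snd)
    exact h1.smul h2
  -- the open set
  let U : Set (Sph (k + 3)) := {z | fy k z ≠ 0}
  have hU : IsOpen U := isOpen_ne_fun (continuous_fy k) continuous_const
  have hbU : ∀ p, b p ∈ U := by
    intro p h
    have h1 := hb3 p
    rw [h, norm_zero] at h1
    exact (inv_pos.2 (sq_pos p.2)).ne h1
  have hn : ∀ z : U, 0 < ‖fy k z.1‖ := fun z => norm_pos_iff.2 z.2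
  have hm2 : ∀ z : U, ‖fy k z.1‖⁻¹ • fy k z.1 ∈
      Metric.sphere (0 : EuclideanSpace ℝ (Fin (k + 3))) 1 := by
    intro z
    rw [mem_sphere_zero_iff_norm, norm_smul, norm_inv, norm_norm, inv_mul_cancel₀ (hn z).ne']
  have hfy : Continuous fun z : U => fy k z.1 := (continuous_fy k).comp continuous_subtype_val
  have hninv : Continuous fun z : U => ‖fy k z.1‖⁻¹ := Continuous.inv₀ hfy.norm fun z => (hn z).ne'
  let h : Sph (k + 2) × ℝ ≃ₜ U :=
    { toFun := fun p => ⟨b p, hbU p⟩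
      invFun := fun z => (⟨‖fy k z.1‖⁻¹ • fy k z.1, hm2 z⟩,
        ‖fy k z.1‖⁻¹ * z.1.1 (Fin.last (k + 3)))
      left_inv := by
        intro p
        have h1 := (sq_pos p.2).ne'
        refine Prod.ext (Subtype.ext ?_) ?_
        · show ‖fy k (b p)‖⁻¹ • fy k (b p) = p.1.1
          rw [hb3, hb1, smul_smul, inv_inv, mul_inv_cancel₀ h1, one_smul]
        · show ‖fy k (b p)‖⁻¹ * (b p).1 (Fin.last (k + 3)) = p.2
          rw [hb3, hb2, inv_inv, ← mul_assoc, mul_inv_cancel₀ h1, one_mul]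
      right_inv := by
        intro z
        apply Subtype.ext
        apply Subtype.ext
        have h1 := fy_norm k z.1
        have h2 := hn z
        have h3 : Real.sqrt (1 + (‖fy k z.1‖⁻¹ * z.1.1 (Fin.last (k + 3))) ^ 2) =
            ‖fy k z.1‖⁻¹ := by
          rw [Real.sqrt_eq_iff_mul_self_eq (by positivity) (inv_pos.2 h2).le]
          have h4 : z.1.1 (Fin.last (k + 3)) ^ 2 = 1 - ‖fy k z.1‖ ^ 2 := by linarith
          rw [mul_pow, h4]
          field_simp
          ring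
        show (Real.sqrt (1 + (‖fy k z.1‖⁻¹ * z.1.1 (Fin.last (k + 3))) ^ 2))⁻¹ •
          mkp k (‖fy k z.1‖⁻¹ • fy k z.1) (‖fy k z.1‖⁻¹ * z.1.1 (Fin.last (k + 3))) = z.1.1
        rw [h3, inv_inv]
        ext i
        show ‖fy k z.1‖ * mkp k (‖fy k z.1‖⁻¹ • fy k z.1)
          (‖fy k z.1‖⁻¹ * z.1.1 (Fin.last (k + 3))) i = z.1.1 i
        refine Fin.lastCases ?_ (fun j => ?_) i
        · rw [mkp_last, ← mul_assoc, mul_inv_cancel₀ h2.ne', one_mul]
        · rw [mkp_cast]
          show ‖fy k z.1‖ * (‖fy k z.1‖⁻¹ * z.1.1 j.castSucc) = _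
          rw [← mul_assoc, mul_inv_cancel₀ h2.ne', one_mul]
      continuous_toFun := hbc.subtype_mk _
      continuous_invFun := by
        refine Continuous.prodMk ((hninv.smul hfy).subtype_mk _) (hninv.mul ?_)
        exact (continuous_coord _).comp continuous_subtype_val }
  refine ⟨b, ?_, ?_, ?_, ?_⟩
  · have h1 : b = Subtype.val ∘ h := rfl
    rw [h1]
    exact hU.isOpenEmbedding_subtypeVal.comp h.isOpenEmbedding
  · intro x
    apply Subtype.ext
    show (Real.sqrt (1 + (0 : ℝ) ^ 2))⁻¹ • mkp k x.1 0 = (incl k x).1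
    have h1 : Real.sqrt (1 + (0 : ℝ) ^ 2) = 1 := by norm_num
    rw [h1, inv_one, one_smul]
    rfl
  · intro x s
    rw [hb2]
    exact mul_nonneg_iff_of_pos_left (inv_pos.2 (sq_pos s))
  · intro x s
    rw [hb2]
    constructor
    · intro h1
      by_contra h2
      push Not at h2
      exact absurd h1 (not_le.2 (mul_pos (inv_pos.2 (sq_pos s)) h2))
    · intro h1
      exact mul_nonpos_of_nonneg_of_nonpos (inv_pos.2 (sq_pos s)).le h1

end Pool.Agent.Helper82.DK2
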