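import Pool.Agent.Helper82.DK2.Cyc
import Pool.Agent.Helper82.DK2.Box
import Pool.Agent.Helper82.DK2.Incl

/-!
# DK-O4: the restriction of the generator to the equator is a generator (about 150-250 lines)

Let `S = Φ '' stdSphere n` and `u z = cpart (cc (Φ⁻¹ z))` for `z ∉ S` (continuous there,
`mem_stdSphere`, `continuousOn_cpart`). For `x ∉ range f` we have `incl x ∉ S`, since
`S ∩ equator = incl '' range f` and `incl` is injective. By `hgen.gen` applied to
`x ↦ u (incl x)` there are `m`, `l` with `u (incl x) = g x ^ m * exp (l x)`; the claim is `m = ±1`.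

Let `x₀ ∈ range f`, `z₀ = incl x₀ ∈ S`, and let `ψ` be the chart of `hT.2 x₀`. Then
`ψ z₀ = (a₀, 0, 0)`. Choose `ε > 0` such that
`D = {(a, w, t) : |a - a₀| < ε, |w| < ε, |t| < ε}` lies in `ψ.target`.

(1) `Y = {z ∈ ψ.source : ψ z ∈ D, z ∉ S}`, as a subtype. It is homeomorphic by
`z ↦ ((a, t), w)`, `ψ z = (a, w, t)`, to
`{((a, t), w) : (a, t) ∈ C, 0 < |w| < ε}`, `C = ball a₀ ε ×ˢ Ioo (-ε) ε` convex and open in
`EuclideanSpace ℝ (Fin n) × ℝ`. By `box_gen`, `w z = cpart (ψ z).2.1` is `Gen` on `Y`.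

(2) `N = Φ⁻¹ {z ∈ ψ.source : ψ z ∈ D}` is a neighbourhood of `Φ⁻¹ z₀ ∈ stdSphere`; let `B` be the set
of `std_box`. The map `j : B → Y`, `b ↦ Φ b`, is continuous, and `u ∘ j = cpart (cc b)` is `Gen`. By
`nested`, `u z = w z ^ d * exp (l' z)` on `Y` with `d = ±1`.

(3) Let `Y' = {(a, w) : |a - a₀| < ε, 0 < |w| < ε}` (subtype of
`EuclideanSpace ℝ (Fin n) × ℂ`), `k₂ : Y' → Y`, `(a, w) ↦ ψ⁻¹ (a, w, 0)`; it has values in the
equator, so `k₂ = incl ∘ k` for a unique `k : Y' → Sph (n + 2)`, which is continuous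
(`isEmbedding_incl`) and has values off `range f` (a point of `range f` has `incl` in `S`). By
`box_gen` (`Θ` = identity) `w' (a, w) = cpart w` is `Gen` on `Y'`, so
`g (k y) = w' y ^ e * exp (ν y)`. Therefore on `Y'`
`w' ^ d * exp (l' ∘ k₂) = u ∘ k₂ = (g ∘ k) ^ m * exp (l ∘ k) = w' ^ (e m) * exp (m ν + l ∘ k)`,
so `e m = d` by the clause `free` of `Gen w'`; hence `m` divides `±1`.
-/

namespace Pool.Agent.Helper82.DK2

open Set Topology

variable {n : ℕ} {f : Sph n → Sph (n + 2)} {g : Sph (n + 2) → Circle}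

/-- Points off the knot are off the sphere `S`. -/
theorem symm_incl_notMem (Φ : Sph (n + 3) ≃ₜ Sph (n + 3))
    (hT : MeetsTransversally n (Φ '' stdSphere n) (range f)) (x : Sph (n + 2)) :
    Φ.symm (incl n x) ∉ stdSphere n ↔ x ∉ range f := by
  rw [not_iff_not]
  have h1 : Φ.symm (incl n x) ∈ stdSphere n ↔ incl n x ∈ Φ '' stdSphere n := by
    constructor
    · intro h
      exact ⟨_, h, Φ.apply_symm_apply _⟩
    · rintro ⟨y, hy, he⟩
      rw [← he, Φ.symm_apply_apply]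
      exact hy
  have h2 : incl n x ∈ equator n := by
    rw [← range_incl]
    exact mem_range_self _
  rw [h1]
  constructor
  · intro h
    have h3 : incl n x ∈ Φ '' stdSphere n ∩ equator n := ⟨h, h2⟩
    rw [hT.1] at h3
    obtain ⟨y, hy, he⟩ := h3
    rw [← (isEmbedding_incl n).injective he]
    exact hy
  · intro h
    have h3 : incl n x ∈ incl n '' range f := ⟨x, h, rfl⟩
    rw [← hT.1] at h3
    exact h3.1

theorem exists_sign (hg : ContinuousOn g (range f)ᶜ) (hgen : Gen (res f g))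
    (Φ : Sph (n + 3) ≃ₜ Sph (n + 3))
    (hT : MeetsTransversally n (Φ '' stdSphere n) (range f)) :
    ∃ (m : ℤ) (l : Compl f → ℝ), (m = 1 ∨ m = -1) ∧ Continuous l ∧
      ∀ x : Compl f, cpart (cc n (Φ.symm (incl n x.1))) = g x.1 ^ m * Circle.exp (l x) := by
  classical
  set S : Set (Sph (n + 3)) := Φ '' stdSphere n with hS
  have hSmem : ∀ z, z ∉ S → cc n (Φ.symm z) ≠ 0 := by
    intro z hz h0
    exact hz ⟨Φ.symm z, (mem_stdSphere _).2 h0, Φ.apply_symm_apply _⟩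
  have hu : ContinuousOn (fun z => cpart (cc n (Φ.symm z))) {z | z ∉ S} :=
    continuousOn_cpart.comp ((continuous_cc n).comp Φ.symm.continuous).continuousOn
      (fun z hz => hSmem z hz)
  have hinclS : ∀ x : Compl f, incl n x.1 ∉ S := by
    intro x h
    have h1 := (symm_incl_notMem Φ hT x.1).2 x.2
    obtain ⟨y, hy, he⟩ := h
    rw [← he, Φ.symm_apply_apply] at h1
    exact h1 hy
  have hinclc : Continuous fun x : Compl f => incl n x.1 :=
    (isEmbedding_incl n).continuous.comp continuous_subtype_val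
  obtain ⟨m, l, hl, hml⟩ := hgen.gen (fun x : Compl f => cpart (cc n (Φ.symm (incl n x.1))))
    (hu.comp_continuous hinclc hinclS)
  refine ⟨m, l, ?_, hl, hml⟩
  -- a point of the knot
  have hne : Nonempty (Sph n) :=
    ⟨⟨EuclideanSpace.single 0 1, by simp⟩⟩
  obtain ⟨x₀⟩ := hne
  set z₀ := incl n (f x₀) with hz₀
  have hz₀S : z₀ ∈ S := by
    have h3 : z₀ ∈ incl n '' range f := ⟨f x₀, mem_range_self _, rfl⟩
    rw [← hT.1] at h3
    exact h3.1
  have hz₀E : z₀ ∈ equator n := by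
    rw [← range_incl]
    exact mem_range_self _
  obtain ⟨ψ, hψ0, hψ⟩ := hT.2 (f x₀) (mem_range_self _)
  have hc1 : (ψ z₀).2.1 = 0 := (hψ z₀ hψ0).1.1 hz₀S
  have hc2 : (ψ z₀).2.2 = 0 := (hψ z₀ hψ0).2.1 hz₀E
  set a₀ := (ψ z₀).1 with ha₀
  obtain ⟨ε, hε, hD⟩ := Metric.isOpen_iff.1 ψ.open_target (ψ z₀) (ψ.map_source hψ0)
  have hDmem : ∀ (a : EuclideanSpace ℝ (Fin n)) (w : ℂ) (t : ℝ),
      (a, w, t) ∈ Metric.ball (ψ z₀) ε ↔ dist a a₀ < ε ∧ ‖w‖ < ε ∧ |t| < ε := by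
    intro a w t
    rw [Metric.mem_ball, Prod.dist_eq, Prod.dist_eq, max_lt_iff, max_lt_iff, hc1, hc2,
      dist_zero_right, dist_zero_right, Real.norm_eq_abs]
  -- the first box
  let Y : Type := {z : Sph (n + 3) // z ∈ ψ.source ∧ ψ z ∈ Metric.ball (ψ z₀) ε ∧ z ∉ S}
  let C : Set (EuclideanSpace ℝ (Fin n) × ℝ) := Metric.ball (a₀, 0) ε
  have hCmem : ∀ (a : EuclideanSpace ℝ (Fin n)) (t : ℝ), (a, t) ∈ C ↔ dist a a₀ < ε ∧ |t| < ε := by
    intro a t
    show (a, t) ∈ Metric.ball (a₀, (0 : ℝ)) ε ↔ _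
    rw [Metric.mem_ball, Prod.dist_eq, max_lt_iff, dist_zero_right, Real.norm_eq_abs]
  let Θ : Y ≃ₜ {p : (EuclideanSpace ℝ (Fin n) × ℝ) × ℂ // p.1 ∈ C ∧ 0 < ‖p.2‖ ∧ ‖p.2‖ < ε} :=
    { toFun := fun z => ⟨(((ψ z.1).1, (ψ z.1).2.2), (ψ z.1).2.1), by
        have h1 := z.2.2.1
        have h2 := (hDmem (ψ z.1).1 (ψ z.1).2.1 (ψ z.1).2.2).1 h1
        refine ⟨(hCmem _ _).2 ⟨h2.1, h2.2.2⟩, ?_, h2.2.1⟩
        rw [norm_pos_iff]
        intro h0
        exact z.2.2.2 ((hψ z.1 z.2.1).1.2 h0)⟩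
      invFun := fun p => ⟨ψ.symm (p.1.1.1, p.1.2, p.1.1.2), by
        have h1 : (p.1.1.1, p.1.2, p.1.1.2) ∈ Metric.ball (ψ z₀) ε :=
          (hDmem _ _ _).2 ⟨((hCmem _ _).1 p.2.1).1, p.2.2.2, ((hCmem _ _).1 p.2.1).2⟩
        have h2 := hD h1
        have h3 := ψ.map_target h2
        have h4 := ψ.right_inv h2
        refine ⟨h3, ?_, ?_⟩
        · rw [h4]; exact h1
        · intro h5
          have h6 := (hψ _ h3).1.1 h5
          rw [h4] at h6
          exact (norm_pos_iff.1 p.2.2.1) h6⟩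
      left_inv := by
        intro z
        apply Subtype.ext
        exact ψ.left_inv z.2.1
      right_inv := by
        intro p
        have h1 : (p.1.1.1, p.1.2, p.1.1.2) ∈ Metric.ball (ψ z₀) ε :=
          (hDmem _ _ _).2 ⟨((hCmem _ _).1 p.2.1).1, p.2.2.2, ((hCmem _ _).1 p.2.1).2⟩
        have h4 := ψ.right_inv (hD h1)
        apply Subtype.ext
        show (((ψ (ψ.symm (p.1.1.1, p.1.2, p.1.1.2))).1, (ψ (ψ.symm (p.1.1.1, p.1.2, p.1.1.2))).2.2),
          (ψ (ψ.symm (p.1.1.1, p.1.2, p.1.1.2))).2.1) = p.1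
        rw [h4]
      continuous_toFun := by
        have h1 : Continuous fun z : Y => ψ z.1 :=
          ψ.continuousOn.comp_continuous continuous_subtype_val fun z => z.2.1
        exact Continuous.subtype_mk ((h1.fst.prodMk h1.snd.snd).prodMk h1.snd.fst) _
      continuous_invFun := by
        refine Continuous.subtype_mk ?_ _
        refine ψ.continuousOn_symm.comp_continuous ?_ fun p => ?_
        · have h1 : Continuous fun p : {p : (EuclideanSpace ℝ (Fin n) × ℝ) × ℂ //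
            p.1 ∈ C ∧ 0 < ‖p.2‖ ∧ ‖p.2‖ < ε} => p.1 := continuous_subtype_val
          exact h1.fst.fst.prodMk (h1.snd.prodMk h1.fst.snd)
        · exact hD ((hDmem _ _ _).2 ⟨((hCmem _ _).1 p.2.1).1, p.2.2.2, ((hCmem _ _).1 p.2.1).2⟩) }
  have hwY : Gen fun z : Y => cpart (ψ z.1).2.1 :=
    box_gen C (convex_ball _ _) Metric.isOpen_ball ⟨_, Metric.mem_ball_self hε⟩ ε hε Θ _
      fun _ => rfl
  -- the neighbourhood of the point of the standard sphere
  set N : Set (Sph (n + 3)) := Φ ⁻¹' (ψ.source ∩ ψ ⁻¹' Metric.ball (ψ z₀) ε) with hN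
  have hp₀ : Φ.symm z₀ ∈ stdSphere n := by
    obtain ⟨y, hy, he⟩ := hz₀S
    rw [← he, Φ.symm_apply_apply]
    exact hy
  have hNn : N ∈ 𝓝 (Φ.symm z₀) := by
    have h1 : IsOpen (ψ.source ∩ ψ ⁻¹' Metric.ball (ψ z₀) ε) :=
      ψ.isOpen_inter_preimage Metric.isOpen_ball
    refine (h1.preimage Φ.continuous).mem_nhds ?_
    show Φ (Φ.symm z₀) ∈ ψ.source ∩ ψ ⁻¹' Metric.ball (ψ z₀) ε
    rw [Φ.apply_symm_apply]
    exact ⟨hψ0, Metric.mem_ball_self hε⟩
  obtain ⟨B, hBN, hBS, hBG⟩ := std_box n (Φ.symm z₀) hp₀ N hNn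
  let j : B → Y := fun b => ⟨Φ b.1, (hBN b.2).1, (hBN b.2).2, by
    rintro ⟨y, hy, he⟩
    have := Φ.injective he
    rw [this] at hy
    exact hBS b.1 b.2 hy⟩
  have hj : Continuous j := Continuous.subtype_mk (Φ.continuous.comp continuous_subtype_val) _
  have huY : Continuous fun z : Y => cpart (cc n (Φ.symm z.1)) :=
    hu.comp_continuous continuous_subtype_val fun z => z.2.2.2
  have huj : Gen ((fun z : Y => cpart (cc n (Φ.symm z.1))) ∘ j) := by
    have h1 : ((fun z : Y => cpart (cc n (Φ.symm z.1))) ∘ j) = fun x : B => cpart (cc n x.1) := by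
      funext b
      show cpart (cc n (Φ.symm (Φ b.1))) = cpart (cc n b.1)
      rw [Φ.symm_apply_apply]
    rw [h1]
    exact hBG
  obtain ⟨d, l', hd, hl', hdl⟩ := nested huY hwY hj huj
  -- the second box
  let Y' : Type := {p : EuclideanSpace ℝ (Fin n) × ℂ // p.1 ∈ Metric.ball a₀ ε ∧ 0 < ‖p.2‖ ∧ ‖p.2‖ < ε}
  have hwY' : Gen fun y : Y' => cpart y.1.2 :=
    box_gen (Metric.ball a₀ ε) (convex_ball _ _) Metric.isOpen_ball ⟨_, Metric.mem_ball_self hε⟩
      ε hε (Homeomorph.refl _) _ fun _ => rfl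
  let k₂ : Y' → Y := fun y => Θ.symm ⟨((y.1.1, 0), y.1.2), (hCmem _ _).2 ⟨y.2.1, by simpa using hε⟩,
    y.2.2⟩
  have hk₂ : Continuous k₂ := by
    refine Θ.symm.continuous.comp (Continuous.subtype_mk ?_ _)
    have h1 : Continuous fun y : Y' => y.1 := continuous_subtype_val
    exact (h1.fst.prodMk continuous_const).prodMk h1.snd
  have hk₂ψ : ∀ y, ((((ψ (k₂ y).1).1, (ψ (k₂ y).1).2.2), (ψ (k₂ y).1).2.1) :
      (EuclideanSpace ℝ (Fin n) × ℝ) × ℂ) = ((y.1.1, 0), y.1.2) := by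
    intro y
    have h1 : (Θ (k₂ y)).1 = ((y.1.1, 0), y.1.2) := by
      show (Θ (Θ.symm _)).1 = _
      rw [Θ.apply_symm_apply]
    exact h1
  have hk₂E : ∀ y, (k₂ y).1 ∈ range (incl n) := by
    intro y
    rw [range_incl]
    refine (hψ _ (k₂ y).2.1).2.2 ?_
    have h1 := congrArg (fun q => q.1.2) (hk₂ψ y)
    exact h1
  choose k hk using hk₂E
  have hkc : Continuous k := by
    rw [(isEmbedding_incl n).continuous_iff]
    have h1 : incl n ∘ k = fun y => (k₂ y).1 := by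
      funext y
      exact hk y
    rw [h1]
    exact continuous_subtype_val.comp hk₂
  have hkf : ∀ y, k y ∉ range f := by
    intro y h
    have h1 : incl n (k y) ∈ incl n '' range f := ⟨_, h, rfl⟩
    rw [← hT.1, hk y] at h1
    exact (k₂ y).2.2.2 h1.1
  let kk : Y' → Compl f := fun y => ⟨k y, hkf y⟩
  have hkk : Continuous kk := hkc.subtype_mk _
  obtain ⟨e, ν, hν, heν⟩ := hwY'.gen (res f g ∘ kk) (hgen.cont.comp hkk)
  have hfree := hwY'.free (d - e * m) (fun y => m * ν y + l (kk y) - l' (k₂ y))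
    (((continuous_const.mul hν).add (hl.comp hkk)).sub (hl'.comp hk₂)) (by
      intro y
      have h1 : cpart (cc n (Φ.symm (k₂ y).1)) = cpart (ψ (k₂ y).1).2.1 ^ d *
        Circle.exp (l' (k₂ y)) := hdl (k₂ y)
      have h2 : cpart (cc n (Φ.symm (incl n (k y)))) = g (k y) ^ m * Circle.exp (l (kk y)) :=
        hml (kk y)
      have h3 : g (k y) = cpart y.1.2 ^ e * Circle.exp (ν y) := heν y
      have h4 : (ψ (k₂ y).1).2.1 = y.1.2 := congrArg (fun q => q.2) (hk₂ψ y)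
      rw [hk y, h1, h4, h3] at h2
      rw [mul_zpow, ← zpow_mul, ← Circle.exp_intCast_mul] at h2
      rw [Circle.exp_sub, Circle.exp_add, zpow_sub, ← div_eq_mul_inv, div_eq_div_iff_mul_eq_mul,
        h2, mul_assoc, mul_comm])
  have hem : e * m = d := by omega
  rcases hd with rfl | rfl
  · have := Int.isUnit_iff.1 (IsUnit.of_mul_eq_one_right e (by rw [hem]) : IsUnit m)
    exact this
  · have h5 : (-e) * m = 1 := by
      rw [neg_mul, hem]; norm_num
    exact Int.isUnit_iff.1 (IsUnit.of_mul_eq_one_right (-e) h5 : IsUnit m)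

end Pool.Agent.Helper82.DK2
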