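import Pool.Agent.Helper82.DK2.Split

/-!
# The pointwise form of the local structure
-/

namespace Pool.Agent.Helper82.DK2

open Set Topology

variable {n : ℕ} {f : Sph n → Sph (n + 2)} {g : Sph (n + 2) → Circle} {r : ℕ}

/-- A ball chart of the sphere at a point, with range in a given open set. -/
theorem exists_ball_chart (k : ℕ) (x₀ : Sph k) (O : Set (Sph k)) (hO : IsOpen O) (hx : x₀ ∈ O) :
    ∃ c : (Fin k → ℝ) → Sph k, IsOpenEmbedding c ∧ c 0 = x₀ ∧ ∀ a, c a ∈ O := by
  set φ : OpenPartialHomeomorph (Sph k) (EuclideanSpace ℝ (Fin k)) :=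
    chartAt (EuclideanSpace ℝ (Fin k)) x₀ with hφ
  have hx₀ : x₀ ∈ φ.source := mem_chart_source _ x₀
  have h1 : φ.target ∩ φ.symm ⁻¹' O ∈ 𝓝 (φ x₀) := by
    refine Filter.inter_mem (φ.open_target.mem_nhds (φ.map_source hx₀)) ?_
    have h2 := φ.continuousAt_symm (φ.map_source hx₀)
    exact h2 (by rw [φ.left_inv hx₀]; exact hO.mem_nhds hx)
  obtain ⟨ε, hε, hball⟩ := Metric.mem_nhds_iff.1 h1
  have hsrc : ((OpenPartialHomeomorph.univBall (φ x₀) ε).trans φ.symm).source = univ := by
    ext a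
    simp only [OpenPartialHomeomorph.trans_source, OpenPartialHomeomorph.univBall_source,
      mem_inter_iff, mem_univ, true_and, mem_preimage, OpenPartialHomeomorph.symm_source, iff_true]
    refine (hball ?_).1
    rw [← OpenPartialHomeomorph.univBall_target (φ x₀) hε]
    exact (OpenPartialHomeomorph.univBall (φ x₀) ε).map_source
      (by rw [OpenPartialHomeomorph.univBall_source]; trivial)
  have hemb := OpenPartialHomeomorph.isOpenEmbedding _ hsrc
  refine ⟨fun a => φ.symm (OpenPartialHomeomorph.univBall (φ x₀) ε (WithLp.toLp 2 a)),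
    hemb.comp (PiLp.homeomorph 2 (fun _ : Fin k => ℝ)).symm.isOpenEmbedding, ?_, fun a => ?_⟩
  · simp only
    have : (WithLp.toLp 2 (0 : Fin k → ℝ)) = (0 : EuclideanSpace ℝ (Fin k)) := rfl
    rw [this, OpenPartialHomeomorph.univBall_apply_zero, φ.left_inv hx₀]
  · refine (hball ?_).2
    rw [← OpenPartialHomeomorph.univBall_target (φ x₀) hε]
    exact (OpenPartialHomeomorph.univBall (φ x₀) ε).map_source
      (by rw [OpenPartialHomeomorph.univBall_source]; trivial)

/-- The `r`-th roots of unity are isolated. -/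
theorem exists_roots_nhds (hr : r ≠ 0) :
    ∃ N : Set Circle, IsOpen N ∧ (1 : Circle) ∈ N ∧ ∀ u ∈ N, u ^ r = 1 → u = 1 := by
  have : NeZero (r : ℤ) := ⟨by exact_mod_cast hr⟩
  obtain ⟨e, he, he'⟩ :=
    (Circle.isQuotientCoveringMap_zpow (r : ℤ)).isCoveringMap.isLocalHomeomorph 1
  refine ⟨e.source, e.open_source, he, fun u hu h => e.injOn hu he ?_⟩
  have h1 : ∀ v : Circle, e v = v ^ r := fun v => by
    rw [← he']; simp
  rw [h1, h1, h, one_pow]

/-- A ball chart of the cyclic cover of the knot complement. -/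
theorem exists_cov_chart (hf : IsClosed (range f)) (hg : ContinuousOn g (range f)ᶜ) (hr : r ≠ 0)
    (y : ↥(cov f g r)) :
    ∃ j : (Fin (n + 2) → ℝ) → ↥(cov f g r), IsOpenEmbedding j ∧ j 0 = y := by
  obtain ⟨⟨x₀, v₀⟩, hx₀, hv₀⟩ := y
  simp only at hx₀ hv₀
  -- the open set on which the root is defined
  set O : Set (Sph (n + 2)) := (range f)ᶜ ∩
    (fun x => ((g x / g x₀ : Circle) : ℂ)) ⁻¹' Complex.slitPlane with hO
  have hgc : ContinuousOn (fun x => ((g x / g x₀ : Circle) : ℂ)) (range f)ᶜ :=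
    continuous_subtype_val.comp_continuousOn (hg.div' continuousOn_const)
  have hOo : IsOpen O := hgc.isOpen_inter_preimage hf.isOpen_compl Complex.isOpen_slitPlane
  have hxO : x₀ ∈ O := by
    refine ⟨hx₀, ?_⟩
    simp only [mem_preimage]
    rw [div_self']
    simp
  obtain ⟨c, hc, hc0, hcO⟩ := exists_ball_chart (n + 2) x₀ O hOo hxO
  set s : Sph (n + 2) → Circle := fun x =>
    v₀ * Circle.exp (Complex.arg ((g x / g x₀ : Circle) : ℂ) / r) with hs
  have hrr : (r : ℝ) ≠ 0 := by exact_mod_cast hr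
  have hsr : ∀ x, s x ^ r = g x := fun x => by
    rw [hs]
    simp only
    rw [mul_pow, ← hv₀, ← Circle.exp_natCast_mul, mul_div_cancel₀ _ hrr, Circle.exp_arg,
      mul_div_cancel]
  have hsc : ContinuousOn s O := by
    have h1 : ContinuousOn (fun x => Complex.arg ((g x / g x₀ : Circle) : ℂ)) O := by
      intro x hx
      have h2 : ContinuousWithinAt (fun x => ((g x / g x₀ : Circle) : ℂ)) O x :=
        (hgc x hx.1).mono inter_subset_left
      exact ContinuousAt.comp_continuousWithinAt (f := fun x => ((g x / g x₀ : Circle) : ℂ))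
        (g := Complex.arg) (Complex.continuousAt_arg hx.2) h2
    exact continuousOn_const.mul (Circle.exp.continuous.comp_continuousOn (h1.div_const _))
  obtain ⟨N, hN, h1N, hNr⟩ := exists_roots_nhds (r := r) hr
  have hsc' : Continuous fun a => s (c a) := hsc.comp_continuous hc.continuous hcO
  refine ⟨fun a => ⟨(c a, s (c a)), (hcO a).1, (hsr _).symm⟩, ?_, ?_⟩
  · refine IsOpenEmbedding.of_continuous_injective_isOpenMap
      ((hc.continuous.prodMk hsc').subtype_mk _) (fun a b hab => ?_) ?_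
    · exact hc.injective (congrArg (fun z : ↥(cov f g r) => z.1.1) hab)
    · intro W hW
      have h1 : IsOpen (c '' W) := hc.isOpenMap W hW
      have h2 : c '' W ⊆ O := by rintro _ ⟨a, -, rfl⟩; exact hcO a
      have h3 : IsOpen ((Prod.fst ⁻¹' (c '' W) : Set (Sph (n + 2) × Circle)) ∩
          (fun z : Sph (n + 2) × Circle => z.2 / s z.1) ⁻¹' N) := by
        refine ContinuousOn.isOpen_inter_preimage ?_ (h1.preimage continuous_fst) hN
        refine continuousOn_snd.div' ((hsc.mono h2).comp continuousOn_fst fun z hz => hz)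
      refine ⟨_, h3, ?_⟩
      ext z
      constructor
      · rintro ⟨⟨a, ha, haz⟩, hz⟩
        refine ⟨a, ha, ?_⟩
        have h4 : (z.1.2 / s z.1.1) ^ r = 1 := by
          rw [div_pow, hsr, z.2.2, div_self']
        have h5 : z.1.2 = s z.1.1 := div_eq_one.1 (hNr _ hz h4)
        apply Subtype.ext
        apply Prod.ext
        · exact haz
        · simp only
          rw [haz, h5]
      · rintro ⟨a, ha, rfl⟩
        refine ⟨⟨a, ha, rfl⟩, ?_⟩
        simp only [mem_preimage]
        rw [div_self']; exact h1N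
  · apply Subtype.ext
    simp only
    rw [hc0]
    apply Prod.ext
    · rfl
    · simp only [hs]
      rw [div_self']
      simp

/-- The local structure at a point. -/
theorem hloc (hf : IsClosed (range f)) (hg : ContinuousOn g (range f)ᶜ) (hr : r ≠ 0)
    {P Q : Set (EE n)} {φ : Sph (n + 2) × Circle → EE n} {ψ : EE n → Sph (n + 2) × Circle} {m : ℤ}
    (h : IsSplit f g r P Q φ ψ m) (hb : IsBicollared f g r P Q φ) :
    ∀ x ∈ P ∩ Q, ∃ J : ℝ × (Fin (n + 2) → ℝ) → EE n, IsOpenEmbedding J ∧ J (0, 0) = x ∧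
      (∀ q, J q ∈ P ↔ 0 ≤ q.1) ∧ ∀ q, J q ∈ Q ↔ q.1 ≤ 0 := by
  intro x hx
  obtain ⟨j, hj, hj0⟩ := exists_cov_chart hf hg hr ⟨ψ x, h.mapsψ hx⟩
  obtain ⟨ι, Ψ, -, hι0, hΨ, hΨ0, hP, hQ⟩ := hb j hj
  refine ⟨fun q => Ψ (q.2, q.1), hΨ.comp (Homeomorph.prodComm ℝ _).isOpenEmbedding, ?_,
    fun q => hP _ _, fun q => hQ _ _⟩
  simp only
  rw [hΨ0, hι0, hj0]
  exact h.right x hx

end Pool.Agent.Helper82.DK2
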