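import Pool.Agent.Helper82.DK2.Split

/-!
# DK-O5: the splitting (about 150-200 lines)

`pr` is continuous, so `PP`, `QQ` are closed, and their union is everything.
`pr (e.1, ζ e.2) = pr e` if `ζ ^ r = 1`. For `x ∉ range f` the point `Φ⁻¹ (incl x)` is not in
`stdSphere` (`symm_incl_notMem`), and
`H (Φ⁻¹ (incl x)) = (q, u)` with `u = cpart (cc (Φ⁻¹ (incl x))) = g x ^ m * exp (l x)`; if
`g x = v ^ r` then `(v ^ m * exp (l x / r)) ^ r = u`, so `pr (phi (x, v)) = incl x`, whose last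
coordinate is zero. So `phi` maps `cov f g r` to `PP ∩ QQ`. Conversely, if `e ∈ PP ∩ QQ`, then
`z = pr e` lies in the equator, `z = incl x`, `x = dd z` (`range_incl`, `Function.leftInverse_invFun`),
and `Φ⁻¹ z = H⁻¹ (e.1, e.2 ^ r)` is not in `stdSphere`, so `x ∉ range f`. Then
`e.2 ^ r = u = g x ^ m * exp (l x)`, so `((e.2 * exp (-l x / r)) ^ m) ^ r = (g x ^ m) ^ m = g x` (`m = ±1`,
`m * m = 1`). The compositions are the identity (`(v ^ m) ^ m = v`). Continuity of `psi`:
`dd` is continuous on the equator since `incl` is an embedding (`isEmbedding_incl`), `l` is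
continuous on `(range f)ᶜ`. Continuity of `phi`: on `cov f g r` the condition in the definition holds;
use `continuousOn_iff_continuous_domRestrict` or a local argument.
`rotφ`: `(ζ v) ^ m = ζ ^ m v ^ m`. `snd`: the function `x ↦ l x.1 / r`.
-/

namespace Pool.Agent.Helper82.DK2

open Set Topology

variable {n : ℕ} {f : Sph n → Sph (n + 2)} {g : Sph (n + 2) → Circle}

private theorem sm_coord {m : ℕ} (i : Fin (m + 1)) : Continuous fun x : Sph m => x.1 i :=
  (EuclideanSpace.proj i : EuclideanSpace ℝ (Fin (m + 1)) →L[ℝ] ℝ).continuous.comp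
    continuous_subtype_val

private theorem sm_mm {m : ℤ} (hm : m = 1 ∨ m = -1) (v : Circle) : (v ^ m) ^ m = v := by
  rw [← zpow_mul]
  rcases hm with rfl | rfl
  · norm_num
  · norm_num

private theorem sm_exp {r : ℕ} (hr : r ≠ 0) (t : ℝ) :
    Circle.exp (t / r) ^ r = Circle.exp t := by
  rw [← Circle.exp_natCast_mul]
  congr 1
  have : (r : ℝ) ≠ 0 := Nat.cast_ne_zero.2 hr
  field_simp

private theorem sm_expneg (t : ℝ) : Circle.exp t * Circle.exp (-t) = 1 := by
  rw [← Circle.exp_add, add_neg_cancel, Circle.exp_zero]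

private theorem sm_dd (n : ℕ) (x : Sph (n + 2)) : dd n (incl n x) = x := by
  have : Nonempty (Sph (n + 2)) := ⟨⟨EuclideanSpace.single 0 1, by simp⟩⟩
  unfold dd
  exact Function.leftInverse_invFun (isEmbedding_incl n).injective x

private theorem sm_comm (z : Circle) (m : ℤ) (r : ℕ) : (z ^ m) ^ r = (z ^ r) ^ m := by
  rw [← zpow_natCast, ← zpow_mul, mul_comm, zpow_mul, zpow_natCast]

private theorem sm_contpr (Φ : Sph (n + 3) ≃ₜ Sph (n + 3))
    (H : {x : Sph (n + 3) // x ∉ stdSphere n} ≃ₜ EuclideanSpace ℝ (Fin (n + 2)) × Circle)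
    (r : ℕ) : Continuous (pr Φ H r) :=
  Φ.continuous.comp (continuous_subtype_val.comp (H.symm.continuous.comp
    (continuous_fst.prodMk (continuous_snd.pow r))))

private theorem sm_phi (Φ : Sph (n + 3) ≃ₜ Sph (n + 3))
    (H : {x : Sph (n + 3) // x ∉ stdSphere n} ≃ₜ EuclideanSpace ℝ (Fin (n + 2)) × Circle)
    (m : ℤ) (l : Sph (n + 2) → ℝ) (r : ℕ) (x : Sph (n + 2) × Circle)
    (h : Φ.symm (incl n x.1) ∉ stdSphere n) : phi Φ H m l r x =
      ((H ⟨_, h⟩).1, x.2 ^ m * Circle.exp (l x.1 / r)) := by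
  unfold phi
  rw [dif_pos h]

private theorem sm_prrot (Φ : Sph (n + 3) ≃ₜ Sph (n + 3))
    (H : {x : Sph (n + 3) // x ∉ stdSphere n} ≃ₜ EuclideanSpace ℝ (Fin (n + 2)) × Circle)
    (r : ℕ) {ζ : Circle} (hζ : ζ ^ r = 1) (e : EE n) : pr Φ H r (e.1, ζ * e.2) = pr Φ H r e := by
  unfold pr
  simp only [mul_pow, hζ, one_mul]

/-- the covering map on the image of the cyclic cover -/
private theorem sm_prphi (Φ : Sph (n + 3) ≃ₜ Sph (n + 3))
    (hT : MeetsTransversally n (Φ '' stdSphere n) (range f))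
    (H : {x : Sph (n + 3) // x ∉ stdSphere n} ≃ₜ EuclideanSpace ℝ (Fin (n + 2)) × Circle)
    (hH : ∀ x, (H x).2 = cpart (cc n x.1)) (m : ℤ)
    (l : Sph (n + 2) → ℝ)
    (hml : ∀ x, x ∉ range f → cpart (cc n (Φ.symm (incl n x))) = g x ^ m * Circle.exp (l x))
    (r : ℕ) (hr : r ≠ 0) (x : Sph (n + 2) × Circle) (hx : x ∈ cov f g r) :
    pr Φ H r (phi Φ H m l r x) = incl n x.1 := by
  have h : Φ.symm (incl n x.1) ∉ stdSphere n := (symm_incl_notMem Φ hT x.1).2 hx.1
  rw [sm_phi Φ H m l r x h]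
  have h1 : ((H ⟨_, h⟩).1, (x.2 ^ m * Circle.exp (l x.1 / r)) ^ r) = H ⟨_, h⟩ := by
    refine Prod.ext rfl ?_
    show (x.2 ^ m * Circle.exp (l x.1 / r)) ^ r = (H ⟨_, h⟩).2
    rw [hH, hml x.1 hx.1, mul_pow, sm_exp hr, hx.2, ← zpow_natCast (x.2 ^ m) r, ← zpow_mul,
      ← zpow_natCast x.2 r, ← zpow_mul, mul_comm m]
  unfold pr
  simp only
  rw [h1, H.symm_apply_apply, Φ.apply_symm_apply]

/-- the points of the intersection -/
private theorem sm_inter (Φ : Sph (n + 3) ≃ₜ Sph (n + 3))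
    (hT : MeetsTransversally n (Φ '' stdSphere n) (range f))
    (H : {x : Sph (n + 3) // x ∉ stdSphere n} ≃ₜ EuclideanSpace ℝ (Fin (n + 2)) × Circle)
    (hH : ∀ x, (H x).2 = cpart (cc n x.1)) (m : ℤ)
    (l : Sph (n + 2) → ℝ)
    (hml : ∀ x, x ∉ range f → cpart (cc n (Φ.symm (incl n x))) = g x ^ m * Circle.exp (l x))
    (r : ℕ) (e : EE n) (he : e ∈ PP Φ H r ∩ QQ Φ H r) :
    incl n (dd n (pr Φ H r e)) = pr Φ H r e ∧ dd n (pr Φ H r e) ∉ range f ∧
      e.2 ^ r = g (dd n (pr Φ H r e)) ^ m * Circle.exp (l (dd n (pr Φ H r e))) ∧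
      ∀ h : Φ.symm (incl n (dd n (pr Φ H r e))) ∉ stdSphere n, (H ⟨_, h⟩).1 = e.1 := by
  have h0 : pr Φ H r e ∈ range (incl n) := by
    rw [range_incl]
    exact le_antisymm he.2 he.1
  obtain ⟨x, hx⟩ := h0
  have h1 : incl n (dd n (pr Φ H r e)) = pr Φ H r e := by rw [← hx, sm_dd]
  have h2 : Φ.symm (pr Φ H r e) = (H.symm (e.1, e.2 ^ r)).1 := by
    unfold pr
    rw [Φ.symm_apply_apply]
  have h3 : Φ.symm (incl n (dd n (pr Φ H r e))) ∉ stdSphere n := by
    rw [h1, h2]
    exact (H.symm (e.1, e.2 ^ r)).2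
  have h4 : dd n (pr Φ H r e) ∉ range f := (symm_incl_notMem Φ hT _).1 h3
  have h5 : (⟨_, h3⟩ : {x : Sph (n + 3) // x ∉ stdSphere n}) = H.symm (e.1, e.2 ^ r) := by
    apply Subtype.ext
    show Φ.symm (incl n (dd n (pr Φ H r e))) = _
    rw [h1, h2]
  refine ⟨h1, h4, ?_, fun h => ?_⟩
  · rw [← hml _ h4]
    have h6 := hH ⟨_, h3⟩
    rw [h5, H.apply_symm_apply] at h6
    refine h6.trans ?_
    rw [h1, h2]
  · rw [h5, H.apply_symm_apply]

theorem isSplit_main (Φ : Sph (n + 3) ≃ₜ Sph (n + 3))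
    (hT : MeetsTransversally n (Φ '' stdSphere n) (range f))
    (H : {x : Sph (n + 3) // x ∉ stdSphere n} ≃ₜ EuclideanSpace ℝ (Fin (n + 2)) × Circle)
    (hH : ∀ x, (H x).2 = cpart (cc n x.1)) (m : ℤ) (hm : m = 1 ∨ m = -1)
    (l : Sph (n + 2) → ℝ) (hl : ContinuousOn l (range f)ᶜ)
    (hml : ∀ x, x ∉ range f → cpart (cc n (Φ.symm (incl n x))) = g x ^ m * Circle.exp (l x))
    (r : ℕ) (hr : r ≠ 0) :
    IsSplit f g r (PP Φ H r) (QQ Φ H r) (phi Φ H m l r) (psi Φ H m l r) m := by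
  have hcp := sm_contpr Φ H r
  have hst : ∀ x : Sph (n + 2), x ∉ range f → Φ.symm (incl n x) ∉ stdSphere n := fun x hx =>
    (symm_incl_notMem Φ hT x).2 hx
  have hprphi := sm_prphi Φ hT H hH m l hml r hr
  have hint := sm_inter Φ hT H hH m l hml r
  refine
    { closedP := isClosed_le continuous_const ((sm_coord _).comp hcp)
      closedQ := isClosed_le ((sm_coord _).comp hcp) continuous_const
      union := ?_
      sign := hm
      rotP := ?_
      rotQ := ?_
      contφ := ?_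
      mapsφ := ?_
      contψ := ?_
      mapsψ := ?_
      left := ?_
      right := ?_
      rotφ := ?_
      snd := ?_ }
  · ext e
    simp only [mem_union, mem_univ, iff_true]
    exact le_total (0 : ℝ) ((pr Φ H r e).1 (Fin.last (n + 3)))
  · intro ζ hζ e he
    show 0 ≤ (pr Φ H r (e.1, ζ * e.2)).1 (Fin.last (n + 3))
    rw [sm_prrot Φ H r hζ]
    exact he
  · intro ζ hζ e he
    show (pr Φ H r (e.1, ζ * e.2)).1 (Fin.last (n + 3)) ≤ 0
    rw [sm_prrot Φ H r hζ]
    exact he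
  · rw [continuousOn_iff_continuous_domRestrict]
    have e1 : (cov f g r).domRestrict (phi Φ H m l r) = fun x : cov f g r =>
        ((H ⟨_, hst x.1.1 x.2.1⟩).1, x.1.2 ^ m * Circle.exp (l x.1.1 / r)) := by
      funext x
      exact sm_phi Φ H m l r x.1 (hst x.1.1 x.2.1)
    have e2 : Continuous (fun x : cov f g r =>
        ((H ⟨_, hst x.1.1 x.2.1⟩).1, x.1.2 ^ m * Circle.exp (l x.1.1 / r))) := by
      have c1 : Continuous fun x : cov f g r => x.1.1 := continuous_fst.comp continuous_subtype_val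
      have c2 : Continuous fun x : cov f g r => x.1.2 := continuous_snd.comp continuous_subtype_val
      have c3 : Continuous fun x : cov f g r => l x.1.1 := hl.comp_continuous c1 fun x => x.2.1
      refine Continuous.prodMk ?_ ?_
      · refine continuous_fst.comp (H.continuous.comp (Continuous.subtype_mk ?_ _))
        exact Φ.symm.continuous.comp ((isEmbedding_incl n).continuous.comp c1)
      · exact (c2.zpow m).mul (Circle.exp.continuous.comp (c3.div_const _))
    exact e1 ▸ e2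
  · intro x hx
    have h1 : (pr Φ H r (phi Φ H m l r x)).1 (Fin.last (n + 3)) = 0 := by
      rw [hprphi x hx]
      have h2 : incl n x.1 ∈ equator n := by
        rw [← range_incl]
        exact ⟨x.1, rfl⟩
      exact h2
    exact ⟨ge_of_eq h1, le_of_eq h1⟩
  · rw [continuousOn_iff_continuous_domRestrict]
    have c0 : Continuous fun e : ↥(PP Φ H r ∩ QQ Φ H r) => dd n (pr Φ H r e.1) := by
      rw [(isEmbedding_incl n).continuous_iff]
      have e1 : (incl n ∘ fun e : ↥(PP Φ H r ∩ QQ Φ H r) => dd n (pr Φ H r e.1)) =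
          fun e => pr Φ H r e.1 := by
        funext e
        exact (hint e.1 e.2).1
      rw [e1]
      exact hcp.comp continuous_subtype_val
    have c3 : Continuous fun e : ↥(PP Φ H r ∩ QQ Φ H r) => l (dd n (pr Φ H r e.1)) :=
      hl.comp_continuous c0 fun e => (hint e.1 e.2).2.1
    have c2 : Continuous fun e : ↥(PP Φ H r ∩ QQ Φ H r) => e.1.2 :=
      continuous_snd.comp continuous_subtype_val
    exact c0.prodMk ((c2.mul (Circle.exp.continuous.comp (c3.neg.div_const _))).zpow m)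
  · intro e he
    obtain ⟨_, h2, h3, _⟩ := hint e he
    refine ⟨h2, ?_⟩
    show g (dd n (pr Φ H r e)) =
      ((e.2 * Circle.exp (-(l (dd n (pr Φ H r e))) / r)) ^ m) ^ r
    rw [sm_comm, mul_pow, sm_exp hr, h3, mul_assoc, sm_expneg, mul_one, sm_mm hm]
  · intro x hx
    have h := hst x.1 hx.1
    have h1 : pr Φ H r (phi Φ H m l r x) = incl n x.1 := hprphi x hx
    unfold psi
    rw [h1, sm_dd, sm_phi Φ H m l r x h]
    refine Prod.ext rfl ?_
    show (x.2 ^ m * Circle.exp (l x.1 / r) * Circle.exp (-(l x.1) / r)) ^ m = x.2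
    rw [mul_assoc, neg_div, sm_expneg, mul_one, sm_mm hm]
  · intro e he
    obtain ⟨h1, h2, _, h4⟩ := hint e he
    have h := hst _ h2
    have h5 : phi Φ H m l r (psi Φ H m l r e) = ((H ⟨_, h⟩).1,
        ((e.2 * Circle.exp (-(l (dd n (pr Φ H r e))) / r)) ^ m) ^ m *
          Circle.exp (l (dd n (pr Φ H r e)) / r)) := sm_phi Φ H m l r (psi Φ H m l r e) h
    rw [h5, h4 h, sm_mm hm]
    refine Prod.ext rfl ?_
    show e.2 * Circle.exp (-(l (dd n (pr Φ H r e))) / r) *
      Circle.exp (l (dd n (pr Φ H r e)) / r) = e.2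
    rw [mul_assoc, neg_div, mul_comm (Circle.exp _), sm_expneg, mul_one]
  · intro ζ _ x hx
    have h := hst x.1 hx.1
    rw [sm_phi Φ H m l r x h, sm_phi Φ H m l r (x.1, ζ * x.2) h]
    refine Prod.ext rfl ?_
    show (ζ * x.2) ^ m * Circle.exp (l x.1 / r) = ζ ^ m * (x.2 ^ m * Circle.exp (l x.1 / r))
    rw [mul_zpow, mul_assoc]
  · refine ⟨fun x => l x.1 / r, ?_, fun x hx => ?_⟩
    · exact (hl.comp continuousOn_fst fun x hx => hx.1).div_const _
    · rw [sm_phi Φ H m l r x (hst x.1 hx.1)]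

end Pool.Agent.Helper82.DK2
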