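import Pool.Agent.Helper82.DK2.ZLevel

/-!
# DK-P5: the infinite cyclic cover of the complement of the spun knot is simply connected
(abstract version; about 150-200 lines)

Proof. Let `x₀ = j (m₀, z₀)`, `G = FundamentalGroup X x₀`,
`φ = FundamentalGroup.map ⟨fun z => j (m₀, z), _⟩ z₀`, `ψ = FundamentalGroup.map ⟨fun m => j (m, z₀), _⟩ m₀`,
both with values in `G`. A loop `(γ₁, γ₂)` in `M × Z` has
`lc (j ∘ (γ₁, γ₂)) = φ (lc γ₂) * ψ (lc γ₁) = ψ (lc γ₁) * φ (lc γ₂)`, because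
`(γ₁, γ₂)` is homotopic to `(γ₁, const)(const, γ₂)` and to `(const, γ₂)(γ₁, const)`
(`Path.Homotopic.comp_prod_eq_prod_comp` or a direct argument with
`Path.trans_prod_eq_prod_trans`: `(γ₁.trans refl).prod (refl.trans γ₂) = (γ₁.prod refl).trans (refl.prod γ₂)`,
and `γ₁.trans refl` is homotopic to `γ₁`). Hence the images of `φ` and `ψ` commute.
Let `μ = φ (lc (β₂.trans β₁))`, the class of a loop in `V` (`hβV₂`, `hβV₁`) with `θ`-angle `2π`
(`θ (j (m₀, z)) = τ m₀ * ζ z`, the factor `τ m₀` is constant). All loops in `V` at `x₀` are powers of `μ`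
(`lc_mem_zpowers`). For `γ : Path m₀ m₀` the loop `j (γ, z₀)` lies in `V` (`hz₀V`), so `ψ (lc γ)` is a
power of `μ`, with exponent the angle of `τ` along `γ` divided by `2π` (`θ (j (m, z₀)) = τ m * ζ z₀`).
In particular `ψ (lc α) = μ`. So `μ` commutes with the image of `φ`, and with `A' = φ A`, `B' = φ B`, for the `A`,
`B` of `z_level`; by `group_algebra` `A'`, `B'` and hence the whole image of `φ` (`closure {A, B} = ⊤`) is
in `zpowers μ`. Now `generate` for `U = range j` and `V`: every loop in `range j` at `x₀` is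
`j ∘ (γ₁, γ₂)` (`hj.toHomeomorphOfSurjective`... or `hj.isInducing`: the path
`t ↦ the unique preimage` is continuous), so its class is in `zpowers μ`. So
`zpowers μ = ⊤`, and `simplyConnected_pb` gives the claim. `X` is path connected, being the union of
the path connected sets `range j` (`M`, `Z` are path connected; `Z = Z₁ ∪ Z₂` with path connected
intersection) and `V` (`isPathConnected_of_pbOn`), which meet.
-/

namespace Pool.Agent.Helper82.DK2

open Set Topology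

section aux

variable {X M Z : Type*} [TopologicalSpace X] [TopologicalSpace M] [TopologicalSpace Z]

private theorem lc_map_hom {f : X → Z} (hf : Continuous f) (x : X) :
    ∃ φ : FundamentalGroup X x →* FundamentalGroup Z (f x),
      ∀ γ : Path x x, φ (lc γ) = lc (γ.map hf) :=
  ⟨FundamentalGroup.map ⟨f, hf⟩ x, fun _ => rfl⟩

private theorem homotopic_trans_refl {x y : X} (γ : Path x y) :
    (γ.trans (Path.refl y)).Homotopic γ := ⟨Path.Homotopy.transRefl γ⟩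

private theorem homotopic_refl_trans {x y : X} (γ : Path x y) :
    ((Path.refl x).trans γ).Homotopic γ := ⟨Path.Homotopy.reflTrans γ⟩

private theorem homotopic_prod {m m' : M} {z z' : Z} {γ γ' : Path m m'} {δ δ' : Path z z'}
    (h : γ.Homotopic γ') (h' : δ.Homotopic δ') : (γ.prod δ).Homotopic (γ'.prod δ') := by
  obtain ⟨F⟩ := h
  obtain ⟨G⟩ := h'
  exact ⟨Path.Homotopic.prodHomotopy F G⟩

private theorem lc_prod₁ {f : M × Z → X} (hf : Continuous f) (m₀ : M) (z₀ : Z)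
    (γ₁ : Path m₀ m₀) (γ₂ : Path z₀ z₀) :
    lc ((γ₁.prod γ₂).map hf) =
      lc ((γ₂.map (f := fun z => f (m₀, z)) (hf.comp (Continuous.prodMk_right m₀)))) *
      lc ((γ₁.map (f := fun m => f (m, z₀)) (hf.comp (Continuous.prodMk_left z₀)))) := by
  rw [← lc_trans, lc_eq_iff]
  have h1 : ((γ₁.map (f := fun m => f (m, z₀)) (hf.comp (Continuous.prodMk_left z₀))).trans
      (γ₂.map (f := fun z => f (m₀, z)) (hf.comp (Continuous.prodMk_right m₀)))) =
      (((γ₁.trans (Path.refl m₀)).prod ((Path.refl z₀).trans γ₂)).map hf) := by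
    rw [← Path.trans_prod_eq_prod_trans, Path.map_trans]
    rfl
  rw [h1]
  exact Path.Homotopic.map (f := ⟨f, hf⟩) (homotopic_prod (homotopic_trans_refl γ₁).symm
    (homotopic_refl_trans γ₂).symm)

private theorem lc_prod₂ {f : M × Z → X} (hf : Continuous f) (m₀ : M) (z₀ : Z)
    (γ₁ : Path m₀ m₀) (γ₂ : Path z₀ z₀) :
    lc ((γ₁.prod γ₂).map hf) =
      lc ((γ₁.map (f := fun m => f (m, z₀)) (hf.comp (Continuous.prodMk_left z₀)))) *
      lc ((γ₂.map (f := fun z => f (m₀, z)) (hf.comp (Continuous.prodMk_right m₀)))) := by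
  rw [← lc_trans, lc_eq_iff]
  have h1 : ((γ₂.map (f := fun z => f (m₀, z)) (hf.comp (Continuous.prodMk_right m₀))).trans
      (γ₁.map (f := fun m => f (m, z₀)) (hf.comp (Continuous.prodMk_left z₀)))) =
      ((((Path.refl m₀).trans γ₁).prod (γ₂.trans (Path.refl z₀))).map hf) := by
    rw [← Path.trans_prod_eq_prod_trans, Path.map_trans]
    rfl
  rw [h1]
  exact Path.Homotopic.map (f := ⟨f, hf⟩) (homotopic_prod (homotopic_refl_trans γ₁).symm
    (homotopic_trans_refl γ₂).symm)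

end aux

theorem x_level {X M Z : Type*} [TopologicalSpace X] [TopologicalSpace M] [TopologicalSpace Z]
    [PathConnectedSpace M] (θ : X → Circle) (hθ : Continuous θ) (τ : M → Circle)
    (hτ : Continuous τ) (ζ : Z → Circle) (hζ : Continuous ζ)
    (j : M × Z → X) (hj : IsOpenEmbedding j) (hjθ : ∀ m z, θ (j (m, z)) = τ m * ζ z)
    (V : Set X) (hV : IsOpen V) (hVU : range j ∪ V = univ)
    (hVs : IsSimplyConnected (pbOn V θ)) (hI : IsPathConnected (range j ∩ V))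
    (m₀ : M) (α : Path m₀ m₀) (hα : HasAngle τ α (2 * Real.pi))
    (Z₁ Z₂ : Set Z) (hZ₁ : IsOpen Z₁) (hZ₂ : IsOpen Z₂) (hZ : Z₁ ∪ Z₂ = univ)
    (hZI : IsPathConnected (Z₁ ∩ Z₂)) (ζ₁ ζ₂ : Z → Circle)
    (hc₁ : ContinuousOn ζ₁ Z₁) (hc₂ : ContinuousOn ζ₂ Z₂)
    (h₁ : IsSimplyConnected (pbOn Z₁ ζ₁)) (h₂ : IsSimplyConnected (pbOn Z₂ ζ₂))
    (z₀ : Z) (hz₀ : z₀ ∈ Z₁ ∩ Z₂) (hz₀V : ∀ m, j (m, z₀) ∈ V)
    (ha₁ : ∀ γ : Path z₀ z₀, (∀ t, γ t ∈ Z₁) → ∀ r, HasAngle ζ₁ γ r → HasAngle ζ γ (2 * r))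
    (ha₂ : ∀ γ : Path z₀ z₀, (∀ t, γ t ∈ Z₂) → ∀ r, HasAngle ζ₂ γ r → HasAngle ζ γ (3 * r))
    (η : Path z₀ z₀) (hη : ∀ t, η t ∈ Z₁ ∩ Z₂) (hη' : HasAngle ζ η (12 * Real.pi))
    (z₁ : Z) (hz₁ : z₁ ∈ Z₁ ∩ Z₂) (β₂ : Path z₀ z₁) (hβ₂ : ∀ t, β₂ t ∈ Z₂) (β₁ : Path z₁ z₀)
    (hβ₁ : ∀ t, β₁ t ∈ Z₁) (hβV₂ : ∀ t, j (m₀, β₂ t) ∈ V) (hβV₁ : ∀ t, j (m₀, β₁ t) ∈ V)
    (hβ : HasAngle ζ (β₂.trans β₁) (2 * Real.pi)) :
    SimplyConnectedSpace (PB θ) := by
  have hz₀V' : j (m₀, z₀) ∈ V := hz₀V m₀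
  -- the two homomorphisms
  obtain ⟨φ, hφ⟩ := lc_map_hom (f := fun z => j (m₀, z))
    (hj.continuous.comp (Continuous.prodMk_right m₀)) z₀
  obtain ⟨ψ, hψ⟩ := lc_map_hom (f := fun m => j (m, z₀))
    (hj.continuous.comp (Continuous.prodMk_left z₀)) m₀
  have hcomm : ∀ (γ₁ : Path m₀ m₀) (γ₂ : Path z₀ z₀), Commute (ψ (lc γ₁)) (φ (lc γ₂)) := by
    intro γ₁ γ₂
    rw [hφ, hψ]
    exact (lc_prod₂ hj.continuous m₀ z₀ γ₁ γ₂).symm.trans
      (lc_prod₁ hj.continuous m₀ z₀ γ₁ γ₂)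
  -- the loop `μ`
  set μ : Path (j (m₀, z₀)) (j (m₀, z₀)) := (β₂.trans β₁).map (f := fun z => j (m₀, z))
    (hj.continuous.comp (Continuous.prodMk_right m₀)) with hμdef
  have hμV : ∀ t, μ t ∈ V := by
    intro t
    change j (m₀, (β₂.trans β₁) t) ∈ V
    have : (β₂.trans β₁) t ∈ range (β₂.trans β₁) := ⟨t, rfl⟩
    rw [Path.trans_range] at this
    rcases this with ⟨s, hs⟩ | ⟨s, hs⟩
    · rw [← hs]; exact hβV₂ s
    · rw [← hs]; exact hβV₁ s
  have hμa : HasAngle θ μ (2 * Real.pi) := by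
    rw [hμdef, HasAngle.map_iff]
    obtain ⟨l, hl, hl'⟩ := hβ
    obtain ⟨c, hc⟩ := Circle.exp_surjective (τ m₀)
    refine ⟨⟨fun t => c + l t, by fun_prop⟩, fun t => ?_, ?_⟩
    · change θ (j (m₀, (β₂.trans β₁) t)) = Circle.exp (c + l t)
      rw [hjθ, Circle.exp_add, hc, hl]
    · change c + l 1 - (c + l 0) = 2 * Real.pi
      linarith
  have hVpow : ∀ γ : Path (j (m₀, z₀)) (j (m₀, z₀)), (∀ t, γ t ∈ V) →
      lc γ ∈ Subgroup.zpowers (lc μ) := by
    intro γ hγ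
    obtain ⟨r, hr⟩ := HasAngle.exists_of_continuous hθ γ
    obtain ⟨k, rfl⟩ := hr.loop
    exact ⟨k, (lc_mem_zpowers hVs μ hμV hμa γ hγ k hr).symm⟩
  have hψpow : ∀ γ : Path m₀ m₀, ψ (lc γ) ∈ Subgroup.zpowers (lc μ) := by
    intro γ
    rw [hψ]
    exact hVpow _ fun t => hz₀V _
  have hψα : ψ (lc α) = lc μ := by
    rw [hψ]
    have h1 : HasAngle θ (α.map (f := fun m => j (m, z₀))
        (hj.continuous.comp (Continuous.prodMk_left z₀))) ((1 : ℤ) * (2 * Real.pi)) := by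
      rw [HasAngle.map_iff]
      obtain ⟨l, hl, hl'⟩ := hα
      obtain ⟨c, hc⟩ := Circle.exp_surjective (ζ z₀)
      refine ⟨⟨fun t => l t + c, by fun_prop⟩, fun t => ?_, ?_⟩
      · change θ (j (α t, z₀)) = Circle.exp (l t + c)
        rw [hjθ, Circle.exp_add, hc, hl]
      · change l 1 + c - (l 0 + c) = ((1 : ℤ) : ℝ) * (2 * Real.pi)
        push_cast
        linarith
    have h2 := lc_mem_zpowers hVs μ hμV hμa _ (fun t => hz₀V _) 1 h1
    rw [zpow_one] at h2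
    exact h2
  -- the group of `Z`
  obtain ⟨A, B, a, b, hcl, hAB, hμAB, hab⟩ := z_level ζ hζ Z₁ Z₂ hZ₁ hZ₂ hZ hZI ζ₁ ζ₂ hc₁ hc₂ h₁ h₂
    z₀ hz₀ ha₁ ha₂ η hη hη' z₁ hz₁ β₂ hβ₂ β₁ hβ₁ hβ
  have hcφ : ∀ c : FundamentalGroup Z z₀, Commute (lc μ) (φ c) := by
    intro c
    obtain ⟨γ, rfl⟩ := lc_surj c
    rw [← hψα]
    exact hcomm α γ
  obtain ⟨hA', hB'⟩ := group_algebra (φ A) (φ B) (lc μ) a b
    (by rw [← map_pow, hAB, map_pow])
    (by rw [← map_zpow, ← map_zpow, ← map_mul, ← hμAB, hφ]) hab (hcφ A) (hcφ B)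
  have hφpow : ∀ c : FundamentalGroup Z z₀, φ c ∈ Subgroup.zpowers (lc μ) := by
    intro c
    have h1 : (⊤ : Subgroup (FundamentalGroup Z z₀)) ≤
        (Subgroup.zpowers (lc μ)).comap φ := by
      rw [← hcl, Subgroup.closure_le]
      rintro g (rfl | rfl)
      · exact ⟨2, by rw [hA']; simp⟩
      · exact ⟨3, by rw [hB']; simp⟩
    exact h1 (Subgroup.mem_top c)
  -- path connectedness
  have hZp : IsPathConnected (univ : Set Z) := by
    rw [← hZ]
    exact (isPathConnected_of_pbOn h₁).union (isPathConnected_of_pbOn h₂) ⟨z₀, hz₀⟩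
  have : PathConnectedSpace Z := pathConnectedSpace_iff_univ.2 hZp
  have hUp : IsPathConnected (range j) := isPathConnected_range hj.continuous
  have hVp : IsPathConnected V := isPathConnected_of_pbOn hVs
  have : PathConnectedSpace X := by
    rw [pathConnectedSpace_iff_univ, ← hVU]
    exact hUp.union hVp hI.nonempty
  -- generation
  have hgen : Subgroup.zpowers (lc μ) = ⊤ := by
    refine generate hj.isOpen_range hV hVU hUp hVp hI ⟨⟨_, rfl⟩, hz₀V'⟩ _ ?_ hVpow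
    intro γ hγ
    let e : M × Z ≃ₜ range j := hj.toIsEmbedding.toHomeomorph
    have he : ∀ x : range j, j (e.symm x) = x := fun x => by
      have := e.apply_symm_apply x
      exact congrArg Subtype.val this
    let γ' : Path (m₀, z₀) (m₀, z₀) :=
      { toFun := fun t => e.symm ⟨γ t, hγ t⟩
        continuous_toFun := e.symm.continuous.comp (γ.continuous.subtype_mk _)
        source' := by
          apply hj.injective
          rw [he]
          exact γ.source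
        target' := by
          apply hj.injective
          rw [he]
          exact γ.target }
    let γ₁ : Path m₀ m₀ := γ'.map continuous_fst
    let γ₂ : Path z₀ z₀ := γ'.map continuous_snd
    have h1 : γ = (γ₁.prod γ₂).map hj.continuous := by
      ext t
      exact (he ⟨γ t, hγ t⟩).symm
    rw [h1, lc_prod₁ hj.continuous m₀ z₀ γ₁ γ₂]
    refine mul_mem ?_ ?_
    · have := hφpow (lc γ₂)
      rwa [hφ] at this
    · have := hψpow γ₁
      rwa [hψ] at this
  exact simplyConnected_pb hθ _ μ hμa hgen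

end Pool.Agent.Helper82.DK2
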