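import Pool.Agent.Helper82.DK2.Classify

/-!
# DK-P4: the trefoil group (about 80-120 lines)

Proof. Let `A` be the class of a loop in `Z₁` at `z₀` with `ζ₁`-angle `2π`, `B` the class of a loop in `Z₂`
with `ζ₂`-angle `2π` (`exists_loop` with `k = 1`). By `lc_mem_zpowers` every loop in `Z₁` (`Z₂`) is a power of
`A` (`B`), the exponent being its angle divided by `2π` (`HasAngle.loop`,
`HasAngle.exists_of_continuousOn`). So `generate` gives that `A`, `B` generate. The loop `η` lies in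
both sets; its `ζ`-angle is `12π = 2 (k 2π)` if its `ζ₁`-angle is `k 2π` (`ha₁`), so `k = 3` and
`lc η = A ^ 3`; in the same way `lc η = B ^ 2`. Let `δ` be a path from `z₁` to `z₀` in `Z₁ ∩ Z₂`. Then
`lc (β₂.trans β₁) = lc ((β₂.trans δ).trans (δ.symm.trans β₁)) = lc (δ.symm.trans β₁) * lc (β₂.trans δ) = A ^ a * B ^ b`,
and the angle of it is `2π = 2 a 2π + 3 b 2π`.
-/

namespace Pool.Agent.Helper82.DK2

open Set Topology

/-- A concatenation stays in the set. -/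
theorem zl_mem_trans {Z : Type*} [TopologicalSpace Z] {S : Set Z} {x y z : Z} {γ : Path x y}
    {δ : Path y z} (hγ : ∀ t, γ t ∈ S) (hδ : ∀ t, δ t ∈ S) (t : unitInterval) :
    (γ.trans δ) t ∈ S := by
  rw [Path.trans_apply]
  split_ifs with h
  · exact hγ _
  · exact hδ _

/-- Insert a path and its inverse. -/
theorem zl_lc_split {Z : Type*} [TopologicalSpace Z] {x y : Z} (β : Path x y) (δ β' : Path y x) :
    lc (β.trans β') = lc (δ.symm.trans β') * lc (β.trans δ) := by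
  rw [← lc_trans, lc_eq_iff]
  apply Path.Homotopic.Quotient.exact
  rw [Path.Homotopic.Quotient.mk_trans, Path.Homotopic.Quotient.mk_trans,
    Path.Homotopic.Quotient.mk_trans, Path.Homotopic.Quotient.mk_trans,
    Path.Homotopic.Quotient.mk_symm, Path.Homotopic.Quotient.trans_assoc,
    ← Path.Homotopic.Quotient.trans_assoc (Path.Homotopic.Quotient.mk δ),
    Path.Homotopic.Quotient.trans_symm, Path.Homotopic.Quotient.refl_trans]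

theorem z_level {Z : Type*} [TopologicalSpace Z] (ζ : Z → Circle) (hζ : Continuous ζ)
    (Z₁ Z₂ : Set Z) (hZ₁ : IsOpen Z₁) (hZ₂ : IsOpen Z₂) (hZ : Z₁ ∪ Z₂ = univ)
    (hZI : IsPathConnected (Z₁ ∩ Z₂)) (ζ₁ ζ₂ : Z → Circle)
    (hc₁ : ContinuousOn ζ₁ Z₁) (hc₂ : ContinuousOn ζ₂ Z₂)
    (h₁ : IsSimplyConnected (pbOn Z₁ ζ₁)) (h₂ : IsSimplyConnected (pbOn Z₂ ζ₂))
    (z₀ : Z) (hz₀ : z₀ ∈ Z₁ ∩ Z₂)
    (ha₁ : ∀ γ : Path z₀ z₀, (∀ t, γ t ∈ Z₁) → ∀ r, HasAngle ζ₁ γ r → HasAngle ζ γ (2 * r))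
    (ha₂ : ∀ γ : Path z₀ z₀, (∀ t, γ t ∈ Z₂) → ∀ r, HasAngle ζ₂ γ r → HasAngle ζ γ (3 * r))
    (η : Path z₀ z₀) (hη : ∀ t, η t ∈ Z₁ ∩ Z₂) (hη' : HasAngle ζ η (12 * Real.pi))
    (z₁ : Z) (hz₁ : z₁ ∈ Z₁ ∩ Z₂) (β₂ : Path z₀ z₁) (hβ₂ : ∀ t, β₂ t ∈ Z₂) (β₁ : Path z₁ z₀)
    (hβ₁ : ∀ t, β₁ t ∈ Z₁) (hβ : HasAngle ζ (β₂.trans β₁) (2 * Real.pi)) :
    ∃ (A B : FundamentalGroup Z z₀) (a b : ℤ), Subgroup.closure {A, B} = ⊤ ∧ A ^ 3 = B ^ 2 ∧
      lc (β₂.trans β₁) = A ^ a * B ^ b ∧ 2 * a + 3 * b = 1 := by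
  have hpi : (0 : ℝ) < Real.pi := Real.pi_pos
  obtain ⟨γA, hγA, hγA'⟩ := exists_loop h₁ hz₀.1 1
  obtain ⟨γB, hγB, hγB'⟩ := exists_loop h₂ hz₀.2 1
  have hA' : HasAngle ζ₁ γA (2 * Real.pi) := by simpa using hγA'
  have hB' : HasAngle ζ₂ γB (2 * Real.pi) := by simpa using hγB'
  have key₁ : ∀ γ : Path z₀ z₀, (∀ t, γ t ∈ Z₁) →
      ∃ k : ℤ, lc γ = lc γA ^ k ∧ HasAngle ζ γ (2 * (k * (2 * Real.pi))) := by
    intro γ hγ
    obtain ⟨r, hr⟩ := HasAngle.exists_of_continuousOn hc₁ γ hγ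
    obtain ⟨k, hk⟩ := hr.loop
    rw [hk] at hr
    exact ⟨k, lc_mem_zpowers h₁ γA hγA hA' γ hγ k hr, ha₁ γ hγ _ hr⟩
  have key₂ : ∀ γ : Path z₀ z₀, (∀ t, γ t ∈ Z₂) →
      ∃ k : ℤ, lc γ = lc γB ^ k ∧ HasAngle ζ γ (3 * (k * (2 * Real.pi))) := by
    intro γ hγ
    obtain ⟨r, hr⟩ := HasAngle.exists_of_continuousOn hc₂ γ hγ
    obtain ⟨k, hk⟩ := hr.loop
    rw [hk] at hr
    exact ⟨k, lc_mem_zpowers h₂ γB hγB hB' γ hγ k hr, ha₂ γ hγ _ hr⟩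
  obtain ⟨k, hk, hk'⟩ := key₁ η (fun t => (hη t).1)
  obtain ⟨m, hm, hm'⟩ := key₂ η (fun t => (hη t).2)
  have hk3 : k = 3 := by
    have h := HasAngle.unique hk' hη'
    have h' : (k : ℝ) = 3 := by
      have h2 : ((k : ℝ) - 3) * Real.pi = 0 := by linarith
      rcases mul_eq_zero.1 h2 with h3 | h3
      · linarith
      · exact absurd h3 hpi.ne'
    exact_mod_cast h'
  have hm2 : m = 2 := by
    have h := HasAngle.unique hm' hη'
    have h' : (m : ℝ) = 2 := by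
      have h2 : ((m : ℝ) - 2) * Real.pi = 0 := by linarith
      rcases mul_eq_zero.1 h2 with h3 | h3
      · linarith
      · exact absurd h3 hpi.ne'
    exact_mod_cast h'
  subst hk3 hm2
  have hJ : JoinedIn (Z₁ ∩ Z₂) z₁ z₀ := hZI.joinedIn z₁ hz₁ z₀ hz₀
  have hδ : ∀ t, hJ.somePath t ∈ Z₁ ∩ Z₂ := hJ.somePath_mem
  have hin₁ : ∀ t, (hJ.somePath.symm.trans β₁) t ∈ Z₁ := fun t =>
    zl_mem_trans (γ := hJ.somePath.symm) (fun s => by
      rw [Path.symm_apply]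
      exact (hδ _).1) hβ₁ t
  have hin₂ : ∀ t, (β₂.trans hJ.somePath) t ∈ Z₂ := fun t =>
    zl_mem_trans hβ₂ (fun s => (hδ s).2) t
  obtain ⟨a, ha, ha'⟩ := key₁ _ hin₁
  obtain ⟨b, hb, hb'⟩ := key₂ _ hin₂
  have hlc := zl_lc_split β₂ hJ.somePath β₁
  refine ⟨lc γA, lc γB, a, b, ?_, ?_, ?_, ?_⟩
  · refine generate hZ₁ hZ₂ hZ (isPathConnected_of_pbOn h₁) (isPathConnected_of_pbOn h₂) hZI hz₀ _
      (fun γ hγ => ?_) (fun γ hγ => ?_)
    · obtain ⟨n, hn, -⟩ := key₁ γ hγ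
      rw [hn]
      exact Subgroup.zpow_mem _ (Subgroup.subset_closure (by simp)) n
    · obtain ⟨n, hn, -⟩ := key₂ γ hγ
      rw [hn]
      exact Subgroup.zpow_mem _ (Subgroup.subset_closure (by simp)) n
  · have h := hk.symm.trans hm
    exact_mod_cast h
  · rw [hlc, ha, hb]
  · have h1 : HasAngle ζ ((β₂.trans hJ.somePath).trans (hJ.somePath.symm.trans β₁))
        (3 * (b * (2 * Real.pi)) + 2 * (a * (2 * Real.pi))) := hb'.trans ha'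
    have h2 : (β₂.trans β₁).Homotopic
        ((β₂.trans hJ.somePath).trans (hJ.somePath.symm.trans β₁)) := by
      rw [← lc_eq_iff, lc_trans]
      exact hlc
    have h3 := HasAngle.unique (HasAngle.homotopic hζ h2 hβ) h1
    have h4 : ((2 * a + 3 * b : ℤ) : ℝ) = 1 := by
      push_cast
      have h5 : ((2 * (a : ℝ) + 3 * b) - 1) * Real.pi = 0 := by linarith
      rcases mul_eq_zero.1 h5 with h6 | h6
      · linarith
      · exact absurd h6 hpi.ne'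
    exact_mod_cast h4

/-- The algebra: if `μ` commutes with `A` and `B` then both are powers of `μ`
(`B = B ^ (2 a + 3 b) = (B ^ 2) ^ a (B ^ b) ^ 3 = A ^ (3 a) (A ^ (- a) μ) ^ 3 = μ ^ 3`, and
`A = A ^ (2 a + 3 b) = (A ^ a) ^ 2 (A ^ 3) ^ b = (μ B ^ (- b)) ^ 2 B ^ (2 b) = μ ^ 2`). -/
theorem group_algebra {G : Type*} [Group G] (A B μ : G) (a b : ℤ) (h : A ^ 3 = B ^ 2)
    (hμ : μ = A ^ a * B ^ b) (hab : 2 * a + 3 * b = 1) (hA : Commute μ A) (hB : Commute μ B) :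
    A = μ ^ 2 ∧ B = μ ^ 3 := by
  have h' : A ^ (3 : ℤ) = B ^ (2 : ℤ) := by exact_mod_cast h
  constructor
  · have e1 : A ^ a = μ * B ^ (-b) := by rw [hμ]; group
    have e2 : (μ * B ^ (-b)) ^ (2 : ℤ) = μ ^ (2 : ℤ) * (B ^ (-b)) ^ (2 : ℤ) :=
      (hB.zpow_right (-b)).mul_zpow 2
    have e3 : A = μ ^ (2 : ℤ) := by
      calc A = A ^ (2 * a + 3 * b) := by rw [hab, zpow_one]
        _ = (A ^ a) ^ (2 : ℤ) * (A ^ (3 : ℤ)) ^ b := by
          rw [zpow_add, mul_comm 2 a, zpow_mul, zpow_mul]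
        _ = μ ^ (2 : ℤ) * (B ^ (-b)) ^ (2 : ℤ) * (B ^ (2 : ℤ)) ^ b := by rw [e1, e2, h']
        _ = μ ^ (2 : ℤ) := by
          rw [mul_assoc, ← zpow_mul, ← zpow_mul, ← zpow_add]
          rw [show -b * 2 + 2 * b = 0 by ring, zpow_zero, mul_one]
    exact_mod_cast e3
  · have e1 : B ^ b = A ^ (-a) * μ := by rw [hμ]; group
    have e2 : (A ^ (-a) * μ) ^ (3 : ℤ) = (A ^ (-a)) ^ (3 : ℤ) * μ ^ (3 : ℤ) :=
      (hA.symm.zpow_left (-a)).mul_zpow 3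
    have e3 : B = μ ^ (3 : ℤ) := by
      calc B = B ^ (2 * a + 3 * b) := by rw [hab, zpow_one]
        _ = (B ^ (2 : ℤ)) ^ a * (B ^ b) ^ (3 : ℤ) := by
          rw [zpow_add, mul_comm 3 b, zpow_mul, zpow_mul]
        _ = (A ^ (3 : ℤ)) ^ a * ((A ^ (-a)) ^ (3 : ℤ) * μ ^ (3 : ℤ)) := by rw [e1, e2, h']
        _ = μ ^ (3 : ℤ) := by
          rw [← mul_assoc, ← zpow_mul, ← zpow_mul, ← zpow_add]
          rw [show 3 * a + -a * 3 = 0 by ring, zpow_zero, one_mul]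
    exact_mod_cast e3

end Pool.Agent.Helper82.DK2
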