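import Pool.Agent.Helper82.DK2.Classify
import Pool.Agent.Helper82.DK2.CPart
import Pool.Agent.Helper31.DS.Defs

/-!
# DK-P6, DK-P7: the two parts of the complement of the trefoil

`Zt = {(x, y) : |x² - y³| = 1}`. `A1` is the part where `x ≠ 0` and `1 - y³/x² = (x² - y³)/x²` is in
the slit plane (`y³/x² ∉ [1, ∞)`), `A2` the part where `y ≠ 0` and `1 - x²/y³` is in the slit plane.
-/

namespace Pool.Agent.Helper82.DK2

open Set Topology Complex Pool.Agent.Helper31.DS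

def A1 : Set ↥Zt := {q | q.1.1 ≠ 0 ∧ (q.1.1 ^ 2 - q.1.2 ^ 3) / q.1.1 ^ 2 ∈ slitPlane}

def A2 : Set ↥Zt := {q | q.1.2 ≠ 0 ∧ (q.1.2 ^ 3 - q.1.1 ^ 2) / q.1.2 ^ 3 ∈ slitPlane}

/-- `x² - y³` as a point of the circle. -/
noncomputable def zt (q : ↥Zt) : Circle := cpart (q.1.1 ^ 2 - q.1.2 ^ 3)

noncomputable def zt1 (q : ↥Zt) : Circle := cpart q.1.1

noncomputable def zt2 (q : ↥Zt) : Circle := cpart q.1.2

end Pool.Agent.Helper82.DK2
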